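import Pool.Graph.R_seed8.W424.NC.ArmUp
import Pool.Graph.R_seed8.W424.NC.ArmLow

/-!
Bond percolation in the half-plane and in the quarter-plane near the critical point: the domains,
one-arm events, circuits of the domain and gluing.
-/

set_option maxHeartbeats 1000000

namespace Pool.Agent.H983.BD

open H974 H31K Finset

/-- The left end of the domain of radius `n`: the half-plane (`false`) or the quarter-plane
(`true`). -/
def lf (τ : Bool) (n : ℤ) : ℤ := if τ then 0 else -n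

theorem lf_bd (τ : Bool) {n : ℤ} (h : 0 ≤ n) : -n ≤ lf τ n ∧ lf τ n ≤ 0 := by
  cases τ <;> simp only [lf, if_true, if_false, Bool.false_eq_true] <;> omega

theorem lf_anti (τ : Bool) {n m : ℤ} (h : n ≤ m) : lf τ m ≤ lf τ n := by
  cases τ <;> simp only [lf, if_true, if_false, Bool.false_eq_true] <;> omega

/-- The edges of the domain of radius `n`. -/
noncomputable def DE (τ : Bool) (n : ℕ) : Finset Edg := RE (lf τ n) n 0 n

theorem DE_sub (τ : Bool) (n : ℕ) : DE τ n ⊆ boxE n := by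
  have h := lf_bd τ (n := (n:ℤ)) (by positivity)
  exact RE_subset h.1 le_rfl (by omega) le_rfl

theorem DE_mono (τ : Bool) {n m : ℕ} (h : n ≤ m) : DE τ n ⊆ DE τ m := by
  have h' : (n:ℤ) ≤ m := by exact_mod_cast h
  exact RE_subset (lf_anti τ h') h' le_rfl h'

theorem mem_dom {τ : Bool} {n : ℕ} {e : Edg} (he : e ∈ DE τ n) :
    0 ≤ e.2.1 ∧ (τ = true → 0 ≤ e.1) := by
  obtain ⟨x, y, b⟩ := e
  unfold DE at he
  cases τ <;> cases b <;>
    simp only [lf, if_true, if_false, Bool.false_eq_true, mem_RE_true, mem_RE_false] at he ⊢ <;>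
    constructor <;> intros <;> first | omega | simp_all

theorem mem_DE_iff {τ : Bool} {n : ℕ} {e : Edg} (he : 0 ≤ e.2.1 ∧ (τ = true → 0 ≤ e.1)) :
    e ∈ boxE n ↔ e ∈ DE τ n := by
  obtain ⟨x, y, b⟩ := e
  unfold DE boxE
  cases τ <;> cases b <;>
    simp only [lf, if_true, if_false, Bool.false_eq_true, mem_RE_true, mem_RE_false,
      forall_const] at he ⊢ <;> omega

theorem fin_inter {τ : Bool} {m n : ℕ} {F : Finset Edg} (hF : F ⊆ DE τ m) :
    F ∩ boxE n = F ∩ DE τ n := by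
  ext e
  rw [Finset.mem_inter, Finset.mem_inter]
  constructor
  · rintro ⟨h1, h2⟩; exact ⟨h1, (mem_DE_iff (mem_dom (hF h1))).mp h2⟩
  · rintro ⟨h1, h2⟩; exact ⟨h1, DE_sub τ n h2⟩

theorem set_inter {τ : Bool} {m n : ℕ} {F : Finset Edg} (hF : F ⊆ DE τ m) :
    (↑F ∩ ↑(boxE n) : Set Edg) = ↑F ∩ ↑(DE τ n) := by
  rw [← Finset.coe_inter, ← Finset.coe_inter, fin_inter hF]

/-- The vertices of the domain. -/
def InD (τ : Bool) (v : Vtx) : Prop := 0 ≤ v.2 ∧ (τ = true → 0 ≤ v.1)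

theorem ends_dom {τ : Bool} {n : ℕ} {e : Edg} (he : e ∈ DE τ n) :
    InD τ (src e) ∧ InD τ (tgt e) := by
  have h := mem_dom he
  obtain ⟨x, y, b⟩ := e
  cases b
  · simp only [InD, src_mk, tgt_false] at h ⊢
    exact ⟨h, by omega, h.2⟩
  · simp only [InD, src_mk, tgt_true] at h ⊢
    exact ⟨h, h.1, fun ht => by have := h.2 ht; omega⟩

theorem reach_dom {τ : Bool} {n : ℕ} {G : Set Edg} (hG : G ⊆ ↑(DE τ n)) {u v : Vtx}
    (h : Reach G u v) (hne : u ≠ v) : InD τ u ∧ InD τ v := by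
  have key : ∀ {x y : Vtx}, Adj G x y → InD τ x ∧ InD τ y := by
    rintro x y ⟨e, he, h⟩
    have := ends_dom (hG he)
    rcases h with ⟨rfl, rfl⟩ | ⟨rfl, rfl⟩
    · exact this
    · exact this.symm
  induction h with
  | refl => exact absurd rfl hne
  | @tail a b h1 h2 ih =>
    by_cases hua : u = a
    · subst hua; exact key h2
    · exact ⟨(ih hua).1, (key h2).2⟩

theorem reach_dom' {τ : Bool} {n : ℕ} {G : Set Edg} (hG : G ⊆ ↑(DE τ n)) {u v : Vtx}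
    (h : Reach G u v) (hu : InD τ u) : InD τ v := by
  by_cases hne : u = v
  · rw [← hne]; exact hu
  · exact (reach_dom hG h hne).2

/-- The one-arm probability of the domain. -/
noncomputable def ad (τ : Bool) (q : ℝ) (n : ℕ) : ℝ := Pr (fun _ => q) (DE τ n) (Arm n)

theorem ad_nonneg (τ : Bool) {q : ℝ} (h0 : 0 ≤ q) (h1 : q ≤ 1) (n : ℕ) : 0 ≤ ad τ q n :=
  Pr_nonneg (okq h0 h1) _ _

theorem ad_le_one (τ : Bool) {q : ℝ} (h0 : 0 ≤ q) (h1 : q ≤ 1) (n : ℕ) : ad τ q n ≤ 1 :=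
  Pr_le_one (okq h0 h1) _ _

theorem ad_mono_param (τ : Bool) {p q : ℝ} (h0 : 0 ≤ p) (hpq : p ≤ q) (h1 : q ≤ 1) (n : ℕ) :
    ad τ p n ≤ ad τ q n :=
  Pr_mono_param (okq h0 (hpq.trans h1)) (okq (h0.trans hpq) h1) (fun _ => hpq) (Arm_incr _ _)

/-- The one-arm event depends only on the edges of the domain. -/
theorem Arm_loc {τ : Bool} {n m : ℕ} {F : Finset Edg} (hF : F ⊆ DE τ m) :
    Arm n F ↔ Arm n (F ∩ DE τ n) := by
  unfold Arm
  rw [Finset.coe_inter, set_inter hF, Set.inter_assoc]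
  have : (↑(DE τ n) ∩ ↑(boxE n) : Set Edg) = ↑(DE τ n) :=
    Set.inter_eq_left.mpr (by exact_mod_cast DE_sub τ n)
  rw [this]

theorem pr_ad (τ : Bool) (q : ℝ) {n m : ℕ} (h : n ≤ m) :
    Pr (fun _ => q) (DE τ m) (Arm n) = ad τ q n := by
  unfold ad
  exact Pr_local (DE_mono τ h) (fun F hF => Arm_loc hF)

theorem ad_anti (τ : Bool) {q : ℝ} (h0 : 0 ≤ q) (h1 : q ≤ 1) {n m : ℕ} (h : n ≤ m) :
    ad τ q m ≤ ad τ q n := by
  rw [← pr_ad τ q h]
  exact Pr_mono (okq h0 h1) (fun F _ hF => Arm_anti h hF)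

/-- A connection from the box of radius `r` to distance `n` outside the box. -/
def Out (r n : ℕ) (F : Finset Edg) : Prop :=
  ∃ u v : Vtx, inR (-(r:ℤ)) r (-r) r u ∧ onB n v ∧ Reach (↑F ∩ (↑(boxE n) \ ↑(boxE r))) u v

theorem Out.mono {r n : ℕ} {F G : Finset Edg} (h : F ⊆ G) (hF : Out r n F) : Out r n G := by
  obtain ⟨u, v, h1, h2, h3⟩ := hF
  exact ⟨u, v, h1, h2, h3.mono (Set.inter_subset_inter_left _ (by exact_mod_cast h))⟩

theorem Out.barm {r n : ℕ} {F : Finset Edg} (hF : Out r n F) : BArm r n F := by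
  obtain ⟨u, v, h1, h2, h3⟩ := hF
  exact ⟨u, v, h1, h2, h3.mono (Set.inter_subset_inter_right _ Set.sdiff_subset)⟩

theorem out_of_arm {r n : ℕ} (h : r ≤ n) {F : Finset Edg} (hF : Arm n F) : Out r n F := by
  obtain ⟨v, hv, hr⟩ := hF
  have h' : (r:ℤ) ≤ n := by exact_mod_cast h
  obtain ⟨u, k1, -, k3⟩ := first_entry (a := -(r:ℤ)) (b := r) (c := -(r:ℤ)) (d := r)
    (w := v) (v := (0, 0)) (by unfold onB inR at hv; unfold inR; omega) hr.symm
    (by unfold inR; simp)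
  refine ⟨u, v, k1, hv, k3.symm.mono ?_⟩
  rintro e ⟨⟨h1, h2⟩, h3⟩
  exact ⟨h1, h2, h3⟩

/-- The probability of the outer connection in the domain. -/
noncomputable def bd (τ : Bool) (q : ℝ) (r n : ℕ) : ℝ := Pr (fun _ => q) (DE τ n) (Out r n)

theorem bd_nonneg (τ : Bool) {q : ℝ} (h0 : 0 ≤ q) (h1 : q ≤ 1) (r n : ℕ) : 0 ≤ bd τ q r n :=
  Pr_nonneg (okq h0 h1) _ _

theorem bd_le_one (τ : Bool) {q : ℝ} (h0 : 0 ≤ q) (h1 : q ≤ 1) (r n : ℕ) : bd τ q r n ≤ 1 :=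
  Pr_le_one (okq h0 h1) _ _

theorem Out_loc {r n : ℕ} {S : Finset Edg} {F : Finset Edg} (hF : F ⊆ S) :
    Out r n F ↔ Out r n (F ∩ (S \ boxE r)) := by
  unfold Out
  have : (↑(F ∩ (S \ boxE r)) ∩ (↑(boxE n) \ ↑(boxE r)) : Set Edg) =
      ↑F ∩ (↑(boxE n) \ ↑(boxE r)) := by
    ext e
    simp only [Set.mem_inter_iff, Finset.mem_coe, Finset.mem_inter, Finset.mem_sdiff,
      Set.mem_sdiff]
    constructor
    · rintro ⟨⟨h1, -⟩, h2⟩; exact ⟨h1, h2⟩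
    · rintro ⟨h1, h2⟩; exact ⟨⟨h1, hF h1, h2.2⟩, h2⟩
  rw [this]

/-- The crossings around a half-annulus or a quarter-annulus. -/
def HC (τ : Bool) (r R : ℤ) (F : Finset Edg) : Prop :=
  LRc (lf τ R) R r R F ∧ TBc r R 0 R F ∧ (τ = false → TBc (-R) (-r) 0 R F)

theorem HC.mono {τ : Bool} {r R : ℤ} {F G : Finset Edg} (h : F ⊆ G) (hF : HC τ r R F) :
    HC τ r R G :=
  ⟨hF.1.mono h, hF.2.1.mono h, fun ht => (hF.2.2 ht).mono h⟩

theorem pr_HC (τ : Bool) {q : ℝ} (h0 : 0 ≤ q) (h1 : q ≤ 1) {r R : ℤ} (hr : 0 ≤ r) (hR : r < R)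
    {S : Finset Edg} (hS : RE (lf τ R) R 0 R ⊆ S) :
    (hh q (2 * R) (R - r))^3 ≤ Pr (fun _ => q) S (HC τ r R) := by
  have ok := okq h0 h1
  obtain ⟨l1, l2⟩ := lf_bd τ (n := R) (by omega)
  have hn : 0 ≤ hh q (2 * R) (R - r) := hh_nonneg h0 h1 _ _
  have hn1 : hh q (2 * R) (R - r) ≤ 1 := hh_le_one h0 h1 _ _
  have e1 : hh q (2 * R) (R - r) ≤ Pr (fun _ => q) S (LRc (lf τ R) R r R) := by
    rw [pr_LRc q (LRE_subset_RE.trans ((RE_subset le_rfl le_rfl (by omega) le_rfl).trans hS))]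
    exact hh_mono h0 h1 (by omega) (by omega) (by omega)
  have e2 : hh q (2 * R) (R - r) ≤ Pr (fun _ => q) S (TBc r R 0 R) := by
    rw [pr_TBc q (TBE_subset_RE.trans ((RE_subset (by omega) le_rfl le_rfl le_rfl).trans hS))]
    exact hh_mono h0 h1 (by omega) (by omega) (by omega)
  have e3 : hh q (2 * R) (R - r) ≤ Pr (fun _ => q) S (fun F => τ = false → TBc (-R) (-r) 0 R F) := by
    cases τ
    · have e : Pr (fun _ => q) S (fun F => (false = false → TBc (-R) (-r) 0 R F)) =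
          Pr (fun _ => q) S (TBc (-R) (-r) 0 R) := Pr_congr (fun F _ => by simp)
      rw [e, pr_TBc q (TBE_subset_RE.trans ((RE_subset (by simp [lf]) (by omega) le_rfl
        le_rfl).trans hS))]
      exact hh_mono h0 h1 (by omega) (by omega) (by omega)
    · have e : Pr (fun _ => q) S (fun F => (true = false → TBc (-R) (-r) 0 R F)) = 1 :=
        Pr_true S (fun F _ => by simp)
      rw [e]; exact hn1
  have c2 : IncrE S (TBc r R 0 R) := TBc_incr _ _ _ _ _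
  have c3 : IncrE S (fun F => τ = false → TBc (-R) (-r) 0 R F) :=
    fun F G h _ hF ht => (hF ht).mono h
  have i1 := Pr_harris ok c2 c3
  have i2 := Pr_harris ok (S := S) (LRc_incr S (lf τ R) R r R)
    (B := fun F => TBc r R 0 R F ∧ (τ = false → TBc (-R) (-r) 0 R F))
    (fun F G h hG hF => ⟨c2 F G h hG hF.1, c3 F G h hG hF.2⟩)
  have j1 := mul_le_mul e2 e3 hn (hn.trans e2)
  calc (hh q (2 * R) (R - r))^3 =
        hh q (2 * R) (R - r) * (hh q (2 * R) (R - r) * hh q (2 * R) (R - r)) := by ring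
    _ ≤ _ := mul_le_mul e1 (j1.trans i1) (mul_nonneg hn hn) (hn.trans e1)
    _ ≤ _ := i2

/-- All the connections across the half-annulus meet the circuit. -/
theorem hc_meet' {τ : Bool} {m : ℕ} {F : Finset Edg} (hF : F ⊆ DE τ m) {r R : ℤ} (h1 : 0 ≤ r)
    (h2 : r < R) (h : HC τ r R F) : ∃ x x' : ℤ, (r ≤ x ∧ x ≤ R) ∧ (r ≤ x' ∧ x' ≤ R) ∧
      Reach (↑F ∩ ↑(RE r R 0 R)) (x, 0) (x', R) ∧ ∀ u v : Vtx, inR (-r) r (-r) r u →
      (v.1 = -R ∨ v.1 = R ∨ v.2 = -R ∨ v.2 = R) →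
      Reach (↑F ∩ ↑(RE (-R) R (-R) R)) u v → Reach (↑F ∩ ↑(RE (-R) R (-R) R)) u (x, 0) := by
  obtain ⟨⟨t, t', ht, ht', hT⟩, ⟨x, x', hx, hx', hR⟩, hL⟩ := h
  obtain ⟨l1, l2⟩ := lf_bd τ (n := R) (by omega)
  have hT' := hT.mono (Set.inter_subset_inter_right (↑F)
    (by exact_mod_cast LRE_subset_RE : (↑(LRE (lf τ R) R r R) : Set Edg) ⊆ _))
  have hR' := hR.mono (Set.inter_subset_inter_right (↑F)
    (by exact_mod_cast TBE_subset_RE : (↑(TBE r R 0 R) : Set Edg) ⊆ _))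
  -- the edges of `F` in the box are in the domain
  have hdom : (↑F ∩ ↑(RE (-R) R (-R) R) : Set Edg) ⊆ ↑F ∩ ↑(RE (lf τ R) R 0 R) := by
    rintro ⟨a, b, c⟩ ⟨he, he2⟩
    refine ⟨he, ?_⟩
    have h3 := mem_dom (hF he)
    cases τ <;> cases c <;>
      simp only [lf, if_true, if_false, Bool.false_eq_true, Finset.mem_coe, mem_RE_true,
        mem_RE_false, forall_const] at he2 h3 ⊢ <;> omega
  have hsub : (↑F ∩ ↑(RE (lf τ R) R 0 R) : Set Edg) ⊆ ↑F ∩ ↑(RE (-R) R (-R) R) :=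
    Set.inter_subset_inter_right _
      (by exact_mod_cast RE_subset l1 le_rfl (by omega) le_rfl)
  have mTR : Reach (↑F ∩ ↑(RE (lf τ R) R 0 R)) (lf τ R, t) (x, 0) :=
    cross_meet (A := lf τ R) (B := R) (C := 0) (D := R) (a := r) (b := R) (c := r) (d := R)
      (by omega) h2 le_rfl (by omega) h2 le_rfl hT' (by simp only; omega) le_rfl hR'
      (by simp only; omega) le_rfl
  refine ⟨x, x', hx, hx', hR', ?_⟩
  intro u v hu hv hP
  unfold inR at hu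
  have hne : u ≠ v := by
    rintro rfl
    omega
  have hPD : Reach (↑F ∩ ↑(RE (lf τ R) R 0 R)) u v := hP.mono hdom
  obtain ⟨⟨d1, d2⟩, d3, d4⟩ := reach_dom (τ := τ) (n := m)
    (G := (↑F ∩ ↑(RE (-R) R (-R) R) : Set Edg))
    (fun e he => by exact_mod_cast hF he.1) hP hne
  apply Reach.mono hsub
  rcases hv with hv | hv | hv | hv
  · -- left side
    cases hτ : τ
    · subst hτ
      obtain ⟨y, y', hy, hy', hL⟩ := hL rfl
      have hL' := hL.mono (Set.inter_subset_inter_right (↑F)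
        (by exact_mod_cast TBE_subset_RE : (↑(TBE (-R) (-r) 0 R) : Set Edg) ⊆ _))
      have elf : lf false R = -R := by simp [lf]
      rw [elf] at hPD mTR hT' ⊢
      have mTL : Reach (↑F ∩ ↑(RE (-R) R 0 R)) (-R, t) (y, 0) :=
        cross_meet (A := -R) (B := R) (C := 0) (D := R) (a := -R) (b := -r) (c := r) (d := R)
          le_rfl (by omega) (by omega) (by omega) h2 le_rfl hT' le_rfl (by simp only; omega)
          hL' (by simp only; omega) le_rfl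
      have m : Reach (↑F ∩ ↑(RE (-R) R 0 R)) v (y, 0) :=
        cross_meet (A := -R) (B := R) (C := 0) (D := R) (a := -R) (b := -r) (c := 0) (d := R)
          le_rfl (by omega) (by omega) le_rfl (by omega) le_rfl hPD.symm hv.le
          (show -r ≤ u.1 by omega) hL' le_rfl le_rfl
      exact hPD.trans (m.trans (mTL.symm.trans mTR))
    · exfalso
      have := d4 hτ
      omega
  · exact cross_meet (A := lf τ R) (B := R) (C := 0) (D := R) (a := r) (b := R) (c := 0) (d := R)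
      (by omega) h2 le_rfl le_rfl (by omega) le_rfl hPD (by omega) hv.ge hR' le_rfl le_rfl
  · exfalso; omega
  · have m : Reach (↑F ∩ ↑(RE (lf τ R) R 0 R)) (lf τ R, t) u :=
      cross_meet (A := lf τ R) (B := R) (C := 0) (D := R) (a := lf τ R) (b := R) (c := r) (d := R)
        le_rfl (by omega) le_rfl (by omega) h2 le_rfl hT' le_rfl le_rfl hPD (by omega) hv.ge
    exact m.symm.trans mTR

theorem hc_meet {τ : Bool} {m : ℕ} {F : Finset Edg} (hF : F ⊆ DE τ m) {r R : ℤ} (h1 : 0 ≤ r)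
    (h2 : r < R) (h : HC τ r R F) : ∃ z : Vtx, ∀ u v : Vtx, inR (-r) r (-r) r u →
      (v.1 = -R ∨ v.1 = R ∨ v.2 = -R ∨ v.2 = R) →
      Reach (↑F ∩ ↑(RE (-R) R (-R) R)) u v → Reach (↑F ∩ ↑(RE (-R) R (-R) R)) u z := by
  obtain ⟨x, x', -, -, -, h5⟩ := hc_meet' hF h1 h2 h
  exact ⟨(x, 0), h5⟩

/-- Gluing an arm and an outer connection by a circuit of the domain. -/
theorem arm_of_glueD {τ : Bool} {m : ℕ} {F : Finset Edg} (hF : F ⊆ DE τ m) {r R n : ℕ}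
    (hrR : r < R) (hRn : R ≤ n) (h1 : Arm R F) (h2 : HC τ r R F) (h3 : Out r n F) : Arm n F := by
  obtain ⟨z, hz⟩ := hc_meet hF (by positivity) (by exact_mod_cast hrR) h2
  obtain ⟨v, hv, hr⟩ := h1
  obtain ⟨u', v', hu', hv', hr'⟩ := h3.barm
  have hRn' : (R:ℤ) ≤ n := by exact_mod_cast hRn
  have hrR' : (r:ℤ) < R := by exact_mod_cast hrR
  have m1 := hz (0, 0) v (by unfold inR; simp) hv.2 hr
  obtain ⟨w, k1, k2, k3⟩ := first_exit (a := -R) (b := R) (c := -R) (d := R)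
    (by unfold inR at hu' ⊢; omega) hr' (by unfold onB at hv'; omega)
  have k3' : Reach ((↑F : Set Edg) ∩ ↑(RE (-(R:ℤ)) R (-R) R)) u' w :=
    k3.mono (by rintro e ⟨⟨h4, -⟩, h5⟩; exact ⟨h4, h5⟩)
  have m2 := hz u' w hu' k2 k3'
  have hsub : (↑F : Set Edg) ∩ ↑(RE (-(R:ℤ)) R (-R) R) ⊆ ↑F ∩ ↑(boxE n) :=
    Set.inter_subset_inter_right _ (by exact_mod_cast boxE_mono hRn)
  exact ⟨v', hv', (m1.mono hsub).trans ((m2.symm.mono hsub).trans hr')⟩

theorem pr_HC_win {τ : Bool} {q κ : ℝ} {r n : ℕ} (hW : H12S.Win q κ (2 * r)) (hr : 1 ≤ r)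
    (h2 : 2 * r ≤ n) :
    κ^3 ≤ Pr (fun _ => q) (DE τ n) (HC τ r ((2 * r : ℕ) : ℤ)) := by
  have h0 : 0 ≤ q := by linarith [hW.lo]
  have h1 : q ≤ 1 := by linarith [hW.hi]
  refine le_trans ?_ (pr_HC τ h0 h1 (r := r) (R := ((2 * r : ℕ) : ℤ)) (by positivity)
    (by push_cast; omega) (DE_mono τ h2))
  apply pow_le_pow_left₀ hW.kpos.le
  refine (hW.pri r hr (by omega)).trans ?_
  apply hh_mono h0 h1
  · push_cast; omega
  · push_cast; omega
  · push_cast; omega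

/-- Quasi-multiplicativity. -/
theorem quasi {τ : Bool} {q κ : ℝ} {r n : ℕ} (hW : H12S.Win q κ (2 * r)) (hr : 1 ≤ r)
    (h2 : 2 * r ≤ n) : κ^3 * (ad τ q (2 * r) * bd τ q r n) ≤ ad τ q n := by
  have h0 : 0 ≤ q := by linarith [hW.lo]
  have h1 : q ≤ 1 := by linarith [hW.hi]
  have ok := okq h0 h1
  have e1 := pr_ad τ q h2
  have e2 := pr_HC_win (τ := τ) hW hr h2
  have i1 := Pr_harris ok (Arm_incr (DE τ n) (2 * r))
    (B := HC τ r ((2 * r : ℕ) : ℤ)) (fun F G h _ hF => hF.mono h)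
  have i2 := Pr_harris ok (S := DE τ n)
    (A := fun F => Arm (2 * r) F ∧ HC τ r ((2 * r : ℕ) : ℤ) F)
    (B := Out r n) (fun F G h _ hF => ⟨hF.1.mono h, hF.2.mono h⟩) (fun F G h _ hF => hF.mono h)
  have i3 : Pr (fun _ => q) (DE τ n)
      (fun F => (Arm (2 * r) F ∧ HC τ r ((2 * r : ℕ) : ℤ) F) ∧ Out r n F) ≤ ad τ q n := by
    unfold ad
    apply Pr_mono ok
    rintro F hF ⟨⟨k1, k2⟩, k3⟩
    exact arm_of_glueD hF (by omega) h2 k1 k2 k3
  rw [e1] at i1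
  have hb : 0 ≤ bd τ q r n := bd_nonneg τ h0 h1 _ _
  have ha : 0 ≤ ad τ q (2 * r) := ad_nonneg τ h0 h1 _
  have eb : Pr (fun _ => q) (DE τ n) (Out r n) = bd τ q r n := rfl
  rw [eb] at i2
  calc κ^3 * (ad τ q (2 * r) * bd τ q r n)
      = (ad τ q (2 * r) * κ^3) * bd τ q r n := by ring
    _ ≤ (ad τ q (2 * r) * Pr (fun _ => q) (DE τ n) (HC τ r ((2 * r : ℕ) : ℤ))) * bd τ q r n :=
        mul_le_mul_of_nonneg_right (mul_le_mul_of_nonneg_left e2 ha) hb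
    _ ≤ _ := mul_le_mul_of_nonneg_right i1 hb
    _ ≤ _ := i2
    _ ≤ _ := i3

/-- Gluing an arm, a circuit of the domain and a crossing of a strip. -/
theorem arm_of_strip {τ : Bool} {m : ℕ} {F : Finset Edg} (hF : F ⊆ DE τ m) {r n : ℕ}
    (hr : 1 ≤ r) (h2 : 2 * r ≤ n) (hA : Arm (2 * r) F) (hC : HC τ r ((2 * r : ℕ) : ℤ) F)
    (hL : LRc 0 n 0 ((2 * r : ℕ) : ℤ) F) : Arm n F := by
  obtain ⟨x, x', hx, hx', hR', hz⟩ := hc_meet' hF (by positivity) (by push_cast; omega) hC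
  obtain ⟨v, hv, hrv⟩ := hA
  obtain ⟨y, y', hy, hy', hp⟩ := hL
  have m1 := hz (0, 0) v (by unfold inR; simp) hv.2 hrv
  have hp' := hp.mono (Set.inter_subset_inter_right (↑F)
    (by exact_mod_cast LRE_subset_RE : (↑(LRE 0 n 0 ((2 * r : ℕ) : ℤ)) : Set Edg) ⊆ _))
  have h2' : ((2 * r : ℕ) : ℤ) ≤ n := by exact_mod_cast h2
  have hrz : (r:ℤ) < ((2 * r : ℕ) : ℤ) := by push_cast; omega
  have hr0 : (0:ℤ) ≤ r := by positivity
  -- the strip crossing meets the right crossing of the circuit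
  have m2 : Reach (↑F ∩ ↑(RE 0 n 0 ((2 * r : ℕ) : ℤ))) (0, y) (x, 0) :=
    cross_meet (A := 0) (B := n) (C := 0) (D := ((2 * r : ℕ) : ℤ)) (a := r)
      (b := ((2 * r : ℕ) : ℤ)) (c := 0) (d := ((2 * r : ℕ) : ℤ)) hr0 hrz h2' le_rfl (by omega)
      le_rfl hp' (by simp only; omega) (by simp only; omega) hR' le_rfl le_rfl
  have hsub : (↑F : Set Edg) ∩ ↑(RE (-((2 * r : ℕ) : ℤ)) ((2 * r : ℕ) : ℤ)
      (-((2 * r : ℕ) : ℤ)) ((2 * r : ℕ) : ℤ)) ⊆ ↑F ∩ ↑(boxE n) :=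
    Set.inter_subset_inter_right _ (by exact_mod_cast boxE_mono h2)
  have hsub2 : (↑F : Set Edg) ∩ ↑(RE 0 (n:ℤ) 0 ((2 * r : ℕ) : ℤ)) ⊆ ↑F ∩ ↑(boxE n) := by
    apply Set.inter_subset_inter_right
    have : RE 0 (n:ℤ) 0 ((2 * r : ℕ) : ℤ) ⊆ boxE n := by
      unfold boxE
      apply RE_subset <;> omega
    exact_mod_cast this
  refine ⟨(n, y'), ?_, (m1.mono hsub).trans ((m2.mono hsub2).symm.trans (hp'.mono hsub2))⟩
  refine ⟨?_, Or.inr (Or.inl rfl)⟩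
  unfold inR
  simp only
  omega

/-- Comparison of the arms to different distances. -/
theorem ratio {τ : Bool} {q κ : ℝ} {r n : ℕ} (hW : H12S.Win q κ (2 * r)) (hr : 1 ≤ r)
    (h2 : 2 * r ≤ n) (h3 : n ≤ 32 * r) : κ^4 * ad τ q (2 * r) ≤ ad τ q n := by
  have h0 : 0 ≤ q := by linarith [hW.lo]
  have h1 : q ≤ 1 := by linarith [hW.hi]
  have ok := okq h0 h1
  have hk := hW.kpos
  have e1 := pr_ad τ q h2
  have e2 := pr_HC_win (τ := τ) hW hr h2
  have h2' : ((2 * r : ℕ) : ℤ) ≤ n := by exact_mod_cast h2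
  have l2 := (lf_bd τ (n := (n:ℤ)) (by positivity)).2
  have hsub2 : LRE 0 n 0 ((2 * r : ℕ) : ℤ) ⊆ DE τ n := by
    refine LRE_subset_RE.trans ?_
    unfold DE
    apply RE_subset <;> omega
  have e3 : κ ≤ Pr (fun _ => q) (DE τ n) (LRc 0 n 0 ((2 * r : ℕ) : ℤ)) := by
    rw [pr_LRc q hsub2]
    refine (hW.pri (2 * r) (by omega) le_rfl).trans ?_
    apply hh_mono h0 h1
    · omega
    · push_cast; omega
    · push_cast; omega
  have i1 := Pr_harris ok (Arm_incr (DE τ n) (2 * r))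
    (B := HC τ r ((2 * r : ℕ) : ℤ)) (fun F G h _ hF => hF.mono h)
  have i2 := Pr_harris ok (S := DE τ n)
    (A := fun F => Arm (2 * r) F ∧ HC τ r ((2 * r : ℕ) : ℤ) F)
    (B := LRc 0 n 0 ((2 * r : ℕ) : ℤ)) (fun F G h _ hF => ⟨hF.1.mono h, hF.2.mono h⟩)
    (LRc_incr _ _ _ _ _)
  have i3 : Pr (fun _ => q) (DE τ n)
      (fun F => (Arm (2 * r) F ∧ HC τ r ((2 * r : ℕ) : ℤ) F) ∧ LRc 0 n 0 ((2 * r : ℕ) : ℤ) F) ≤
        ad τ q n := by
    unfold ad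
    apply Pr_mono ok
    rintro F hF ⟨⟨k1, k2⟩, k3⟩
    exact arm_of_strip hF hr h2 k1 k2 k3
  rw [e1] at i1
  have ha : 0 ≤ ad τ q (2 * r) := ad_nonneg τ h0 h1 _
  have j1 : ad τ q (2 * r) * κ^3 ≤ _ := (mul_le_mul_of_nonneg_left e2 ha).trans i1
  have j2 : (ad τ q (2 * r) * κ^3) * κ ≤ _ :=
    (mul_le_mul j1 e3 hk.le ((by positivity : 0 ≤ ad τ q (2 * r) * κ^3).trans j1)).trans i2
  calc κ^4 * ad τ q (2 * r) = (ad τ q (2 * r) * κ^3) * κ := by ring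
    _ ≤ _ := j2
    _ ≤ _ := i3

/-- Inner and outer arms around an annulus. -/
theorem quasi2 {τ : Bool} {q κ : ℝ} {s r2 n : ℕ} (hW : H12S.Win q κ n) (hs : 1 ≤ s)
    (h1 : 2 * s ≤ 2 * r2) (h2 : 2 * r2 ≤ n) (h3 : 2 * r2 ≤ 32 * s) :
    κ^7 * (ad τ q (2 * s) * bd τ q r2 n) ≤ ad τ q n := by
  have hq0 : 0 ≤ q := by linarith [hW.lo]
  have hq1 : q ≤ 1 := by linarith [hW.hi]
  have hk := hW.kpos
  have a1 := ratio (τ := τ) (hW.anti (show 2 * s ≤ n by omega)) hs h1 h3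
  have a2 := quasi (τ := τ) (hW.anti h2) (by omega) h2
  have hb := bd_nonneg τ hq0 hq1 r2 n
  calc κ^7 * (ad τ q (2 * s) * bd τ q r2 n) = κ^3 * ((κ^4 * ad τ q (2 * s)) * bd τ q r2 n) := by
        ring
    _ ≤ κ^3 * (ad τ q (2 * r2) * bd τ q r2 n) := by
        apply mul_le_mul_of_nonneg_left _ (by positivity)
        exact mul_le_mul_of_nonneg_right a1 hb
    _ ≤ _ := a2

end Pool.Agent.H983.BD
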