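import Pool.Agent.H983.BD.Base

/-!
The block inequality in the domain.
-/

set_option maxHeartbeats 1000000

namespace Pool.Agent.H983.BD

open H974 H31K Finset

/-- Cauchy-Schwarz given the inner arm and the outer arm. -/
theorem cs_arm3 {τ : Bool} {q : ℝ} (h0 : 0 ≤ q) (h1 : q ≤ 1) {n r1 r2 : ℕ} (h12 : r1 ≤ r2)
    (h2n : r2 ≤ n) {G : Finset Edg → ℝ}
    (hG : ∀ F, F ⊆ DE τ n → G F = G (F ∩ (DE τ r2 \ boxE r1))) {M : ℝ}
    (hM : Ex (fun _ => q) (DE τ n) (fun F => (G F)^2) ≤ M) :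
    Ex (fun _ => q) (DE τ n) (fun F => ind (Arm n F) * G F) ≤
      Real.sqrt (ad τ q n * (ad τ q r1 * bd τ q r2 n) * M) := by
  have ok : Ok (fun _ : Edg => q) := okq h0 h1
  obtain ⟨U, hU⟩ : ∃ U, U = DE τ n := ⟨_, rfl⟩
  obtain ⟨A, hA⟩ : ∃ A, A = DE τ r1 := ⟨_, rfl⟩
  obtain ⟨B, hB⟩ : ∃ B, B = DE τ r2 \ boxE r1 := ⟨_, rfl⟩
  obtain ⟨C, hC⟩ : ∃ C, C = DE τ n \ boxE r2 := ⟨_, rfl⟩
  have hAU : A ⊆ U := by rw [hA, hU]; exact DE_mono τ (h12.trans h2n)
  have hBU : B ⊆ U := by rw [hB, hU]; exact Finset.sdiff_subset.trans (DE_mono τ h2n)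
  have hCU : C ⊆ U := by rw [hC, hU]; exact Finset.sdiff_subset
  have hAB : Disjoint A (B ∪ C) := by
    rw [Finset.disjoint_union_right]
    constructor
    · rw [hA, hB]
      exact Finset.disjoint_of_subset_left (DE_sub τ r1) Finset.disjoint_sdiff
    · rw [hA, hC]
      exact Finset.disjoint_of_subset_left ((DE_sub τ r1).trans (boxE_mono h12))
        Finset.disjoint_sdiff
  have hCB : Disjoint C B := by
    rw [hB, hC]
    refine Finset.disjoint_of_subset_right (Finset.sdiff_subset.trans (DE_sub τ r2)) ?_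
    exact Finset.sdiff_disjoint
  have e1 : Ex (fun _ => q) U (fun F => ind (Arm n F) * G F) =
      Ex (fun _ => q) U (fun F => ind (Arm n F) * (ind (Arm r1 F) * (ind (Out r2 n F) * G F))) := by
    apply Ex_congr
    intro F _
    by_cases h : Arm n F
    · rw [ind_of h, ind_of (Arm_anti (h12.trans h2n) h), ind_of (out_of_arm h2n h)]; ring
    · rw [ind_not_of h]; ring
  rw [← hU, e1]
  refine (le_abs_self _).trans (Real.abs_le_sqrt ?_)
  refine (Ex_cs ok _ _ _).trans ?_
  have e2 : Ex (fun _ => q) U (fun F => (ind (Arm n F))^2) = ad τ q n := by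
    rw [hU]
    unfold ad Pr
    apply Ex_congr
    intro F _
    rw [pow_two, ind_sq]
  have hlocA : ∀ F, F ⊆ U → ind (Arm r1 F) = ind (Arm r1 (F ∩ A)) := by
    intro F hF
    rw [hU] at hF
    rw [hA]
    exact ind_congr (Arm_loc hF)
  have hlocC : ∀ F, F ⊆ U → ind (Out r2 n F) = ind (Out r2 n (F ∩ C)) := by
    intro F hF
    rw [hU] at hF
    rw [hC]
    exact ind_congr (Out_loc hF)
  have hlocB : ∀ F, F ⊆ U → G F = G (F ∩ B) := by
    intro F hF
    rw [hU] at hF
    rw [hB]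
    exact hG F hF
  have e3 : Ex (fun _ => q) U (fun F => (ind (Arm r1 F) * (ind (Out r2 n F) * G F))^2) =
      ad τ q r1 * Ex (fun _ => q) U (fun F => ind (Out r2 n F) * (G F)^2) := by
    have hp : Ex (fun _ => q) U (fun F => ind (Arm r1 F)) = ad τ q r1 := by
      have := pr_ad τ q (h12.trans h2n)
      rw [hU]; exact this
    rw [← hp]
    have h := Ex_mul_indep (p := fun _ : Edg => q) (U := U) (S := A)
      (T := B ∪ C) hAU (Finset.union_subset hBU hCU) hAB
      (f := fun F => ind (Arm r1 F)) (g := fun F => ind (Out r2 n F) * (G F)^2) hlocA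
      (fun F hF => by
        have hF' : F ∩ (B ∪ C) ⊆ U := Finset.inter_subset_left.trans hF
        have k1 : F ∩ (B ∪ C) ∩ C = F ∩ C := by
          rw [Finset.inter_assoc, Finset.inter_eq_right.mpr Finset.subset_union_right]
        have k2 : F ∩ (B ∪ C) ∩ B = F ∩ B := by
          rw [Finset.inter_assoc, Finset.inter_eq_right.mpr Finset.subset_union_left]
        show ind (Out r2 n F) * (G F)^2 = ind (Out r2 n (F ∩ (B ∪ C))) * (G (F ∩ (B ∪ C)))^2
        rw [hlocC F hF, hlocB F hF, hlocC _ hF', hlocB _ hF', k1, k2])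
    refine Eq.trans ?_ h
    apply Ex_congr
    intro F _
    have i1 := ind_sq (Arm r1 F)
    have i2 := ind_sq (Out r2 n F)
    calc (ind (Arm r1 F) * (ind (Out r2 n F) * G F))^2 =
        (ind (Arm r1 F) * ind (Arm r1 F)) * ((ind (Out r2 n F) * ind (Out r2 n F)) * (G F)^2) := by
          ring
      _ = _ := by rw [i1, i2]
  have e4 : Ex (fun _ => q) U (fun F => ind (Out r2 n F) * (G F)^2) =
      bd τ q r2 n * Ex (fun _ => q) U (fun F => (G F)^2) := by
    have hp : Ex (fun _ => q) U (fun F => ind (Out r2 n F)) = bd τ q r2 n := by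
      rw [hU]; rfl
    rw [← hp]
    exact Ex_mul_indep (p := fun _ : Edg => q) (U := U) (S := C) (T := B) hCU hBU hCB
      (f := fun F => ind (Out r2 n F)) (g := fun F => (G F)^2) hlocC
      (fun F hF => by
        show (G F)^2 = (G (F ∩ B))^2
        rw [← hlocB F hF])
  rw [e2, e3, e4]
  have g1 : 0 ≤ ad τ q n := ad_nonneg τ h0 h1 n
  have g2 : 0 ≤ ad τ q r1 := ad_nonneg τ h0 h1 r1
  have g3 : 0 ≤ bd τ q r2 n := bd_nonneg τ h0 h1 r2 n
  rw [← hU] at hM
  calc ad τ q n * (ad τ q r1 * (bd τ q r2 n * Ex (fun _ => q) U fun F => (G F)^2))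
      = (ad τ q n * (ad τ q r1 * bd τ q r2 n)) * Ex (fun _ => q) U (fun F => (G F)^2) := by ring
    _ ≤ _ := mul_le_mul_of_nonneg_left hM (mul_nonneg g1 (mul_nonneg g2 g3))

/-- FKG: the pivotality of a box of the domain is at most the correlation with `VV`. -/
theorem piv_VVD {τ : Bool} {q κ : ℝ} {n : ℕ} (hW : H12S.Win q κ n) {c1 c2 : ℤ} {r : ℕ}
    (ha : Adm n c1 c2 r) (hS : Bg c1 c2 r ⊆ DE τ n) :
    Pr (fun _ => q) (DE τ n) (H31K.PB n c1 c2 r) ≤
      Ex (fun _ => q) (DE τ n) (fun F => ind (Arm n F) * VV q c1 c2 r F) := by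
  have hκ : 0 < κ ^ 4 := pow_pos hW.kpos 4
  have h1 := pO_ge hW c1 c2 ha.pos ha.le
  have h2 := pD_ge hW c1 c2 ha.pos ha.le
  have ok := okW hW
  -- the pivotality
  have e0 : Pr (fun _ => q) (DE τ n) (H31K.PB n c1 c2 r) =
      Ex (fun _ => q) (DE τ n) (fun F => ind (Arm n (F ∪ Lam c1 c2 r))) -
        Ex (fun _ => q) (DE τ n) (fun F => ind (Arm n (F \ Lam c1 c2 r))) := by
    unfold Pr
    rw [← Ex_sub]
    apply Ex_congr
    intro F _
    unfold H31K.PB
    rw [ind_and, ind_not]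
    by_cases h : Arm n (F \ Lam c1 c2 r)
    · have h' : Arm n (F ∪ Lam c1 c2 r) :=
        h.mono (Finset.sdiff_subset.trans Finset.subset_union_left)
      rw [ind_of h, ind_of h']; ring
    · rw [ind_not_of h]; ring
  -- the open circuit
  have e1 : Ex (fun _ => q) (DE τ n) (fun F => ind (Arm n (F ∪ Lam c1 c2 r))) * pO q c1 c2 r ≤
      Ex (fun _ => q) (DE τ n) (fun F => ind (Arm n F) * ind (OC c1 c2 r F)) := by
    rw [← pr_OC q ha.pos hS]
    have h := harris (p := fun _ : Edg => q) ok (S := DE τ n)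
      (f := fun F => ind (Arm n (F ∪ Lam c1 c2 r))) (g := fun F => ind (OC c1 c2 r F))
      (fun A B hAB _ => ind_mono (fun h => h.mono (Finset.union_subset_union_left hAB)))
      (fun A B hAB _ => ind_mono (fun h => OC_mono hAB h))
    refine h.trans (le_of_eq ?_)
    apply Ex_congr
    intro F _
    rw [← ind_and, ← ind_and]
    apply ind_congr
    constructor
    · rintro ⟨k1, k2⟩
      exact ⟨OC_arm ha k2 k1, k2⟩
    · rintro ⟨k1, k2⟩
      exact ⟨k1.mono Finset.subset_union_left, k2⟩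
  -- the dual circuit
  have e2 : Ex (fun _ => q) (DE τ n) (fun F => ind (Arm n F) * ind (DC c1 c2 r F)) ≤
      Ex (fun _ => q) (DE τ n) (fun F => ind (Arm n (F \ Lam c1 c2 r))) * pD q c1 c2 r := by
    rw [← pr_DC q ha.pos hS]
    have h := Pr_harris_decr (p := fun _ : Edg => q) ok (S := DE τ n)
      (A := fun F => Arm n (F \ Lam c1 c2 r)) (B := fun F => DC c1 c2 r F)
      (fun A B hAB _ h => h.mono (Finset.sdiff_subset_sdiff hAB (Finset.Subset.refl _)))
      (fun A B hAB _ h hB => h (DC_anti hAB hB))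
    refine le_trans (le_of_eq ?_) h
    unfold Pr
    apply Ex_congr
    intro F _
    rw [← ind_and]
    apply ind_congr
    constructor
    · rintro ⟨k1, k2⟩
      exact ⟨DC_arm ha k2 k1, k2⟩
    · rintro ⟨k1, k2⟩
      exact ⟨k1.mono Finset.sdiff_subset, k2⟩
  have e3 : Ex (fun _ => q) (DE τ n) (fun F => ind (Arm n F) * VV q c1 c2 r F) =
      Ex (fun _ => q) (DE τ n) (fun F => ind (Arm n F) * ind (OC c1 c2 r F)) *
        (pO q c1 c2 r)⁻¹ -
      Ex (fun _ => q) (DE τ n) (fun F => ind (Arm n F) * ind (DC c1 c2 r F)) *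
        (pD q c1 c2 r)⁻¹ := by
    rw [← Ex_mul_right, ← Ex_mul_right, ← Ex_sub]
    apply Ex_congr
    intro F _
    unfold VV
    rw [div_eq_mul_inv, div_eq_mul_inv]
    ring
  have hpO : 0 < pO q c1 c2 r := by linarith
  have hpD : 0 < pD q c1 c2 r := by linarith
  have f1 : Ex (fun _ => q) (DE τ n) (fun F => ind (Arm n (F ∪ Lam c1 c2 r))) ≤
      Ex (fun _ => q) (DE τ n) (fun F => ind (Arm n F) * ind (OC c1 c2 r F)) *
        (pO q c1 c2 r)⁻¹ := by
    rw [← div_eq_mul_inv, le_div_iff₀ hpO]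
    exact e1
  have f2 : Ex (fun _ => q) (DE τ n) (fun F => ind (Arm n F) * ind (DC c1 c2 r F)) *
        (pD q c1 c2 r)⁻¹ ≤
      Ex (fun _ => q) (DE τ n) (fun F => ind (Arm n (F \ Lam c1 c2 r))) := by
    rw [← div_eq_mul_inv, div_le_iff₀ hpD]
    exact e2
  rw [e0, e3]
  linarith

/-- Consequence: a pivotal box costs only a constant. -/
theorem piv_le_armD {τ : Bool} {q κ : ℝ} {n : ℕ} (hW : H12S.Win q κ n) {c1 c2 : ℤ} {r : ℕ}
    (ha : Adm n c1 c2 r) (hS : Bg c1 c2 r ⊆ DE τ n) :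
    Pr (fun _ => q) (DE τ n) (H31K.PB n c1 c2 r) ≤ 1 / κ^4 * ad τ q n := by
  refine (piv_VVD hW ha hS).trans ?_
  unfold ad Pr
  rw [← Ex_mul_left]
  refine Ex_mono (okW hW) fun F _ => ?_
  have h1 := (abs_le.1 (VV_abs hW c1 c2 ha.pos ha.le F)).2
  have h2 := mul_le_mul_of_nonneg_left h1 (ind_nonneg (Arm n F))
  linarith

/-- The block inequality for boxes of a grid in an annulus. -/
theorem blkD {τ : Bool} {q κ : ℝ} {n : ℕ} (hW : H12S.Win q κ n) {r r1 r2 : ℕ} (h12 : r1 ≤ r2)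
    (h2n : r2 ≤ n) (T : Finset (ℤ × ℤ)) (hT : ∀ t ∈ T, Adm n (2 * r * t.1 + r) (2 * r * t.2 + r) r)
    (hB : ∀ t ∈ T, Bg (2 * r * t.1 + r) (2 * r * t.2 + r) r ⊆ DE τ r2)
    (hd : ∀ t ∈ T, Disjoint (Bg (2 * r * t.1 + r) (2 * r * t.2 + r) r) (boxE r1)) :
    ∑ t ∈ T, Pr (fun _ => q) (DE τ n) (H31K.PB n (2 * r * t.1 + r) (2 * r * t.2 + r) r) ≤
      17 / κ^4 * Real.sqrt (T.card * (ad τ q n * (ad τ q r1 * bd τ q r2 n))) := by
  classical
  have hκ : 0 < κ ^ 4 := pow_pos hW.kpos 4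
  have h0 : 0 ≤ q := by linarith [hW.lo]
  have h1 : q ≤ 1 := by linarith [hW.hi]
  have ok := okW hW
  have hBn : ∀ t ∈ T, Bg (2 * r * t.1 + r) (2 * r * t.2 + r) r ⊆ DE τ n :=
    fun t ht => (hB t ht).trans (DE_mono τ h2n)
  set W : ℤ × ℤ → Finset Edg → ℝ := fun t => VV q (2 * r * t.1 + r) (2 * r * t.2 + r) r with hWdef
  set G : Finset Edg → ℝ := fun F => ∑ t ∈ T, W t F with hG
  have a1 : ∑ t ∈ T, Pr (fun _ => q) (DE τ n) (H31K.PB n (2 * r * t.1 + r) (2 * r * t.2 + r) r) ≤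
      Ex (fun _ => q) (DE τ n) (fun F => ind (Arm n F) * G F) := by
    have e : Ex (fun _ => q) (DE τ n) (fun F => ind (Arm n F) * G F) =
        ∑ t ∈ T, Ex (fun _ => q) (DE τ n) (fun F => ind (Arm n F) * W t F) := by
      rw [← Ex_sum]
      apply Ex_congr
      intro F _
      rw [hG]
      exact Finset.mul_sum _ _ _
    rw [e]
    exact Finset.sum_le_sum fun t ht => piv_VVD hW (hT t ht) (hBn t ht)
  have a2 : Ex (fun _ => q) (DE τ n) (fun F => (G F)^2) ≤ 289 * T.card * (1 / κ^4)^2 := by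
    have e : Ex (fun _ => q) (DE τ n) (fun F => (G F)^2) =
        ∑ t ∈ T, ∑ t' ∈ T, Ex (fun _ => q) (DE τ n) (fun F => W t F * W t' F) := by
      rw [Finset.sum_congr rfl (fun t _ => (Ex_sum _ _ T (fun t' F => W t F * W t' F)).symm),
        ← Ex_sum]
      apply Ex_congr
      intro F _
      rw [hG, pow_two]
      exact Finset.sum_mul_sum _ _ _ _
    rw [e]
    have b : ∀ t ∈ T, ∑ t' ∈ T, Ex (fun _ => q) (DE τ n) (fun F => W t F * W t' F) ≤
        289 * (1 / κ^4)^2 := by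
      intro t ht
      have c : ∀ t' ∈ T, Ex (fun _ => q) (DE τ n) (fun F => W t F * W t' F) ≤
          if (|t.1 - t'.1| ≤ 8 ∧ |t.2 - t'.2| ≤ 8) then (1 / κ^4)^2 else 0 := by
        intro t' ht'
        split_ifs with hc
        · refine Ex_le_of_le ok fun F _ => ?_
          refine (le_abs_self _).trans ?_
          rw [abs_mul, pow_two]
          exact mul_le_mul (VV_abs hW _ _ (hT t ht).pos (hT t ht).le F)
            (VV_abs hW _ _ (hT t' ht').pos (hT t' ht').le F) (abs_nonneg _)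
            (div_nonneg zero_le_one hκ.le)
        · apply le_of_eq
          rw [Ex_mul_indep (hBn t ht) (hBn t' ht') (Bg_disj (hT t ht).pos hc)
            (fun F _ => VV_local q (hT t ht).pos (Finset.Subset.refl _) F)
            (fun F _ => VV_local q (hT t' ht').pos (Finset.Subset.refl _) F)]
          have hm : Ex (fun _ => q) (DE τ n) (fun F => VV q (2 * r * t.1 + r)
              (2 * r * t.2 + r) r F) = 0 :=
            VV_mean hW _ _ (hT t ht).pos (hT t ht).le (hBn t ht)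
          rw [hm, zero_mul]
      refine (Finset.sum_le_sum c).trans ?_
      rw [← Finset.sum_filter, Finset.sum_const, nsmul_eq_mul]
      apply mul_le_mul_of_nonneg_right _ (sq_nonneg _)
      have hsub : T.filter (fun t' => |t.1 - t'.1| ≤ 8 ∧ |t.2 - t'.2| ≤ 8) ⊆
          Finset.Icc (t.1 - 8) (t.1 + 8) ×ˢ Finset.Icc (t.2 - 8) (t.2 + 8) := by
        intro t' ht'
        rw [Finset.mem_filter] at ht'
        obtain ⟨-, h1, h2⟩ := ht'
        rw [abs_le] at h1 h2
        rw [Finset.mem_product, Finset.mem_Icc, Finset.mem_Icc]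
        omega
      have hcard := Finset.card_le_card hsub
      rw [Finset.card_product, Int.card_Icc, Int.card_Icc] at hcard
      have e1 : (t.1 + 8 + 1 - (t.1 - 8)).toNat = 17 := by omega
      have e2 : (t.2 + 8 + 1 - (t.2 - 8)).toNat = 17 := by omega
      rw [e1, e2] at hcard
      exact_mod_cast hcard
    refine (Finset.sum_le_sum b).trans ?_
    rw [Finset.sum_const, nsmul_eq_mul]
    apply le_of_eq; ring
  have a3 : ∀ F, F ⊆ DE τ n → G F = G (F ∩ (DE τ r2 \ boxE r1)) := by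
    intro F _
    rw [hG]
    refine Finset.sum_congr rfl fun t ht => ?_
    refine VV_local q (hT t ht).pos ?_ F
    intro e he
    rw [Finset.mem_sdiff]
    exact ⟨hB t ht he, Finset.disjoint_left.1 (hd t ht) he⟩
  refine a1.trans ((cs_arm3 h0 h1 h12 h2n a3 a2).trans (le_of_eq ?_))
  have e : ad τ q n * (ad τ q r1 * bd τ q r2 n) * (289 * T.card * (1 / κ^4)^2) =
      (17 / κ^4)^2 * (T.card * (ad τ q n * (ad τ q r1 * bd τ q r2 n))) := by
    rw [div_pow, div_pow]
    ring
  rw [e, Real.sqrt_mul (sq_nonneg _), Real.sqrt_sq (div_nonneg (by norm_num) hκ.le)]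

/-- The same for single edges. -/
theorem blk_edgesD {τ : Bool} {q : ℝ} (h0 : 1/4 ≤ q) (h1 : q ≤ 3/4) {n r1 r2 : ℕ}
    (h12 : r1 ≤ r2) (h2n : r2 ≤ n) (T : Finset Edg) (hT : T ⊆ DE τ r2 \ boxE r1) :
    ∑ e ∈ T, Pr (fun _ => q) ((DE τ n).erase e) (PivA n e) ≤
      3 * Real.sqrt (T.card * (ad τ q n * (ad τ q r1 * bd τ q r2 n))) := by
  classical
  have h0' : 0 ≤ q := by linarith
  have h1' : q ≤ 1 := by linarith
  have ok : Ok (fun _ : Edg => q) := okq h0' h1'
  have hTn : ∀ e ∈ T, e ∈ DE τ n := fun e he => DE_mono τ h2n (Finset.mem_sdiff.1 (hT he)).1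
  set G : Finset Edg → ℝ := fun F => ∑ e ∈ T, (ind (e ∈ F) - q) with hG
  set Q : ℝ := q * (1 - q) with hQ
  have hQ1 : 1/9 ≤ Q := by rw [hQ]; nlinarith
  -- the sum as a correlation
  have a1 : Q * ∑ e ∈ T, Pr (fun _ => q) ((DE τ n).erase e) (PivA n e) =
      Ex (fun _ => q) (DE τ n) (fun F => ind (Arm n F) * G F) := by
    have e : Ex (fun _ => q) (DE τ n) (fun F => ind (Arm n F) * G F) =
        ∑ e ∈ T, Ex (fun _ => q) (DE τ n) (fun F => (ind (e ∈ F) - q) * ind (Arm n F)) := by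
      rw [← Ex_sum]
      apply Ex_congr
      intro F _
      rw [hG, mul_comm]
      exact Finset.sum_mul _ _ _
    rw [e, Finset.mul_sum]
    refine Finset.sum_congr rfl fun e he => ?_
    have h := Ex_diff (p := fun _ : Edg => q) (hTn e he) (fun F => ind (Arm n F))
    rw [h]
    unfold Pr
    rw [hQ]
    congr 1
    apply Ex_congr
    intro F _
    rw [ind_piv]
  have a2 : Ex (fun _ => q) (DE τ n) (fun F => (G F)^2) ≤ T.card * Q := by
    have e : Ex (fun _ => q) (DE τ n) (fun F => (G F)^2) =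
        ∑ e ∈ T, ∑ e' ∈ T, Ex (fun _ => q) (DE τ n)
          (fun F => (ind (e ∈ F) - q) * (ind (e' ∈ F) - q)) := by
      rw [Finset.sum_congr rfl (fun t _ => (Ex_sum _ _ T
        (fun t' F => (ind (t ∈ F) - q) * (ind (t' ∈ F) - q))).symm), ← Ex_sum]
      apply Ex_congr
      intro F _
      rw [hG, pow_two]
      exact Finset.sum_mul_sum _ _ _ _
    rw [e]
    apply le_of_eq
    rw [← nsmul_eq_mul, ← Finset.sum_const]
    refine Finset.sum_congr rfl fun e he => ?_
    rw [Finset.sum_eq_single e]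
    · have h := Ex_diff (p := fun _ : Edg => q) (hTn e he) (fun F => ind (e ∈ F) - q)
      rw [h]
      rw [hQ]
      have h2 : Ex (fun _ => q) ((DE τ n).erase e)
          (fun F => ind (e ∈ insert e F) - q - (ind (e ∈ F) - q)) = 1 := by
        rw [← Ex_const (fun _ => q) ((DE τ n).erase e) 1]
        apply Ex_congr
        intro F hF
        rw [ind_of (Finset.mem_insert_self _ _),
          ind_not_of (fun h => Finset.notMem_erase e _ (hF h))]
        ring
      rw [h2, mul_one]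
    · intro e' he' hne
      have h := Ex_diff (p := fun _ : Edg => q) (hTn e he) (fun F => ind (e' ∈ F) - q)
      rw [h]
      have h2 : Ex (fun _ => q) ((DE τ n).erase e)
          (fun F => ind (e' ∈ insert e F) - q - (ind (e' ∈ F) - q)) = 0 := by
        rw [← Ex_const (fun _ => q) ((DE τ n).erase e) 0]
        apply Ex_congr
        intro F hF
        have : e' ∈ insert e F ↔ e' ∈ F := by
          rw [Finset.mem_insert]
          exact ⟨fun h => h.resolve_left hne, Or.inr⟩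
        rw [ind_congr this]
        ring
      rw [h2, mul_zero]
    · intro h; exact absurd he h
  have a3 : ∀ F, F ⊆ DE τ n → G F = G (F ∩ (DE τ r2 \ boxE r1)) := by
    intro F _
    rw [hG]
    refine Finset.sum_congr rfl fun e he => ?_
    have : e ∈ F ↔ e ∈ F ∩ (DE τ r2 \ boxE r1) := by
      rw [Finset.mem_inter]
      exact ⟨fun h => ⟨h, hT he⟩, fun h => h.1⟩
    rw [ind_congr this]
  have a4 := cs_arm3 h0' h1' h12 h2n a3 a2
  rw [← a1] at a4
  have e : ad τ q n * (ad τ q r1 * bd τ q r2 n) * (T.card * Q) =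
      Q * (T.card * (ad τ q n * (ad τ q r1 * bd τ q r2 n))) := by ring
  have hQ0 : 0 < Q := by linarith
  rw [e, Real.sqrt_mul hQ0.le] at a4
  set A : ℝ := Real.sqrt (T.card * (ad τ q n * (ad τ q r1 * bd τ q r2 n))) with hA
  have hA0 : 0 ≤ A := Real.sqrt_nonneg _
  have hs : Real.sqrt Q * A ≤ Q * (3 * A) := by
    have h3 : Real.sqrt Q ≤ 3 * Q := by
      have h4 : 1/3 ≤ Real.sqrt Q := by
        apply Real.le_sqrt_of_sq_le
        norm_num
        linarith
      have h5 := Real.mul_self_sqrt hQ0.le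
      nlinarith
    have := mul_le_mul_of_nonneg_right h3 hA0
    linarith
  exact le_of_mul_le_mul_left (a4.trans hs) hQ0

/-- An edge is pivotal only if the box around it is, and there are four arms in the box. -/
theorem piv_le_PBD {τ : Bool} {q : ℝ} (h0 : 0 ≤ q) (h1 : q ≤ 1) {n : ℕ} {c1 c2 : ℤ} {r : ℕ}
    (ha : Adm n c1 c2 r) (hS : Bg c1 c2 r ⊆ DE τ n) {e : Edg} (he : e ∈ Cor c1 c2 r) :
    Pr (fun _ => q) ((DE τ n).erase e) (PivA n e) ≤
      Pr (fun _ => q) (DE τ n) (H31K.PB n c1 c2 r) * H12S.a4 q (3 * r) := by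
  obtain ⟨hr, l1, u1, l2, u2, or0⟩ := ha
  have hr' : (1:ℤ) ≤ r := by exact_mod_cast hr
  have ok := okq h0 h1
  obtain ⟨S, hSdef⟩ : ∃ S, S = DE τ n := ⟨_, rfl⟩
  rw [← hSdef] at hS ⊢
  have hSn : S ⊆ boxE n := by rw [hSdef]; exact DE_sub τ n
  set U := S.erase e with hU
  have heL : e ∈ Lam c1 c2 r := Cor_sub c1 c2 r he
  have hLn : Lam c1 c2 r ⊆ S := Lam_sub_Bg.trans hS
  have s1 : S \ Lam c1 c2 r ⊆ U := by
    intro g hg
    rw [Finset.mem_sdiff] at hg
    rw [hU, Finset.mem_erase]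
    exact ⟨fun h => hg.2 (h ▸ heL), hg.1⟩
  have s2 : (Lam c1 c2 r).erase e ⊆ U := by
    intro g hg
    rw [Finset.mem_erase] at hg
    rw [hU, Finset.mem_erase]
    exact ⟨hg.1, hLn hg.2⟩
  have hdis0 : Disjoint (Lam c1 c2 r) (boxE 0) := by
    rw [Finset.disjoint_right]
    intro g hg
    exfalso
    unfold boxE at hg
    obtain ⟨x, y, _ | _⟩ := g
    · rw [mem_RE_false] at hg; push_cast at hg; omega
    · rw [mem_RE_true] at hg; push_cast at hg; omega
  have t1 : Pr (fun _ => q) U (PivA n e) ≤ Pr (fun _ => q) U (fun F => H31K.PB n c1 c2 r F ∧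
      F4 src tgt (BL c1 c2 r) e (F ∩ (Lam c1 c2 r).erase e)) := by
    apply Pr_mono ok
    intro F hF hp
    have hF' : F ⊆ (boxE n).erase e := hF.trans (Finset.erase_subset_erase _ hSn)
    have h4 := piv_split (r1 := 0) (r2 := n) he (by omega) hdis0 (Nat.zero_le _) le_rfl
      (by omega) hF' hp
    refine ⟨⟨?_, ?_⟩, h4.2.2⟩
    · refine hp.1.mono ?_
      intro g hg
      rw [Finset.mem_insert] at hg
      rw [Finset.mem_union]
      rcases hg with hg | hg
      · right; rw [hg]; exact heL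
      · left; exact hg
    · intro h
      exact hp.2 (h.mono Finset.sdiff_subset)
  have hloc : ∀ F, F ⊆ S → (H31K.PB n c1 c2 r F ↔ H31K.PB n c1 c2 r (F ∩ (S \ Lam c1 c2 r))) := by
    intro F hF
    have e1 : F ∩ (S \ Lam c1 c2 r) ∪ Lam c1 c2 r = F ∪ Lam c1 c2 r := by
      ext g
      simp only [Finset.mem_union, Finset.mem_inter, Finset.mem_sdiff]
      constructor
      · rintro (⟨h, _⟩ | h)
        · exact Or.inl h
        · exact Or.inr h
      · rintro (h | h)
        · by_cases hL : g ∈ Lam c1 c2 r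
          · exact Or.inr hL
          · exact Or.inl ⟨h, hF h, hL⟩
        · exact Or.inr h
    have e2 : (F ∩ (S \ Lam c1 c2 r)) \ Lam c1 c2 r = F \ Lam c1 c2 r := by
      ext g
      simp only [Finset.mem_inter, Finset.mem_sdiff]
      constructor
      · rintro ⟨⟨h, _⟩, h'⟩
        exact ⟨h, h'⟩
      · rintro ⟨h, h'⟩
        exact ⟨⟨h, hF h, h'⟩, h'⟩
    unfold H31K.PB
    rw [e1, e2]
  have d1 : Disjoint (S \ Lam c1 c2 r) ((Lam c1 c2 r).erase e) := by
    rw [Finset.disjoint_left]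
    intro g hg hg'
    rw [Finset.mem_sdiff] at hg
    exact hg.2 (Finset.mem_of_mem_erase hg')
  have i1 := Pr_indep (p := fun _ => q) s1 s2 d1 (A := H31K.PB n c1 c2 r)
    (B := fun F => F4 src tgt (BL c1 c2 r) e (F ∩ (Lam c1 c2 r).erase e))
    (fun F hF => hloc F (hF.trans (Finset.erase_subset _ _)))
    (by
      intro F _
      rw [Finset.inter_assoc, Finset.inter_self])
  rw [i1] at t1
  have u1 : Pr (fun _ => q) U (H31K.PB n c1 c2 r) = Pr (fun _ => q) S (H31K.PB n c1 c2 r) := by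
    rw [Pr_local s1 (fun F hF => hloc F (hF.trans (Finset.erase_subset _ _))),
      Pr_local (Finset.sdiff_subset (s := S) (t := Lam c1 c2 r)) (fun F hF => hloc F hF)]
  have u2 : Pr (fun _ => q) U (fun F => F4 src tgt (BL c1 c2 r) e (F ∩ (Lam c1 c2 r).erase e)) =
      Pr (fun _ => q) ((Lam c1 c2 r).erase e) (F4 src tgt (BL c1 c2 r) e) := by
    rw [Pr_local s2 (fun F _ => by rw [Finset.inter_assoc, Finset.inter_self])]
    apply Pr_congr
    intro F hF
    rw [Finset.inter_eq_left.mpr hF]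
  rw [u1, u2] at t1
  exact t1.trans (mul_le_mul_of_nonneg_left (pr_F4_le h0 h1 hr he) (Pr_nonneg ok _ _))

end Pool.Agent.H983.BD
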