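import Pool.Agent.H983.BD.Blk

/-!
Summation over all edges of the domain (Whitney decomposition).
-/

set_option maxHeartbeats 1000000

namespace Pool.Agent.H983.BD

open H974 H31K Finset

/-- The distance of an edge to the boundary of the domain of radius `n`. -/
def dt (τ : Bool) (n : ℕ) (e : Edg) : ℕ :=
  min (min (e.1 - lf τ n).toNat ((n:ℤ) - e.1).toNat) (min e.2.1.toNat ((n:ℤ) - e.2.1).toNat)

theorem dom_coord {τ : Bool} {n : ℕ} {e : Edg} (he : e ∈ DE τ n) :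
    lf τ n ≤ e.1 ∧ e.1 ≤ n ∧ 0 ≤ e.2.1 ∧ e.2.1 ≤ n := by
  obtain ⟨x, y, b⟩ := e
  unfold DE at he
  cases b
  · rw [mem_RE_false] at he; simp only; omega
  · rw [mem_RE_true] at he; simp only; omega

/-- The edges at scale `r`. -/
noncomputable def ED (τ : Bool) (n r : ℕ) : Finset Edg :=
  (DE τ n).filter (fun e => 9 * r ≤ dt τ n e ∧ dt τ n e < 18 * r)

theorem tt_BgD {τ : Bool} {n r : ℕ} (hr : 1 ≤ r) {e : Edg} (he : e ∈ ED τ n r) :
    Bg (2 * r * (tt r e).1 + r) (2 * r * (tt r e).2 + r) r ⊆ DE τ n := by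
  obtain ⟨⟨h1, h2⟩, h3, h4⟩ := tt_spec hr e
  unfold ED at he
  rw [Finset.mem_filter] at he
  obtain ⟨hb, h5, h6⟩ := he
  have hc := dom_coord hb
  unfold dt at h5 h6
  generalize 2 * (r:ℤ) * (tt r e).1 + r = c1 at *
  generalize 2 * (r:ℤ) * (tt r e).2 + r = c2 at *
  unfold Bg DE
  apply RE_subset <;> omega

theorem tt_admD {τ : Bool} {n r : ℕ} (hr : 1 ≤ r) {e : Edg} (he : e ∈ ED τ n r) :
    Adm n (2 * r * (tt r e).1 + r) (2 * r * (tt r e).2 + r) r := by
  obtain ⟨⟨h1, h2⟩, h3, h4⟩ := tt_spec hr e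
  unfold ED at he
  rw [Finset.mem_filter] at he
  obtain ⟨hb, h5, h6⟩ := he
  have hc := dom_coord hb
  have hl := lf_bd τ (n := (n:ℤ)) (by positivity)
  unfold dt at h5 h6
  generalize 2 * (r:ℤ) * (tt r e).1 + r = c1 at *
  generalize 2 * (r:ℤ) * (tt r e).2 + r = c2 at *
  constructor <;> omega

/-- The probability that the box `t` is pivotal. -/
noncomputable def PtD (τ : Bool) (q : ℝ) (n r : ℕ) (t : ℤ × ℤ) : ℝ :=
  Pr (fun _ => q) (DE τ n) (H31K.PB n (2 * r * t.1 + r) (2 * r * t.2 + r) r)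

theorem sum_ED_le {τ : Bool} {q κ : ℝ} {n r : ℕ} (hW : H12S.Win q κ n) (hr : 1 ≤ r) :
    ∑ e ∈ ED τ n r, Pr (fun _ => q) ((DE τ n).erase e) (PivA n e) ≤
      18 * (r:ℝ)^2 * H12S.a4 q (3 * r) * ∑ t ∈ (ED τ n r).image (tt r), PtD τ q n r t := by
  classical
  rw [← Finset.sum_fiberwise_of_maps_to (g := tt r)
    (fun e he => Finset.mem_image_of_mem (tt r) he), Finset.mul_sum]
  refine Finset.sum_le_sum ?_
  intro t _
  have ha4 := a4_nonneg hW (3 * r)
  have hP0 : 0 ≤ PtD τ q n r t := Pr_nonneg (okWin hW) _ _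
  have hle : ∀ e ∈ (ED τ n r).filter (fun e => tt r e = t),
      Pr (fun _ => q) ((DE τ n).erase e) (PivA n e) ≤ PtD τ q n r t * H12S.a4 q (3 * r) := by
    intro e he
    rw [Finset.mem_filter] at he
    obtain ⟨he, rfl⟩ := he
    exact piv_le_PBD (okWin hW e).1 (okWin hW e).2 (tt_admD hr he) (tt_BgD hr he) (tt_cor hr e)
  have hcard : (((ED τ n r).filter (fun e => tt r e = t)).card : ℝ) ≤ 18 * (r:ℝ)^2 := by
    refine le_trans ?_ (card_Cor (2 * r * t.1 + r) (2 * r * t.2 + r) hr)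
    have : (ED τ n r).filter (fun e => tt r e = t) ⊆
        Cor (2 * r * t.1 + r) (2 * r * t.2 + r) r := by
      intro e he
      rw [Finset.mem_filter] at he
      obtain ⟨he, rfl⟩ := he
      exact tt_cor hr e
    exact_mod_cast Finset.card_le_card this
  calc ∑ e ∈ (ED τ n r).filter (fun e => tt r e = t),
        Pr (fun _ => q) ((DE τ n).erase e) (PivA n e)
      ≤ ((ED τ n r).filter (fun e => tt r e = t)).card • (PtD τ q n r t * H12S.a4 q (3 * r)) :=
        Finset.sum_le_card_nsmul _ _ _ hle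
    _ = ((ED τ n r).filter (fun e => tt r e = t)).card * (PtD τ q n r t * H12S.a4 q (3 * r)) := by
        rw [nsmul_eq_mul]
    _ ≤ 18 * (r:ℝ)^2 * (PtD τ q n r t * H12S.a4 q (3 * r)) :=
        mul_le_mul_of_nonneg_right hcard (mul_nonneg hP0 ha4)
    _ = _ := by ring

theorem kap_b {q κ : ℝ} {n : ℕ} (hW : H12S.Win q κ n) :
    1 ≤ 1 / κ^8 ∧ 1 / κ^4 ≤ 1 / κ^8 ∧ Real.sqrt (1 / κ^7) ≤ 1 / κ^4 := by
  have h0 := hW.kpos
  have h1 : κ ≤ 1 := by linarith [hW.kle]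
  have hp : ∀ k : ℕ, 1 ≤ 1 / κ^k := by
    intro k
    rw [le_div_iff₀ (pow_pos h0 k), one_mul]
    exact pow_le_one₀ h0.le h1
  refine ⟨hp 8, ?_, ?_⟩
  · exact one_div_le_one_div_of_le (pow_pos h0 8) (pow_le_pow_of_le_one h0.le h1 (by norm_num))
  · rw [Real.sqrt_le_left (by positivity)]
    have : (1 / κ^4)^2 = 1 / κ^7 * (1 / κ^1) := by
      field_simp
    rw [this]
    have h4 := hp 7
    have h3 := hp 1
    nlinarith

theorem sq_aux {κ N a b : ℝ} (hκ : Real.sqrt (1 / κ^7) ≤ 1 / κ^4) (hk : 0 < κ)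
    (hN : 0 ≤ N) (ha : 0 ≤ a) (h1 : b ≤ 1 / κ^7 * a) :
    Real.sqrt (N * (a * b)) ≤ 1 / κ^4 * (Real.sqrt N * a) := by
  have h2 : N * (a * b) ≤ (1 / κ^7) * (N * a^2) := by
    have := mul_le_mul_of_nonneg_left h1 (mul_nonneg hN ha)
    nlinarith
  calc Real.sqrt (N * (a * b)) ≤ Real.sqrt ((1 / κ^7) * (N * a^2)) := Real.sqrt_le_sqrt h2
    _ = Real.sqrt (1 / κ^7) * (Real.sqrt N * a) := by
        rw [Real.sqrt_mul (by positivity), Real.sqrt_mul hN, Real.sqrt_sq ha]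
    _ ≤ _ := mul_le_mul_of_nonneg_right hκ (mul_nonneg (Real.sqrt_nonneg _) ha)

/-- Inner and outer arms, middle annuli. -/
theorem mid_arms {τ : Bool} {q κ : ℝ} {n s : ℕ} (hW : H12S.Win q κ n) (hs : 1 ≤ s)
    (hn : 32 * s ≤ n) : ad τ q (2 * s) * bd τ q (16 * s) n ≤ 1 / κ^7 * ad τ q n := by
  have h := quasi2 (τ := τ) (s := s) (r2 := 16 * s) hW hs (by omega) (by omega) (by omega)
  have h0 : 0 < κ^7 := pow_pos hW.kpos 7
  rw [div_mul_eq_mul_div, one_mul, le_div_iff₀ h0]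
  linarith

/-- Inner arm, outermost annulus. -/
theorem outer_arms {τ : Bool} {q κ : ℝ} {n : ℕ} (hW : H12S.Win q κ n) (hn : 64 ≤ n) :
    ad τ q (2 * (n / 20)) * bd τ q n n ≤ 1 / κ^7 * ad τ q n := by
  have hq0 : 0 ≤ q := by linarith [hW.lo]
  have hq1 : q ≤ 1 := by linarith [hW.hi]
  have h := ratio (τ := τ) (r := n / 20) (n := n) (hW.anti (by omega)) (by omega) (by omega)
    (by omega)
  have hk := hW.kpos
  have h0 : 0 < κ^7 := pow_pos hW.kpos 7
  have hk3 : κ^3 ≤ 1 := pow_le_one₀ hk.le (by linarith [hW.kle])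
  have hb := bd_le_one τ hq0 hq1 n n
  have hb0 := bd_nonneg τ hq0 hq1 n n
  have ha := ad_nonneg τ hq0 hq1 (2 * (n / 20))
  have ha2 := ad_nonneg τ hq0 hq1 n
  rw [div_mul_eq_mul_div, one_mul, le_div_iff₀ h0]
  calc ad τ q (2 * (n / 20)) * bd τ q n n * κ^7
      ≤ ad τ q (2 * (n / 20)) * 1 * κ^7 := by
        apply mul_le_mul_of_nonneg_right _ h0.le
        exact mul_le_mul_of_nonneg_left hb ha
    _ = κ^3 * (κ^4 * ad τ q (2 * (n / 20))) := by ring
    _ ≤ 1 * (κ^4 * ad τ q (2 * (n / 20))) :=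
        mul_le_mul_of_nonneg_right hk3 (by positivity)
    _ ≤ _ := by linarith

/-- The geometric sum. -/
theorem geo_sqrt (J : ℕ) : ∑ i ∈ range J, Real.sqrt ((2:ℝ)^i) ≤ 3 * Real.sqrt ((2:ℝ)^J) := by
  induction J with
  | zero => simp
  | succ J ih =>
    rw [Finset.sum_range_succ]
    have h1 : Real.sqrt ((2:ℝ)^(J+1)) = Real.sqrt 2 * Real.sqrt ((2:ℝ)^J) := by
      rw [pow_succ, mul_comm, Real.sqrt_mul (by norm_num)]
    rw [h1]
    have h2 : (1.4:ℝ) ≤ Real.sqrt 2 := by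
      apply Real.le_sqrt_of_sq_le; norm_num
    have h3 : 0 ≤ Real.sqrt ((2:ℝ)^J) := Real.sqrt_nonneg _
    nlinarith

theorem geo_sqrt2 (n : ℕ) : ∑ i ∈ (range n).filter (fun i => 32 * 2^i ≤ n),
    Real.sqrt ((2:ℝ)^i) ≤ Real.sqrt n := by
  by_cases hn : n < 32
  · have : (range n).filter (fun i => 32 * 2^i ≤ n) = ∅ := by
      apply Finset.filter_eq_empty_iff.mpr
      intro i _ h
      have : 1 ≤ 2^i := Nat.one_le_two_pow
      omega
    rw [this, Finset.sum_empty]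
    exact Real.sqrt_nonneg _
  · obtain ⟨J, hJ⟩ : ∃ J, J = Nat.log 2 (n / 32) := ⟨_, rfl⟩
    have hJ1 : 2^J ≤ n / 32 := by rw [hJ]; exact Nat.pow_log_le_self 2 (by omega)
    have hsub : (range n).filter (fun i => 32 * 2^i ≤ n) ⊆ range (J + 1) := by
      intro i hi
      rw [Finset.mem_filter] at hi
      rw [Finset.mem_range, Nat.lt_succ_iff, hJ]
      apply Nat.le_log_of_pow_le (by norm_num)
      rw [Nat.le_div_iff_mul_le (by norm_num)]
      omega
    refine (Finset.sum_le_sum_of_subset_of_nonneg hsub (fun _ _ _ => Real.sqrt_nonneg _)).trans ?_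
    refine (geo_sqrt (J + 1)).trans ?_
    have h1 : (9:ℝ) * 2^(J+1) ≤ n := by
      have : 9 * 2^(J+1) ≤ n := by
        rw [pow_succ]
        omega
      exact_mod_cast this
    have h2 : 3 * Real.sqrt ((2:ℝ)^(J+1)) = Real.sqrt (9 * 2^(J+1)) := by
      rw [Real.sqrt_mul (by norm_num)]
      congr 1
      rw [show (9:ℝ) = 3^2 by norm_num, Real.sqrt_sq (by norm_num)]
    rw [h2]
    exact Real.sqrt_le_sqrt h1

/-- Decomposition into annuli. -/
theorem layers {ι : Type*} [DecidableEq ι] (E : Finset Edg) (g : Edg → ι) (w : ι → ℝ)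
    (hw : ∀ t, 0 ≤ w t) {n r : ℕ} (hr : 1 ≤ r) {X K0 K1 K2 : ℝ}
    (hX : 0 ≤ X) (hK0 : 0 ≤ K0) (hK1 : 0 ≤ K1) (hrn : r ≤ n)
    (h0 : ∑ t ∈ (E.filter (fun e => Mx e < 64 * r)).image g, w t ≤ K0 * X)
    (h1 : ∀ s : ℕ, 1 ≤ s → 8 * r ≤ s → 32 * s ≤ n →
      ∑ t ∈ (E.filter (fun e => 64 * r ≤ Mx e ∧ 8 * Mx e ≤ n ∧ 4 * s ≤ Mx e ∧
        Mx e < 8 * s)).image g, w t ≤ K1 * (X * Real.sqrt (s / r)))
    (h2 : ∑ t ∈ (E.filter (fun e => 64 * r ≤ Mx e ∧ n < 8 * Mx e)).image g, w t ≤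
      K2 * (X * Real.sqrt (n / r))) :
    ∑ t ∈ E.image g, w t ≤ (K0 + K1 + K2) * (X * Real.sqrt (n / r)) := by
  classical
  obtain ⟨I, hI⟩ : ∃ I, I = (range n).filter (fun i => 32 * 2^i ≤ n) := ⟨_, rfl⟩
  obtain ⟨A0, hA0⟩ : ∃ A, A = (E.filter (fun e => Mx e < 64 * r)).image g := ⟨_, rfl⟩
  obtain ⟨A1, hA1⟩ : ∃ A : ℕ → Finset ι, A = fun i => (E.filter (fun e => 64 * r ≤ Mx e ∧
    8 * Mx e ≤ n ∧ 4 * 2^i ≤ Mx e ∧ Mx e < 8 * 2^i)).image g := ⟨_, rfl⟩
  obtain ⟨A2, hA2⟩ : ∃ A, A = (E.filter (fun e => 64 * r ≤ Mx e ∧ n < 8 * Mx e)).image g :=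
    ⟨_, rfl⟩
  have hpt : ∀ t ∈ E.image g, w t ≤ (if t ∈ A0 then w t else 0) +
      (∑ i ∈ I, if t ∈ A1 i then w t else 0) + (if t ∈ A2 then w t else 0) := by
    intro t ht
    obtain ⟨e, he, hge⟩ := Finset.mem_image.mp ht
    have n0 : ∀ (P : Prop) [Decidable P], (0:ℝ) ≤ if P then w t else 0 := by
      intro P _
      split_ifs
      · exact hw t
      · exact le_rfl
    have ns : 0 ≤ ∑ i ∈ I, if t ∈ A1 i then w t else 0 := Finset.sum_nonneg fun i _ => n0 _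
    by_cases c0 : Mx e < 64 * r
    · have : t ∈ A0 := by
        rw [hA0, ← hge]
        exact Finset.mem_image_of_mem _ (Finset.mem_filter.2 ⟨he, c0⟩)
      rw [if_pos this]
      have := n0 (t ∈ A2)
      linarith
    · by_cases c2 : n < 8 * Mx e
      · have : t ∈ A2 := by
          rw [hA2, ← hge]
          exact Finset.mem_image_of_mem _ (Finset.mem_filter.2 ⟨he, by omega, c2⟩)
        rw [if_pos this]
        have := n0 (t ∈ A0)
        linarith
      · obtain ⟨i, hi⟩ : ∃ i, i = Nat.log 2 (Mx e / 4) := ⟨_, rfl⟩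
        have hM4 : Mx e / 4 ≠ 0 := by omega
        have i1 : 2^i ≤ Mx e / 4 := by rw [hi]; exact Nat.pow_log_le_self 2 hM4
        have i2 : Mx e / 4 < 2^(i+1) := by rw [hi]; exact Nat.lt_pow_succ_log_self (by norm_num) _
        rw [pow_succ] at i2
        have i3 : i < 2^i := Nat.lt_two_pow_self
        have hiI : i ∈ I := by
          rw [hI, Finset.mem_filter, Finset.mem_range]
          constructor <;> omega
        have hti : t ∈ A1 i := by
          rw [hA1, ← hge]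
          exact Finset.mem_image_of_mem _ (Finset.mem_filter.2 ⟨he, by omega, by omega, by omega,
            by omega⟩)
        have := Finset.single_le_sum (f := fun i => if t ∈ A1 i then w t else 0) (s := I)
          (fun i _ => n0 _) hiI
        simp only [if_pos hti] at this
        have a0 := n0 (t ∈ A0)
        have a2 := n0 (t ∈ A2)
        linarith
  have hle : ∀ A : Finset ι, ∑ t ∈ E.image g, (if t ∈ A then w t else 0) ≤ ∑ t ∈ A, w t := by
    intro A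
    rw [← Finset.sum_filter]
    apply Finset.sum_le_sum_of_subset_of_nonneg
    · intro t ht
      exact (Finset.mem_filter.1 ht).2
    · intro t _ _
      exact hw t
  have hs : ∑ t ∈ E.image g, w t ≤ ∑ t ∈ A0, w t + ∑ i ∈ I, ∑ t ∈ A1 i, w t + ∑ t ∈ A2, w t := by
    refine (Finset.sum_le_sum hpt).trans ?_
    rw [Finset.sum_add_distrib, Finset.sum_add_distrib, Finset.sum_comm]
    refine add_le_add (add_le_add (hle A0) ?_) (hle A2)
    exact Finset.sum_le_sum fun i _ => hle (A1 i)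
  have hr' : (1:ℝ) ≤ r := by exact_mod_cast hr
  have hrp : (0:ℝ) < r := by linarith
  have hsqr : 0 < Real.sqrt r := Real.sqrt_pos.mpr hrp
  have hmid : ∀ i ∈ I, ∑ t ∈ A1 i, w t ≤ K1 * (X * (Real.sqrt ((2:ℝ)^i) / Real.sqrt r)) := by
    intro i hi
    rw [hI, Finset.mem_filter] at hi
    by_cases h8 : 8 * r ≤ 2^i
    · have h3 := h1 (2^i) Nat.one_le_two_pow h8 hi.2
      rw [hA1]
      refine h3.trans (le_of_eq ?_)
      rw [← Real.sqrt_div (by positivity)]
      push_cast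
      rfl
    · have he : A1 i = ∅ := by
        rw [hA1]
        simp only [Finset.image_eq_empty]
        apply Finset.filter_eq_empty_iff.mpr
        intro e _ h
        omega
      rw [he, Finset.sum_empty]
      positivity
  have hmid2 : ∑ i ∈ I, ∑ t ∈ A1 i, w t ≤ K1 * (X * Real.sqrt (n / r)) := by
    refine (Finset.sum_le_sum hmid).trans ?_
    rw [← Finset.mul_sum, ← Finset.mul_sum, ← Finset.sum_div, Real.sqrt_div (by positivity), hI]
    apply mul_le_mul_of_nonneg_left _ hK1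
    apply mul_le_mul_of_nonneg_left _ hX
    exact div_le_div_of_nonneg_right (geo_sqrt2 n) hsqr.le
  have hone : 1 ≤ Real.sqrt (n / r) := by
    rw [Real.one_le_sqrt, le_div_iff₀ hrp, one_mul]
    exact_mod_cast hrn
  have h0' : ∑ t ∈ A0, w t ≤ K0 * (X * Real.sqrt (n / r)) := by
    rw [hA0]
    refine h0.trans ?_
    apply mul_le_mul_of_nonneg_left _ hK0
    exact le_mul_of_one_le_right hX hone
  rw [← hA2] at h2
  linarith

end Pool.Agent.H983.BD
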