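import Pool.Agent.H983.BD.Count

/-!
The sum of the pivotal probabilities over the domain.
-/

set_option maxHeartbeats 1000000

namespace Pool.Agent.H983.BD

open H974 H31K Finset

theorem piv_leD {q : ℝ} (h0 : 0 ≤ q) (h1 : q ≤ 1) {S : Finset Edg} {n : ℕ} {e : Edg}
    (he : e ∈ S) : q * Pr (fun _ => q) (S.erase e) (PivA n e) ≤ Pr (fun _ => q) S (Arm n) := by
  have ok := okq h0 h1
  have hS : S = insert e (S.erase e) := (Finset.insert_erase he).symm
  have e1 : Pr (fun _ => q) S (Arm n) = q * Ex (fun _ => q) (S.erase e)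
      (fun F => ind (Arm n (insert e F))) + (1 - q) * Ex (fun _ => q) (S.erase e)
        (fun F => ind (Arm n F)) := by
    unfold Pr
    conv_lhs => rw [hS]
    rw [Ex_insert _ (Finset.notMem_erase _ _)]
  have h2 : Pr (fun _ => q) (S.erase e) (PivA n e) ≤
      Ex (fun _ => q) (S.erase e) (fun F => ind (Arm n (insert e F))) :=
    Ex_mono ok (fun F _ => ind_mono (fun h => h.1))
  have h3 : 0 ≤ Ex (fun _ => q) (S.erase e) (fun F => ind (Arm n F)) :=
    Ex_nonneg ok (fun _ _ => ind_nonneg _)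
  have h4 : 0 ≤ 1 - q := by linarith
  have h5 := mul_le_mul_of_nonneg_left h2 h0
  have h6 := mul_nonneg h4 h3
  rw [e1]
  linarith

theorem PtD_nonneg {τ : Bool} {q κ : ℝ} {n r : ℕ} (hW : H12S.Win q κ n) (t : ℤ × ℤ) :
    0 ≤ PtD τ q n r t := Pr_nonneg (okWin hW) _ _

/-- Class 0: few boxes. -/
theorem few_boxes {τ : Bool} {q κ : ℝ} {n r : ℕ} (hW : H12S.Win q κ n) (hr : 1 ≤ r) :
    ∑ t ∈ ((ED τ n r).filter (fun e => Mx e < 64 * r)).image (tt r), PtD τ q n r t ≤
      4489 * (1 / κ^8 * ad τ q n) := by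
  have ha : 0 ≤ ad τ q n := ad_nonneg τ (by linarith [hW.lo]) (by linarith [hW.hi]) n
  obtain ⟨hk1, hk4, -⟩ := kap_b hW
  obtain ⟨T, hT⟩ : ∃ T, T = ((ED τ n r).filter (fun e => Mx e < 64 * r)).image (tt r) :=
    ⟨_, rfl⟩
  rw [← hT]
  have h2 : (0:ℤ) < 2 * r := by positivity
  have hsub : T ⊆ Finset.Icc (-33) 33 ×ˢ Finset.Icc (-33) 33 := by
    rw [hT, Finset.image_subset_iff]
    intro e he
    have hM := (Finset.mem_filter.1 he).2
    unfold Mx at hM
    have q1 : ∀ z : ℤ, z.natAbs < 64 * r → z / (2 * r) ∈ Finset.Icc (-33 : ℤ) 33 := by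
      intro z hz
      rw [Finset.mem_Icc]
      constructor
      · rw [Int.le_ediv_iff_mul_le h2]
        omega
      · have : z / (2 * r) < 34 := by
          rw [Int.ediv_lt_iff_lt_mul h2]
          omega
        omega
    rw [Finset.mem_product]
    exact ⟨q1 _ (by omega), q1 _ (by omega)⟩
  have hcard := card_boxes (c := 67) hsub (by norm_num)
  have h3 : ∀ t ∈ T, PtD τ q n r t ≤ 1 / κ^8 * ad τ q n := by
    intro t ht
    rw [hT, Finset.mem_image] at ht
    obtain ⟨e, he, rfl⟩ := ht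
    have he' := (Finset.mem_filter.1 he).1
    refine (piv_le_armD hW (tt_admD hr he') (tt_BgD hr he')).trans ?_
    exact mul_le_mul_of_nonneg_right hk4 ha
  have hX : 0 ≤ 1 / κ^8 * ad τ q n := mul_nonneg (by linarith) ha
  calc ∑ t ∈ T, PtD τ q n r t ≤ T.card • (1 / κ^8 * ad τ q n) :=
        Finset.sum_le_card_nsmul _ _ _ h3
    _ = T.card * (1 / κ^8 * ad τ q n) := by rw [nsmul_eq_mul]
    _ ≤ 4489 * (1 / κ^8 * ad τ q n) := by
        apply mul_le_mul_of_nonneg_right _ hX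
        push_cast at hcard
        linarith

theorem card_AB {α β : Type*} [DecidableEq α] [DecidableEq β] {A B : Finset ℤ} {a b : ℕ}
    (hA : A.card ≤ a) (hB : B.card ≤ b) : (A ×ˢ B ∪ B ×ˢ A).card ≤ 2 * a * b := by
  refine (Finset.card_union_le _ _).trans ?_
  rw [Finset.card_product, Finset.card_product]
  have h1 := Nat.mul_le_mul hA hB
  have h2 := Nat.mul_le_mul hB hA
  nlinarith

/-- Class 1: the middle annuli. -/
theorem mid_boxes {τ : Bool} {q κ : ℝ} {n r s : ℕ} (hW : H12S.Win q κ n) (hr : 1 ≤ r)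
    (h8 : 8 * r ≤ s) (h32 : 32 * s ≤ n) :
    ∑ t ∈ ((ED τ n r).filter (fun e => 64 * r ≤ Mx e ∧ 8 * Mx e ≤ n ∧ 4 * s ≤ Mx e ∧
        Mx e < 8 * s)).image (tt r), PtD τ q n r t ≤
      221 * (1 / κ^8 * ad τ q n * Real.sqrt (s / r)) := by
  have ha : 0 ≤ ad τ q n := ad_nonneg τ (by linarith [hW.lo]) (by linarith [hW.hi]) n
  obtain ⟨hk1, hk4, hk7⟩ := kap_b hW
  have hr' : (1:ℝ) ≤ r := by exact_mod_cast hr
  have h8' : (8:ℝ) * r ≤ s := by exact_mod_cast h8
  have hrz : (1:ℤ) ≤ r := by exact_mod_cast hr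
  have h8z : (8:ℤ) * r ≤ s := by exact_mod_cast h8
  have h32z : (32:ℤ) * s ≤ n := by exact_mod_cast h32
  obtain ⟨T, hT0⟩ : ∃ T, T = ((ED τ n r).filter (fun e => 64 * r ≤ Mx e ∧ 8 * Mx e ≤ n ∧
    4 * s ≤ Mx e ∧ Mx e < 8 * s)).image (tt r) := ⟨_, rfl⟩
  rw [← hT0]
  have hT : ∀ t ∈ T, ∃ e ∈ ED τ n r, 8 * Mx e ≤ n ∧ 4 * s ≤ Mx e ∧ Mx e < 8 * s ∧
      tt r e = t := by
    intro t ht
    rw [hT0, Finset.mem_image] at ht
    obtain ⟨e, he, rfl⟩ := ht
    rw [Finset.mem_filter] at he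
    exact ⟨e, he.1, he.2.2.1, he.2.2.2.1, he.2.2.2.2, rfl⟩
  have hadm : ∀ t ∈ T, Adm n (2 * r * t.1 + r) (2 * r * t.2 + r) r := by
    intro t ht
    obtain ⟨e, he, -, -, -, rfl⟩ := hT t ht
    exact tt_admD hr he
  have hB : ∀ t ∈ T, Bg (2 * r * t.1 + r) (2 * r * t.2 + r) r ⊆ DE τ (16 * s) := by
    intro t ht
    obtain ⟨e, he, hM1, hM2, hM3, rfl⟩ := hT t ht
    obtain ⟨⟨h1, h2⟩, h3, h4⟩ := tt_spec hr e
    unfold ED at he
    rw [Finset.mem_filter] at he
    obtain ⟨hb, h5, h6⟩ := he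
    have hc := dom_coord hb
    unfold dt at h5
    unfold Mx at hM1 hM2 hM3
    generalize 2 * (r:ℤ) * (tt r e).1 + r = c1 at *
    generalize 2 * (r:ℤ) * (tt r e).2 + r = c2 at *
    unfold Bg DE
    cases τ <;> simp only [lf, if_true, if_false, Bool.false_eq_true] at * <;>
      apply RE_subset <;> push_cast <;> omega
  have hdis : ∀ t ∈ T, Disjoint (Bg (2 * r * t.1 + r) (2 * r * t.2 + r) r)
      (boxE (2 * s)) := by
    intro t ht
    obtain ⟨e, he, hM1, hM2, hM3, rfl⟩ := hT t ht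
    obtain ⟨⟨h1, h2⟩, h3, h4⟩ := tt_spec hr e
    rw [Finset.disjoint_left]
    intro g hg hg'
    unfold Bg at hg
    unfold boxE at hg'
    unfold Mx at hM1 hM2 hM3
    generalize 2 * (r:ℤ) * (tt r e).1 + r = c1 at *
    generalize 2 * (r:ℤ) * (tt r e).2 + r = c2 at *
    obtain ⟨x, y, _ | _⟩ := g
    · rw [mem_RE_false] at hg hg'
      push_cast at hg'
      omega
    · rw [mem_RE_true] at hg hg'
      push_cast at hg'
      omega
  have hcard : (T.card : ℝ) ≤ 165 * (s / r) := by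
    obtain ⟨K, hK⟩ : ∃ K : ℤ, K = (8 * s : ℤ) / (2 * r) := ⟨_, rfl⟩
    have h2 : (0:ℤ) < 2 * r := by positivity
    have k1 := Int.mul_ediv_add_emod (8 * s:ℤ) (2 * r)
    have k2 := Int.emod_nonneg (8 * s:ℤ) h2.ne'
    have k3 := Int.emod_lt_of_pos (8 * s:ℤ) h2
    rw [← hK] at k1
    have hK0 : 0 ≤ K := by rw [hK]; exact Int.ediv_nonneg (by positivity) (by positivity)
    have hAc : (Finset.Icc (0:ℤ) 9).card ≤ 10 := by
      rw [Int.card_Icc]; omega
    have hBc : (Finset.Icc (-K - 1) K).card ≤ (2 * K + 2).toNat := by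
      rw [Int.card_Icc]; omega
    have hsub : T ⊆ Finset.Icc (0:ℤ) 9 ×ˢ Finset.Icc (-K - 1) K ∪
        Finset.Icc (-K - 1) K ×ˢ Finset.Icc (0:ℤ) 9 := by
      intro t ht
      obtain ⟨e, he, hM1, hM2, hM3, rfl⟩ := hT t ht
      unfold ED at he
      rw [Finset.mem_filter] at he
      obtain ⟨hb, h5, h6⟩ := he
      have hc := dom_coord hb
      unfold dt at h6
      unfold Mx at hM1 hM2 hM3
      unfold tt
      have q1 : ∀ z : ℤ, -(8 * s:ℤ) ≤ z → z ≤ 8 * s → z / (2 * r) ∈ Finset.Icc (-K - 1) K := by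
        intro z hz1 hz2
        rw [Finset.mem_Icc]
        constructor
        · rw [Int.le_ediv_iff_mul_le h2]
          nlinarith
        · rw [hK]; exact Int.ediv_le_ediv h2 hz2
      have q2 : ∀ z : ℤ, 0 ≤ z → z < 18 * r → z / (2 * r) ∈ Finset.Icc (0:ℤ) 9 := by
        intro z hz1 hz2
        rw [Finset.mem_Icc]
        constructor
        · exact Int.ediv_nonneg hz1 h2.le
        · have : z / (2 * r) < 10 := by
            rw [Int.ediv_lt_iff_lt_mul h2]
            linarith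
          omega
      rw [Finset.mem_union, Finset.mem_product, Finset.mem_product]
      have hor : (0 ≤ e.1 ∧ e.1 < 18 * r) ∨ e.2.1 < 18 * r := by
        cases τ <;> simp only [lf, if_true, if_false, Bool.false_eq_true] at * <;> omega
      rcases hor with h | h
      · left; exact ⟨q2 _ h.1 h.2, q1 _ (by omega) (by omega)⟩
      · right; exact ⟨q1 _ (by omega) (by omega), q2 _ hc.2.2.1 h⟩
    have hc1 : T.card ≤ 2 * 10 * (2 * K + 2).toNat :=
      (Finset.card_le_card hsub).trans (card_AB (α := ℤ) (β := ℤ) hAc hBc)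
    have hc2 : (T.card : ℝ) ≤ 20 * (2 * K + 2) := by
      have h5 : (((2 * K + 2).toNat : ℤ) : ℝ) = 2 * K + 2 := by
        rw [Int.toNat_of_nonneg (by omega)]
        push_cast
        ring
      have h6 : (T.card : ℝ) ≤ 20 * (((2 * K + 2).toNat : ℤ) : ℝ) := by
        exact_mod_cast hc1
      rw [h5] at h6
      exact h6
    have hK2 : (K:ℝ) * (2 * r) ≤ 8 * s := by
      have : K * (2 * r) ≤ 8 * s := by nlinarith
      exact_mod_cast this
    have hrpos : (0:ℝ) < r := by linarith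
    have h7 : (K:ℝ) ≤ 4 * (s / r) := by
      rw [← mul_div_assoc, le_div_iff₀ (by positivity)]
      linarith
    have h8 : (8:ℝ) ≤ s / r := by
      rw [le_div_iff₀ hrpos]; exact h8'
    linarith
  have hb := blkD (τ := τ) hW (r := r) (r1 := 2 * s) (r2 := 16 * s) (by omega) (by omega) T hadm
    hB hdis
  have hm := mid_arms (τ := τ) hW (s := s) (by omega) h32
  have hN : (0:ℝ) ≤ 165 * (s / r) := by positivity
  have hs1 := sq_aux (N := 165 * (s / r)) hk7 hW.kpos hN ha hm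
  have hs2 : Real.sqrt (165 * ((s:ℝ) / r)) ≤ 13 * Real.sqrt (s / r) := by
    rw [Real.sqrt_mul (by norm_num)]
    refine mul_le_mul_of_nonneg_right ?_ (Real.sqrt_nonneg _)
    rw [Real.sqrt_le_left (by norm_num)]
    norm_num
  have hbd := bd_nonneg τ (q := q) (by linarith [hW.lo]) (by linarith [hW.hi]) (16 * s) n
  have had := ad_nonneg τ (q := q) (by linarith [hW.lo]) (by linarith [hW.hi]) (2 * s)
  have hmono : Real.sqrt (T.card * (ad τ q n * (ad τ q (2 * s) * bd τ q (16 * s) n))) ≤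
      Real.sqrt (165 * (s / r) * (ad τ q n * (ad τ q (2 * s) * bd τ q (16 * s) n))) :=
    Real.sqrt_le_sqrt (mul_le_mul_of_nonneg_right hcard (mul_nonneg ha (mul_nonneg had hbd)))
  have hk : 0 < κ := hW.kpos
  have hrw : 17 / κ^4 * (1 / κ^4 * (13 * Real.sqrt (s / r) * ad τ q n)) =
      221 * (1 / κ^8 * ad τ q n * Real.sqrt (s / r)) := by
    field_simp
    ring
  calc ∑ t ∈ T, PtD τ q n r t
      ≤ 17 / κ^4 * Real.sqrt (T.card * (ad τ q n * (ad τ q (2 * s) * bd τ q (16 * s) n))) := hb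
    _ ≤ 17 / κ^4 * (1 / κ^4 * (13 * Real.sqrt (s / r) * ad τ q n)) := by
        refine mul_le_mul_of_nonneg_left ?_ (by positivity)
        refine (hmono.trans hs1).trans ?_
        refine mul_le_mul_of_nonneg_left ?_ (by positivity)
        exact mul_le_mul_of_nonneg_right hs2 ha
    _ = _ := hrw

/-- Class 2: the outermost annulus. -/
theorem out_boxes {τ : Bool} {q κ : ℝ} {n r : ℕ} (hn : 64 ≤ n) (hW : H12S.Win q κ n)
    (hr : 1 ≤ r) :
    ∑ t ∈ ((ED τ n r).filter (fun e => 64 * r ≤ Mx e ∧ n < 8 * Mx e)).image (tt r),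
      PtD τ q n r t ≤ 136 * (1 / κ^8 * ad τ q n * Real.sqrt (n / r)) := by
  have ha : 0 ≤ ad τ q n := ad_nonneg τ (by linarith [hW.lo]) (by linarith [hW.hi]) n
  have hk : 0 < κ := hW.kpos
  by_cases h64 : n < 64 * r
  · have : (ED τ n r).filter (fun e => 64 * r ≤ Mx e ∧ n < 8 * Mx e) = ∅ := by
      apply Finset.filter_eq_empty_iff.mpr
      intro e he h
      have := Mx_le (DE_sub τ n (Finset.mem_filter.1 he).1)
      omega
    rw [this, Finset.image_empty, Finset.sum_empty]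
    positivity
  rw [not_lt] at h64
  obtain ⟨hk1, hk4, hk7⟩ := kap_b hW
  have hr' : (1:ℝ) ≤ r := by exact_mod_cast hr
  have h8' : (64:ℝ) * r ≤ n := by exact_mod_cast h64
  have hrz : (1:ℤ) ≤ r := by exact_mod_cast hr
  have h8z : (64:ℤ) * r ≤ n := by exact_mod_cast h64
  obtain ⟨T, hT0⟩ : ∃ T, T = ((ED τ n r).filter (fun e => 64 * r ≤ Mx e ∧
    n < 8 * Mx e)).image (tt r) := ⟨_, rfl⟩
  rw [← hT0]
  have hT : ∀ t ∈ T, ∃ e ∈ ED τ n r, 64 * r ≤ Mx e ∧ n < 8 * Mx e ∧ tt r e = t := by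
    intro t ht
    rw [hT0, Finset.mem_image] at ht
    obtain ⟨e, he, rfl⟩ := ht
    rw [Finset.mem_filter] at he
    exact ⟨e, he.1, he.2.1, he.2.2, rfl⟩
  have hadm : ∀ t ∈ T, Adm n (2 * r * t.1 + r) (2 * r * t.2 + r) r := by
    intro t ht
    obtain ⟨e, he, -, -, rfl⟩ := hT t ht
    exact tt_admD hr he
  have hB : ∀ t ∈ T, Bg (2 * r * t.1 + r) (2 * r * t.2 + r) r ⊆ DE τ n := by
    intro t ht
    obtain ⟨e, he, -, -, rfl⟩ := hT t ht
    exact tt_BgD hr he
  have hdis : ∀ t ∈ T, Disjoint (Bg (2 * r * t.1 + r) (2 * r * t.2 + r) r)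
      (boxE (2 * (n / 20))) := by
    intro t ht
    obtain ⟨e, he, hM1, hM2, rfl⟩ := hT t ht
    obtain ⟨⟨h1, h2⟩, h3, h4⟩ := tt_spec hr e
    rw [Finset.disjoint_left]
    intro g hg hg'
    unfold Bg at hg
    unfold boxE at hg'
    unfold Mx at hM1 hM2
    generalize 2 * (r:ℤ) * (tt r e).1 + r = c1 at *
    generalize 2 * (r:ℤ) * (tt r e).2 + r = c2 at *
    obtain ⟨x, y, _ | _⟩ := g
    · rw [mem_RE_false] at hg hg'
      push_cast at hg'
      omega
    · rw [mem_RE_true] at hg hg'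
      push_cast at hg'
      omega
  have hcard : (T.card : ℝ) ≤ 64 * (n / r) := by
    obtain ⟨K, hK⟩ : ∃ K : ℤ, K = (n : ℤ) / (2 * r) := ⟨_, rfl⟩
    have h2 : (0:ℤ) < 2 * r := by positivity
    have k1 := Int.mul_ediv_add_emod (n:ℤ) (2 * r)
    have k2 := Int.emod_nonneg (n:ℤ) h2.ne'
    have k3 := Int.emod_lt_of_pos (n:ℤ) h2
    rw [← hK] at k1
    have hK0 : 0 ≤ K := by rw [hK]; exact Int.ediv_nonneg (by positivity) (by positivity)
    obtain ⟨A, hA⟩ : ∃ A, A = (Finset.Icc (0:ℤ) 9 ∪ Finset.Icc (K - 9) K) ∪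
      Finset.Icc (-K - 1) (-K + 9) := ⟨_, rfl⟩
    have hAc : A.card ≤ 31 := by
      rw [hA]
      refine (Finset.card_union_le _ _).trans ?_
      have := Finset.card_union_le (Finset.Icc (0:ℤ) 9) (Finset.Icc (K - 9) K)
      rw [Int.card_Icc, Int.card_Icc] at this
      rw [Int.card_Icc]
      omega
    have hBc : (Finset.Icc (-K - 1) K).card ≤ (2 * K + 2).toNat := by
      rw [Int.card_Icc]; omega
    have hsub : T ⊆ A ×ˢ Finset.Icc (-K - 1) K ∪ Finset.Icc (-K - 1) K ×ˢ A := by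
      intro t ht
      obtain ⟨e, he, hM1, hM2, rfl⟩ := hT t ht
      unfold ED at he
      rw [Finset.mem_filter] at he
      obtain ⟨hb, h5, h6⟩ := he
      have hc := dom_coord hb
      have hl := lf_bd τ (n := (n:ℤ)) (by positivity)
      unfold dt at h6
      unfold Mx at hM1 hM2
      unfold tt
      have q1 : ∀ z : ℤ, -(n:ℤ) ≤ z → z ≤ n → z / (2 * r) ∈ Finset.Icc (-K - 1) K := by
        intro z hz1 hz2
        rw [Finset.mem_Icc]
        constructor
        · rw [Int.le_ediv_iff_mul_le h2]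
          nlinarith
        · rw [hK]; exact Int.ediv_le_ediv h2 hz2
      have q2 : ∀ z : ℤ, 0 ≤ z → z < 18 * r → z / (2 * r) ∈ A := by
        intro z hz1 hz2
        rw [hA, Finset.mem_union, Finset.mem_union]
        left; left
        rw [Finset.mem_Icc]
        constructor
        · exact Int.ediv_nonneg hz1 h2.le
        · have : z / (2 * r) < 10 := by
            rw [Int.ediv_lt_iff_lt_mul h2]
            linarith
          omega
      have q3 : ∀ z : ℤ, z ≤ n → (n:ℤ) - z < 18 * r → z / (2 * r) ∈ A := by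
        intro z hz1 hz2
        rw [hA, Finset.mem_union, Finset.mem_union]
        left; right
        rw [Finset.mem_Icc]
        constructor
        · rw [Int.le_ediv_iff_mul_le h2]
          nlinarith
        · rw [hK]; exact Int.ediv_le_ediv h2 hz1
      have q4 : ∀ z : ℤ, -(n:ℤ) ≤ z → z + n < 18 * r → z / (2 * r) ∈ A := by
        intro z hz1 hz2
        rw [hA, Finset.mem_union]
        right
        rw [Finset.mem_Icc]
        constructor
        · rw [Int.le_ediv_iff_mul_le h2]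
          nlinarith
        · have : z / (2 * r) < -K + 10 := by
            rw [Int.ediv_lt_iff_lt_mul h2]
            nlinarith
          omega
      rw [Finset.mem_union, Finset.mem_product, Finset.mem_product]
      have hor : (0 ≤ e.1 ∧ e.1 < 18 * r) ∨ (e.1 + n < 18 * r) ∨ ((n:ℤ) - e.1 < 18 * r) ∨
          e.2.1 < 18 * r ∨ (n:ℤ) - e.2.1 < 18 * r := by
        cases τ <;> simp only [lf, if_true, if_false, Bool.false_eq_true] at * <;> omega
      rcases hor with h | h | h | h | h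
      · left; exact ⟨q2 _ h.1 h.2, q1 _ (by omega) (by omega)⟩
      · left; exact ⟨q4 _ (by omega) h, q1 _ (by omega) (by omega)⟩
      · left; exact ⟨q3 _ (by omega) h, q1 _ (by omega) (by omega)⟩
      · right; exact ⟨q1 _ (by omega) (by omega), q2 _ hc.2.2.1 h⟩
      · right; exact ⟨q1 _ (by omega) (by omega), q3 _ (by omega) h⟩
    have hc1 : T.card ≤ 2 * 31 * (2 * K + 2).toNat :=
      (Finset.card_le_card hsub).trans (card_AB (α := ℤ) (β := ℤ) hAc hBc)
    have hc2 : (T.card : ℝ) ≤ 62 * (2 * K + 2) := by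
      have h5 : (((2 * K + 2).toNat : ℤ) : ℝ) = 2 * K + 2 := by
        rw [Int.toNat_of_nonneg (by omega)]
        push_cast
        ring
      have h6 : (T.card : ℝ) ≤ 62 * (((2 * K + 2).toNat : ℤ) : ℝ) := by
        exact_mod_cast hc1
      rw [h5] at h6
      exact h6
    have hK2 : (K:ℝ) * (2 * r) ≤ n := by
      have : K * (2 * r) ≤ n := by nlinarith
      exact_mod_cast this
    have hrpos : (0:ℝ) < r := by linarith
    have h7 : (K:ℝ) ≤ n / r / 2 := by
      rw [div_div, le_div_iff₀ (by positivity)]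
      linarith
    have h8 : (64:ℝ) ≤ n / r := by
      rw [le_div_iff₀ hrpos]; exact h8'
    linarith
  have hb := blkD (τ := τ) hW (r := r) (r1 := 2 * (n / 20)) (r2 := n) (by omega) le_rfl T hadm
    hB hdis
  have hm := outer_arms (τ := τ) hW hn
  have hN : (0:ℝ) ≤ 64 * (n / r) := by positivity
  have hs1 := sq_aux (N := 64 * (n / r)) hk7 hW.kpos hN ha hm
  have hs2 : Real.sqrt (64 * ((n:ℝ) / r)) ≤ 8 * Real.sqrt (n / r) := by
    rw [Real.sqrt_mul (by norm_num)]
    refine mul_le_mul_of_nonneg_right ?_ (Real.sqrt_nonneg _)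
    rw [Real.sqrt_le_left (by norm_num)]
    norm_num
  have hbd := bd_nonneg τ (q := q) (by linarith [hW.lo]) (by linarith [hW.hi]) n n
  have had := ad_nonneg τ (q := q) (by linarith [hW.lo]) (by linarith [hW.hi]) (2 * (n / 20))
  have hmono : Real.sqrt (T.card * (ad τ q n * (ad τ q (2 * (n / 20)) * bd τ q n n))) ≤
      Real.sqrt (64 * (n / r) * (ad τ q n * (ad τ q (2 * (n / 20)) * bd τ q n n))) :=
    Real.sqrt_le_sqrt (mul_le_mul_of_nonneg_right hcard (mul_nonneg ha (mul_nonneg had hbd)))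
  have hrw : 17 / κ^4 * (1 / κ^4 * (8 * Real.sqrt (n / r) * ad τ q n)) =
      136 * (1 / κ^8 * ad τ q n * Real.sqrt (n / r)) := by
    field_simp
    ring
  calc ∑ t ∈ T, PtD τ q n r t
      ≤ 17 / κ^4 * Real.sqrt (T.card * (ad τ q n * (ad τ q (2 * (n / 20)) * bd τ q n n))) := hb
    _ ≤ 17 / κ^4 * (1 / κ^4 * (8 * Real.sqrt (n / r) * ad τ q n)) := by
        refine mul_le_mul_of_nonneg_left ?_ (by positivity)
        refine (hmono.trans hs1).trans ?_
        refine mul_le_mul_of_nonneg_left ?_ (by positivity)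
        exact mul_le_mul_of_nonneg_right hs2 ha
    _ = _ := hrw

/-- All boxes of one scale. -/
theorem all_boxes {τ : Bool} {q κ : ℝ} {n r : ℕ} (hn : 64 ≤ n) (hW : H12S.Win q κ n)
    (hr : 1 ≤ r) (hrn : r ≤ n) :
    ∑ t ∈ (ED τ n r).image (tt r), PtD τ q n r t ≤
      5000 * (1 / κ^8 * ad τ q n * Real.sqrt (n / r)) := by
  have ha : 0 ≤ ad τ q n := ad_nonneg τ (by linarith [hW.lo]) (by linarith [hW.hi]) n
  have hk : 0 < κ := hW.kpos
  have hX : 0 ≤ 1 / κ^8 * ad τ q n := by positivity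
  have h := layers (ED τ n r) (tt r) (PtD τ q n r) (PtD_nonneg hW) (n := n) (r := r) hr
    (X := 1 / κ^8 * ad τ q n) (K0 := 4489) (K1 := 221) (K2 := 136) hX (by norm_num) (by norm_num)
    hrn (few_boxes hW hr) (fun s _ h8 h32 => mid_boxes hW hr h8 h32) (out_boxes hn hW hr)
  refine h.trans ?_
  have : 0 ≤ 1 / κ^8 * ad τ q n * Real.sqrt (n / r) := mul_nonneg hX (Real.sqrt_nonneg _)
  linarith

end Pool.Agent.H983.BD
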