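import Pool.Agent.H983.BD.Count2

/-!
The edges near the boundary and the total sum.
-/

set_option maxHeartbeats 1000000

namespace Pool.Agent.H983.BD

open H974 H31K Finset

/-- The probability that an edge is pivotal for the arm event of the domain. -/
noncomputable def fD (τ : Bool) (q : ℝ) (n : ℕ) (e : Edg) : ℝ :=
  Pr (fun _ => q) ((DE τ n).erase e) (PivA n e)

/-- The expected number of pivotal edges. -/
noncomputable def dAd (τ : Bool) (q : ℝ) (n : ℕ) : ℝ := ∑ e ∈ DE τ n, fD τ q n e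

theorem fD_nonneg (τ : Bool) {q : ℝ} (h0 : 0 ≤ q) (h1 : q ≤ 1) (n : ℕ) (e : Edg) :
    0 ≤ fD τ q n e := Pr_nonneg (okq h0 h1) _ _

/-- The edges near the boundary. -/
noncomputable def EB (τ : Bool) (n : ℕ) : Finset Edg := (DE τ n).filter (fun e => dt τ n e < 9)

theorem few_edges {τ : Bool} {q κ : ℝ} {n : ℕ} (hW : H12S.Win q κ n) :
    ∑ e ∈ ((EB τ n).filter (fun e => Mx e < 64 * 1)).image id, fD τ q n e ≤
      129032 * (1 / κ^8 * ad τ q n) := by
  have ha : 0 ≤ ad τ q n := ad_nonneg τ (by linarith [hW.lo]) (by linarith [hW.hi]) n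
  have hq0 : 0 ≤ q := by linarith [hW.lo]
  have hq1 : q ≤ 1 := by linarith [hW.hi]
  obtain ⟨hk1, hk4, -⟩ := kap_b hW
  rw [Finset.image_id]
  obtain ⟨T, hT⟩ : ∃ T, T = (EB τ n).filter (fun e => Mx e < 64 * 1) := ⟨_, rfl⟩
  rw [← hT]
  have h1 : ∀ e ∈ T, fD τ q n e ≤ 4 * (1 / κ^8 * ad τ q n) := by
    intro e he
    rw [hT, Finset.mem_filter] at he
    have he1 : e ∈ DE τ n := (Finset.mem_filter.1 he.1).1
    have h2 : q * fD τ q n e ≤ ad τ q n := piv_leD hq0 hq1 he1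
    have h3 := fD_nonneg τ hq0 hq1 n e
    have h4 := hW.lo
    have h5 : ad τ q n ≤ 1 / κ^8 * ad τ q n := le_mul_of_one_le_left ha hk1
    nlinarith
  have hcard : T.card ≤ 32258 := by
    have hsub : T ⊆ Finset.Icc (-63) 63 ×ˢ (Finset.Icc (-63) 63 ×ˢ Finset.univ) := by
      intro e he
      rw [hT, Finset.mem_filter] at he
      have hM := he.2
      unfold Mx at hM
      rw [Finset.mem_product, Finset.mem_product, Finset.mem_Icc, Finset.mem_Icc]
      refine ⟨⟨by omega, by omega⟩, ⟨by omega, by omega⟩, Finset.mem_univ _⟩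
    refine (Finset.card_le_card hsub).trans ?_
    rw [Finset.card_product, Finset.card_product, Int.card_Icc, Finset.card_univ,
      Fintype.card_bool]
    decide
  have hX : 0 ≤ 1 / κ^8 * ad τ q n := mul_nonneg (by linarith) ha
  calc ∑ e ∈ T, fD τ q n e ≤ T.card • (4 * (1 / κ^8 * ad τ q n)) :=
        Finset.sum_le_card_nsmul _ _ _ h1
    _ = T.card * (4 * (1 / κ^8 * ad τ q n)) := by rw [nsmul_eq_mul]
    _ ≤ 32258 * (4 * (1 / κ^8 * ad τ q n)) := by
        refine mul_le_mul_of_nonneg_right ?_ (by linarith)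
        exact_mod_cast hcard
    _ = _ := by ring

theorem card_ABe {A B : Finset ℤ} {a b : ℕ} (hA : A.card ≤ a) (hB : B.card ≤ b) :
    (A ×ˢ (B ×ˢ (Finset.univ : Finset Bool)) ∪ B ×ˢ (A ×ˢ (Finset.univ : Finset Bool))).card ≤
      4 * a * b := by
  refine (Finset.card_union_le _ _).trans ?_
  rw [Finset.card_product, Finset.card_product, Finset.card_product, Finset.card_product,
    Finset.card_univ, Fintype.card_bool]
  have h1 := Nat.mul_le_mul hA hB
  have h2 := Nat.mul_le_mul hB hA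
  nlinarith

theorem mid_edges {τ : Bool} {q κ : ℝ} {n s : ℕ} (hW : H12S.Win q κ n)
    (h8 : 8 * 1 ≤ s) (h32 : 32 * s ≤ n) :
    ∑ e ∈ ((EB τ n).filter (fun e => 64 * 1 ≤ Mx e ∧ 8 * Mx e ≤ n ∧ 4 * s ≤ Mx e ∧
        Mx e < 8 * s)).image id, fD τ q n e ≤
      75 * (1 / κ^8 * ad τ q n * Real.sqrt (s / (1:ℕ))) := by
  have ha : 0 ≤ ad τ q n := ad_nonneg τ (by linarith [hW.lo]) (by linarith [hW.hi]) n
  obtain ⟨hk1, hk4, hk7⟩ := kap_b hW
  have h8z : (8:ℤ) ≤ s := by exact_mod_cast h8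
  have h8r : (8:ℝ) ≤ s := by exact_mod_cast h8
  have h32z : (32:ℤ) * s ≤ n := by exact_mod_cast h32
  rw [Finset.image_id, Nat.cast_one, div_one]
  obtain ⟨T, hT0⟩ : ∃ T, T = (EB τ n).filter (fun e => 64 * 1 ≤ Mx e ∧ 8 * Mx e ≤ n ∧
    4 * s ≤ Mx e ∧ Mx e < 8 * s) := ⟨_, rfl⟩
  rw [← hT0]
  have hT : ∀ e ∈ T, (e ∈ DE τ n ∧ dt τ n e < 9) ∧ 8 * Mx e ≤ n ∧ 4 * s ≤ Mx e ∧
      Mx e < 8 * s := by
    intro e he
    rw [hT0, Finset.mem_filter] at he
    exact ⟨Finset.mem_filter.1 he.1, he.2.2.1, he.2.2.2.1, he.2.2.2.2⟩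
  have hsubT : T ⊆ DE τ (16 * s) \ boxE (2 * s) := by
    intro e he
    obtain ⟨⟨h1, -⟩, h2, h3, h4⟩ := hT e he
    rw [Finset.mem_sdiff]
    constructor
    · rw [← mem_DE_iff (mem_dom h1)]
      unfold Mx at h4
      unfold boxE
      obtain ⟨x, y, _ | _⟩ := e
      · rw [mem_RE_false]
        push_cast
        simp only at h4
        omega
      · rw [mem_RE_true]
        push_cast
        simp only at h4
        omega
    · intro h
      have := Mx_le h
      omega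
  have hcard : (T.card : ℝ) ≤ 612 * s := by
    have hAc : (Finset.Icc (0:ℤ) 8).card ≤ 9 := by
      rw [Int.card_Icc]; omega
    have hBc : (Finset.Icc (-(8 * s : ℤ)) (8 * s)).card ≤ 16 * s + 1 := by
      rw [Int.card_Icc]; omega
    have hsub2 : T ⊆ Finset.Icc (0:ℤ) 8 ×ˢ (Finset.Icc (-(8 * s : ℤ)) (8 * s) ×ˢ Finset.univ) ∪
        Finset.Icc (-(8 * s : ℤ)) (8 * s) ×ˢ (Finset.Icc (0:ℤ) 8 ×ˢ Finset.univ) := by
      intro e he
      obtain ⟨⟨h1, h1'⟩, h2, h3, h4⟩ := hT e he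
      have hc := dom_coord h1
      unfold dt at h1'
      unfold Mx at h2 h3 h4
      rw [Finset.mem_union, Finset.mem_product, Finset.mem_product, Finset.mem_product,
        Finset.mem_product, Finset.mem_Icc, Finset.mem_Icc, Finset.mem_Icc, Finset.mem_Icc]
      have hor : (0 ≤ e.1 ∧ e.1 ≤ 8) ∨ e.2.1 ≤ 8 := by
        cases τ <;> simp only [lf, if_true, if_false, Bool.false_eq_true] at * <;> omega
      rcases hor with h | h
      · left; exact ⟨h, ⟨by omega, by omega⟩, Finset.mem_univ _⟩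
      · right; exact ⟨⟨by omega, by omega⟩, ⟨hc.2.2.1, h⟩, Finset.mem_univ _⟩
    have hc1 : T.card ≤ 4 * 9 * (16 * s + 1) :=
      (Finset.card_le_card hsub2).trans (card_ABe hAc hBc)
    have hc2 : (T.card : ℝ) ≤ 4 * 9 * (16 * s + 1) := by exact_mod_cast hc1
    linarith
  have hb := blk_edgesD (τ := τ) hW.lo hW.hi (n := n) (r1 := 2 * s) (r2 := 16 * s) (by omega)
    (by omega) T hsubT
  have hm := mid_arms (τ := τ) hW (s := s) (by omega) h32
  have hN : (0:ℝ) ≤ 612 * s := by positivity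
  have hs1 := sq_aux (N := 612 * (s:ℝ)) hk7 hW.kpos hN ha hm
  have hs2 : Real.sqrt (612 * (s:ℝ)) ≤ 25 * Real.sqrt s := by
    rw [Real.sqrt_mul (by norm_num)]
    refine mul_le_mul_of_nonneg_right ?_ (Real.sqrt_nonneg _)
    rw [Real.sqrt_le_left (by norm_num)]
    norm_num
  have hbd := bd_nonneg τ (q := q) (by linarith [hW.lo]) (by linarith [hW.hi]) (16 * s) n
  have had := ad_nonneg τ (q := q) (by linarith [hW.lo]) (by linarith [hW.hi]) (2 * s)
  have hmono : Real.sqrt (T.card * (ad τ q n * (ad τ q (2 * s) * bd τ q (16 * s) n))) ≤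
      Real.sqrt (612 * s * (ad τ q n * (ad τ q (2 * s) * bd τ q (16 * s) n))) :=
    Real.sqrt_le_sqrt (mul_le_mul_of_nonneg_right hcard (mul_nonneg ha (mul_nonneg had hbd)))
  have hk : 0 < κ := hW.kpos
  have hZ : 0 ≤ Real.sqrt (s:ℝ) * ad τ q n := mul_nonneg (Real.sqrt_nonneg _) ha
  calc ∑ e ∈ T, fD τ q n e
      ≤ 3 * Real.sqrt (T.card * (ad τ q n * (ad τ q (2 * s) * bd τ q (16 * s) n))) := hb
    _ ≤ 3 * (1 / κ^4 * (25 * Real.sqrt s * ad τ q n)) := by
        refine mul_le_mul_of_nonneg_left ?_ (by norm_num)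
        refine (hmono.trans hs1).trans ?_
        refine mul_le_mul_of_nonneg_left ?_ (by positivity)
        exact mul_le_mul_of_nonneg_right hs2 ha
    _ = 75 * (1 / κ^4 * (Real.sqrt s * ad τ q n)) := by ring
    _ ≤ 75 * (1 / κ^8 * (Real.sqrt s * ad τ q n)) := by
        refine mul_le_mul_of_nonneg_left ?_ (by norm_num)
        exact mul_le_mul_of_nonneg_right hk4 hZ
    _ = _ := by ring

theorem out_edges {τ : Bool} {q κ : ℝ} {n : ℕ} (hn : 64 ≤ n) (hW : H12S.Win q κ n) :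
    ∑ e ∈ ((EB τ n).filter (fun e => 64 * 1 ≤ Mx e ∧ n < 8 * Mx e)).image id, fD τ q n e ≤
      54 * (1 / κ^8 * ad τ q n * Real.sqrt (n / (1:ℕ))) := by
  have ha : 0 ≤ ad τ q n := ad_nonneg τ (by linarith [hW.lo]) (by linarith [hW.hi]) n
  obtain ⟨hk1, hk4, hk7⟩ := kap_b hW
  have hnr : (64:ℝ) ≤ n := by exact_mod_cast hn
  rw [Finset.image_id, Nat.cast_one, div_one]
  obtain ⟨T, hT0⟩ : ∃ T, T = (EB τ n).filter (fun e => 64 * 1 ≤ Mx e ∧ n < 8 * Mx e) :=
    ⟨_, rfl⟩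
  rw [← hT0]
  have hT : ∀ e ∈ T, (e ∈ DE τ n ∧ dt τ n e < 9) ∧ n < 8 * Mx e := by
    intro e he
    rw [hT0, Finset.mem_filter] at he
    exact ⟨Finset.mem_filter.1 he.1, he.2.2⟩
  have hsubT : T ⊆ DE τ n \ boxE (2 * (n / 20)) := by
    intro e he
    obtain ⟨⟨h1, -⟩, h2⟩ := hT e he
    rw [Finset.mem_sdiff]
    refine ⟨h1, ?_⟩
    intro h
    have := Mx_le h
    omega
  have hcard : (T.card : ℝ) ≤ 324 * n := by
    obtain ⟨A, hA⟩ : ∃ A, A = (Finset.Icc (0:ℤ) 8 ∪ Finset.Icc ((n:ℤ) - 8) n) ∪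
      Finset.Icc (-(n:ℤ)) (-n + 8) := ⟨_, rfl⟩
    have hAc : A.card ≤ 27 := by
      rw [hA]
      refine (Finset.card_union_le _ _).trans ?_
      have := Finset.card_union_le (Finset.Icc (0:ℤ) 8) (Finset.Icc ((n:ℤ) - 8) n)
      rw [Int.card_Icc, Int.card_Icc] at this
      rw [Int.card_Icc]
      omega
    have hBc : (Finset.Icc (-(n:ℤ)) n).card ≤ 2 * n + 1 := by
      rw [Int.card_Icc]; omega
    have hsub2 : T ⊆ A ×ˢ (Finset.Icc (-(n:ℤ)) n ×ˢ Finset.univ) ∪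
        Finset.Icc (-(n:ℤ)) n ×ˢ (A ×ˢ Finset.univ) := by
      intro e he
      obtain ⟨⟨h1, h1'⟩, h2⟩ := hT e he
      have hc := dom_coord h1
      have hl := lf_bd τ (n := (n:ℤ)) (by positivity)
      unfold dt at h1'
      unfold Mx at h2
      rw [Finset.mem_union, Finset.mem_product, Finset.mem_product, Finset.mem_product,
        Finset.mem_product, hA, Finset.mem_union, Finset.mem_union, Finset.mem_union,
        Finset.mem_union, Finset.mem_Icc, Finset.mem_Icc, Finset.mem_Icc, Finset.mem_Icc,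
        Finset.mem_Icc, Finset.mem_Icc, Finset.mem_Icc, Finset.mem_Icc]
      have hor : ((0 ≤ e.1 ∧ e.1 ≤ 8) ∨ e.1 + n ≤ 8 ∨ (n:ℤ) - e.1 ≤ 8) ∨
          (e.2.1 ≤ 8 ∨ (n:ℤ) - e.2.1 ≤ 8) := by
        cases τ <;> simp only [lf, if_true, if_false, Bool.false_eq_true] at * <;> omega
      rcases hor with h | h
      · left; exact ⟨by omega, ⟨by omega, by omega⟩, Finset.mem_univ _⟩
      · right; exact ⟨⟨by omega, by omega⟩, by omega, Finset.mem_univ _⟩
    have hc1 : T.card ≤ 4 * 27 * (2 * n + 1) :=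
      (Finset.card_le_card hsub2).trans (card_ABe hAc hBc)
    have hc2 : (T.card : ℝ) ≤ 4 * 27 * (2 * n + 1) := by exact_mod_cast hc1
    linarith
  have hb := blk_edgesD (τ := τ) hW.lo hW.hi (n := n) (r1 := 2 * (n / 20)) (r2 := n) (by omega)
    le_rfl T hsubT
  have hm := outer_arms (τ := τ) hW hn
  have hN : (0:ℝ) ≤ 324 * n := by positivity
  have hs1 := sq_aux (N := 324 * (n:ℝ)) hk7 hW.kpos hN ha hm
  have hs2 : Real.sqrt (324 * (n:ℝ)) ≤ 18 * Real.sqrt n := by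
    rw [Real.sqrt_mul (by norm_num)]
    refine mul_le_mul_of_nonneg_right ?_ (Real.sqrt_nonneg _)
    rw [Real.sqrt_le_left (by norm_num)]
    norm_num
  have hbd := bd_nonneg τ (q := q) (by linarith [hW.lo]) (by linarith [hW.hi]) n n
  have had := ad_nonneg τ (q := q) (by linarith [hW.lo]) (by linarith [hW.hi]) (2 * (n / 20))
  have hmono : Real.sqrt (T.card * (ad τ q n * (ad τ q (2 * (n / 20)) * bd τ q n n))) ≤
      Real.sqrt (324 * n * (ad τ q n * (ad τ q (2 * (n / 20)) * bd τ q n n))) :=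
    Real.sqrt_le_sqrt (mul_le_mul_of_nonneg_right hcard (mul_nonneg ha (mul_nonneg had hbd)))
  have hk : 0 < κ := hW.kpos
  have hZ : 0 ≤ Real.sqrt (n:ℝ) * ad τ q n := mul_nonneg (Real.sqrt_nonneg _) ha
  calc ∑ e ∈ T, fD τ q n e
      ≤ 3 * Real.sqrt (T.card * (ad τ q n * (ad τ q (2 * (n / 20)) * bd τ q n n))) := hb
    _ ≤ 3 * (1 / κ^4 * (18 * Real.sqrt n * ad τ q n)) := by
        refine mul_le_mul_of_nonneg_left ?_ (by norm_num)
        refine (hmono.trans hs1).trans ?_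
        refine mul_le_mul_of_nonneg_left ?_ (by positivity)
        exact mul_le_mul_of_nonneg_right hs2 ha
    _ = 54 * (1 / κ^4 * (Real.sqrt n * ad τ q n)) := by ring
    _ ≤ 54 * (1 / κ^8 * (Real.sqrt n * ad τ q n)) := by
        refine mul_le_mul_of_nonneg_left ?_ (by norm_num)
        exact mul_le_mul_of_nonneg_right hk4 hZ
    _ = _ := by ring

/-- The edges near the boundary. -/
theorem all_edges {τ : Bool} {q κ : ℝ} {n : ℕ} (hn : 64 ≤ n) (hW : H12S.Win q κ n) :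
    ∑ e ∈ EB τ n, fD τ q n e ≤ 130000 * (1 / κ^8 * ad τ q n * Real.sqrt n) := by
  have ha : 0 ≤ ad τ q n := ad_nonneg τ (by linarith [hW.lo]) (by linarith [hW.hi]) n
  have hk : 0 < κ := hW.kpos
  have hX : 0 ≤ 1 / κ^8 * ad τ q n := by positivity
  have h := layers (EB τ n) id (fD τ q n)
    (fun e => fD_nonneg τ (by linarith [hW.lo]) (by linarith [hW.hi]) n e) (n := n) (r := 1)
    le_rfl (X := 1 / κ^8 * ad τ q n) (K0 := 129032) (K1 := 75) (K2 := 54) hX (by norm_num)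
    (by norm_num) (by omega) (few_edges hW) (fun s _ h8 h32 => mid_edges hW h8 h32)
    (out_edges hn hW)
  rw [Finset.image_id, Nat.cast_one, div_one] at h
  refine h.trans ?_
  have : 0 ≤ 1 / κ^8 * ad τ q n * Real.sqrt n := mul_nonneg hX (Real.sqrt_nonneg _)
  linarith

/-- The expected number of pivotal edges. -/
theorem dAd_le : ∃ C : ℝ, 0 < C ∧ ∀ (τ : Bool) (q κ : ℝ) (n : ℕ), 64 ≤ n → H12S.Win q κ n →
    dAd τ q n ≤ C / κ^8 * ad τ q n * (Real.sqrt n +
      ∑ k ∈ (range n).filter (fun k => 9 * 2^k ≤ n),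
        Real.sqrt (n / (2:ℝ)^k) * ((4:ℝ)^k * H12S.a4 q (3 * 2^k))) := by
  classical
  refine ⟨130000, by norm_num, ?_⟩
  intro τ q κ n hn hW
  have hq0 : 0 ≤ q := by linarith [hW.lo]
  have hq1 : q ≤ 1 := by linarith [hW.hi]
  have hf0 := fD_nonneg τ hq0 hq1 n
  obtain ⟨Ks, hKs⟩ : ∃ Ks, Ks = (range n).filter (fun k => 9 * 2^k ≤ n) := ⟨_, rfl⟩
  rw [← hKs]
  have h1 : dAd τ q n ≤ ∑ e ∈ EB τ n, fD τ q n e + ∑ k ∈ Ks, ∑ e ∈ ED τ n (2^k), fD τ q n e := by
    have hpt : ∀ e ∈ DE τ n, fD τ q n e ≤ (if dt τ n e < 9 then fD τ q n e else 0) +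
        ∑ k ∈ Ks, (if 9 * 2^k ≤ dt τ n e ∧ dt τ n e < 18 * 2^k then fD τ q n e else 0) := by
      intro e he
      have hc := dom_coord he
      have hl := lf_bd τ (n := (n:ℤ)) (by positivity)
      have hdn : dt τ n e ≤ n := by
        unfold dt
        omega
      have hs0 : 0 ≤ ∑ k ∈ Ks, (if 9 * 2^k ≤ dt τ n e ∧ dt τ n e < 18 * 2^k then
          fD τ q n e else 0) := by
        refine Finset.sum_nonneg fun k _ => ?_
        split_ifs
        · exact hf0 e
        · exact le_rfl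
      by_cases h9 : dt τ n e < 9
      · rw [if_pos h9]
        linarith
      · rw [if_neg h9, zero_add]
        obtain ⟨k, hk⟩ : ∃ k, k = Nat.log 2 (dt τ n e / 9) := ⟨_, rfl⟩
        have hD9' : dt τ n e / 9 ≠ 0 := by omega
        have hk1 : 2^k ≤ dt τ n e / 9 := by rw [hk]; exact Nat.pow_log_le_self 2 hD9'
        have hk2 : dt τ n e / 9 < 2^(k+1) := by
          rw [hk]; exact Nat.lt_pow_succ_log_self (by norm_num) _
        rw [pow_succ] at hk2
        have hk5 : k < 2^k := Nat.lt_two_pow_self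
        have hkK : k ∈ Ks := by
          rw [hKs, Finset.mem_filter, Finset.mem_range]
          constructor <;> omega
        have hcond : 9 * 2^k ≤ dt τ n e ∧ dt τ n e < 18 * 2^k := by
          constructor <;> omega
        have := Finset.single_le_sum (f := fun k => (if 9 * 2^k ≤ dt τ n e ∧
          dt τ n e < 18 * 2^k then fD τ q n e else 0)) (s := Ks) (by
            intro k _
            split_ifs
            · exact hf0 e
            · exact le_rfl) hkK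
        refine le_trans (le_of_eq ?_) this
        rw [if_pos hcond]
    refine (Finset.sum_le_sum hpt).trans (le_of_eq ?_)
    rw [Finset.sum_add_distrib, ← Finset.sum_filter, Finset.sum_comm]
    congr 1
    refine Finset.sum_congr rfl fun k _ => ?_
    rw [← Finset.sum_filter]
    rfl
  have hA := all_edges (τ := τ) hn hW
  have hC : ∑ k ∈ Ks, ∑ e ∈ ED τ n (2^k), fD τ q n e ≤ 90000 * (1 / κ^8 * ad τ q n *
      ∑ k ∈ Ks, Real.sqrt (n / (2:ℝ)^k) * ((4:ℝ)^k * H12S.a4 q (3 * 2^k))) := by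
    rw [Finset.mul_sum, Finset.mul_sum]
    refine Finset.sum_le_sum fun k hk => ?_
    rw [hKs, Finset.mem_filter] at hk
    have hr : 1 ≤ 2^k := Nat.one_le_two_pow
    have h3 := sum_ED_le (τ := τ) (r := 2^k) hW hr
    have h4 := all_boxes (τ := τ) hn hW hr (by omega)
    have h5 : 0 ≤ 18 * (((2^k : ℕ) : ℝ))^2 * H12S.a4 q (3 * 2^k) :=
      mul_nonneg (by positivity) (a4_nonneg hW _)
    refine h3.trans ((mul_le_mul_of_nonneg_left h4 h5).trans (le_of_eq ?_))
    have h6 : (((2^k : ℕ) : ℝ)) = (2:ℝ)^k := by push_cast; rfl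
    have h7 : ((2:ℝ)^k)^2 = (4:ℝ)^k := by
      rw [← pow_mul, mul_comm, pow_mul]; norm_num
    rw [h6, h7]
    ring
  have ha : 0 ≤ ad τ q n := ad_nonneg τ hq0 hq1 n
  have hk : 0 < κ := hW.kpos
  have hX : 0 ≤ 1 / κ^8 * ad τ q n := by positivity
  have hS : 0 ≤ ∑ k ∈ Ks, Real.sqrt (n / (2:ℝ)^k) * ((4:ℝ)^k * H12S.a4 q (3 * 2^k)) :=
    Finset.sum_nonneg fun k _ => mul_nonneg (Real.sqrt_nonneg _)
      (mul_nonneg (by positivity) (a4_nonneg hW _))
  have h8 : 0 ≤ 1 / κ^8 * ad τ q n * Real.sqrt n := mul_nonneg hX (Real.sqrt_nonneg _)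
  have h9 := mul_nonneg hX hS
  have h10 : 130000 / κ^8 * ad τ q n * (Real.sqrt n +
      ∑ k ∈ Ks, Real.sqrt (n / (2:ℝ)^k) * ((4:ℝ)^k * H12S.a4 q (3 * 2^k))) =
      130000 * (1 / κ^8 * ad τ q n * Real.sqrt n) + 130000 * (1 / κ^8 * ad τ q n *
        ∑ k ∈ Ks, Real.sqrt (n / (2:ℝ)^k) * ((4:ℝ)^k * H12S.a4 q (3 * 2^k))) := by ring
  rw [h10]
  linarith

end Pool.Agent.H983.BD
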