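import Pool.Agent.H983.BD.MeanUp
import Pool.Graph.R_seed8.W424.NC.TwoLow

/-!
Connections inside the half-plane and the quarter-plane: lower bounds by gluing.
-/

set_option maxHeartbeats 1000000

namespace Pool.Agent.H983.BD

open H974 H31K Finset MeasureTheory Pool.Agent.W424.NC

/-- A vertex in the bulk is connected to the origin. -/
theorem tp_bulk {τ : Bool} {m : ℕ} {F : Finset Edg} (hF : F ⊆ DE τ m) {s : ℕ} (hs : 1 ≤ s)
    {x1 x2 : ℤ} (h1 : 2 * (s:ℤ) ≤ x1) (h1' : x1 ≤ 3 * s) (h2 : 2 * (s:ℤ) ≤ x2)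
    (h2' : x2 ≤ 3 * s) (hA0 : Arm (8 * s) F) (hC0 : HC τ ((4 * s : ℕ) : ℤ) ((8 * s : ℕ) : ℤ) F)
    (hAx : Arm (2 * s) ((trl (-x1) (-x2)).mp F))
    (hCx : Circ s ((2 * s : ℕ) : ℤ) ((trl (-x1) (-x2)).mp F))
    (hV : TBc (x1 - s) (x1 + s) 0 ((8 * s : ℕ) : ℤ) F) : TP (x1, x2) F := by
  obtain ⟨z, hz⟩ := hc_meet hF (r := ((4 * s : ℕ) : ℤ)) (R := ((8 * s : ℕ) : ℤ)) (by positivity)
    (by push_cast; omega) hC0
  obtain ⟨v0, hv0, hr0⟩ := hA0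
  have m1 := hz (0, 0) v0 (by unfold inR; push_cast; omega) hv0.2 hr0
  obtain ⟨w, w', hw, hw', hq⟩ := hV
  have hs' : (1:ℤ) ≤ s := by exact_mod_cast hs
  obtain ⟨z1, z2, l1, l2, l3, l4⟩ := sub_TB (a := x1 - s) (b := x1 + s) (c := x2)
    (d := ((8 * s : ℕ) : ℤ)) (by push_cast; omega)
    (by rintro x y ⟨-, h⟩ _ _; simp only [mem_coe, mem_TBE_false] at h; omega)
    (by rintro x y ⟨-, h⟩ _ _; simp only [mem_coe, mem_TBE_true] at h; omega) hq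
    (by simp only; omega) le_rfl
  have q3 : Reach (↑F : Set Edg) (x1, x2) (z1, x2) :=
    hitx hs hAx hCx (u1 := z1) (u2 := x2) (v1 := z2) (v2 := ((8 * s : ℕ) : ℤ))
      (by unfold inR; simp only; omega) (by push_cast; omega)
      (l3.mono (by rintro e ⟨⟨h7, -⟩, -⟩; exact h7))
  have q4 : Reach (↑F : Set Edg) (w, 0) (z1, x2) := l4.mono Set.inter_subset_left
  have hsub : TBE (x1 - s) (x1 + s) 0 ((8 * s : ℕ) : ℤ) ⊆
      RE (-((8 * s : ℕ) : ℤ)) ((8 * s : ℕ) : ℤ) (-((8 * s : ℕ) : ℤ)) ((8 * s : ℕ) : ℤ) := by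
    refine TBE_subset_RE.trans ?_
    apply RE_subset <;> push_cast <;> omega
  have q5 := hz (w, 0) (w', ((8 * s : ℕ) : ℤ)) (by unfold inR; push_cast; omega)
    (Or.inr (Or.inr (Or.inr rfl)))
    (hq.mono (Set.inter_subset_inter_right _ (by exact_mod_cast hsub)))
  have q6 : Reach (↑F : Set Edg) (0, 0) z := m1.mono Set.inter_subset_left
  have q7 : Reach (↑F : Set Edg) (w, 0) z := q5.mono Set.inter_subset_left
  exact q6.trans (q7.symm.trans (q4.trans q3.symm))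

/-- An arm and a half-circuit catch every path from the inner box to the boundary. -/
theorem hitH {m : ℕ} {F : Finset Edg} (hF : F ⊆ DE false m) {r : ℕ} (hr : 1 ≤ r)
    (hA : Arm (2 * r) F) (hC : HC false r ((2 * r : ℕ) : ℤ) F) {u v : Vtx}
    (hu : inR (-r) r (-r) r u)
    (hv : v.1 ≤ -((2 * r : ℕ) : ℤ) ∨ ((2 * r : ℕ) : ℤ) ≤ v.1 ∨ v.2 ≤ -((2 * r : ℕ) : ℤ) ∨
      ((2 * r : ℕ) : ℤ) ≤ v.2)
    (h : Reach (↑F : Set Edg) u v) : Reach (↑F : Set Edg) (0, 0) u := by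
  obtain ⟨z, hz⟩ := hc_meet hF (r := (r:ℤ)) (R := ((2 * r : ℕ) : ℤ)) (by positivity)
    (by push_cast; omega) hC
  obtain ⟨w0, hw0, hrw⟩ := hA
  have m1 := hz (0, 0) w0 (by unfold inR; simp) hw0.2 hrw
  obtain ⟨w, k1, k2, k3⟩ := first_exit (a := -((2 * r : ℕ) : ℤ)) (b := ((2 * r : ℕ) : ℤ))
    (c := -((2 * r : ℕ) : ℤ)) (d := ((2 * r : ℕ) : ℤ))
    (by unfold inR at hu ⊢; push_cast; omega) h hv
  have m2 := hz u w hu k2 k3
  exact (m1.mono Set.inter_subset_left).trans (m2.mono Set.inter_subset_left).symm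

theorem hitK {m : ℕ} {F : Finset Edg} {k : ℤ} (hF : (trl (-k) 0).mp F ⊆ DE false m) {r : ℕ}
    (hr : 1 ≤ r) (hA : Arm (2 * r) ((trl (-k) 0).mp F))
    (hC : HC false r ((2 * r : ℕ) : ℤ) ((trl (-k) 0).mp F)) {u1 u2 v1 v2 : ℤ}
    (hu : inR (k - r) (k + r) (-r) r (u1, u2))
    (hv : v1 ≤ k - ((2 * r : ℕ) : ℤ) ∨ k + ((2 * r : ℕ) : ℤ) ≤ v1)
    (h : Reach (↑F : Set Edg) (u1, u2) (v1, v2)) :
    Reach (↑F : Set Edg) (k, 0) (u1, u2) := by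
  have h1 := (trl (-k) 0).reach h
  rw [← LSym.coe_mp, trl_ψ, trl_ψ] at h1
  have h2 := hitH hF hr hA hC (u := (u1 + -k, u2 + 0)) (v := (v1 + -k, v2 + 0))
    (by unfold inR at hu ⊢; simp only at hu ⊢; omega) (by simp only; omega) h1
  have h3 := (trl (- -k) (-0)).reach h2
  rw [← LSym.coe_mp, trl_trl, trl_ψ, trl_ψ] at h3
  simpa using h3

/-- A vertex on the horizontal side is connected to the origin. -/
theorem tp_line {τ : Bool} {F : Finset Edg} {s : ℕ} (hs : 1 ≤ s) (hF : F ⊆ DE τ (8 * s))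
    {k : ℤ} (h1 : 2 * (s:ℤ) ≤ k) (h1' : k ≤ 3 * s) (hA0 : Arm (8 * s) F)
    (hC0 : HC τ ((4 * s : ℕ) : ℤ) ((8 * s : ℕ) : ℤ) F)
    (hAx : Arm (2 * s) ((trl (-k) 0).mp F))
    (hCx : HC false s ((2 * s : ℕ) : ℤ) ((trl (-k) 0).mp F))
    (hL : LRc 0 ((8 * s : ℕ) : ℤ) 0 s F) : TP (k, 0) F := by
  have hs' : (1:ℤ) ≤ s := by exact_mod_cast hs
  have hF' : (trl (-k) 0).mp F ⊆ DE false (16 * s) := by
    have h2 : (trl (-k) 0).mp (DE τ (8 * s)) ⊆ DE false (16 * s) := by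
      unfold DE
      rw [trl_RE]
      have l := lf_bd τ (n := ((8 * s : ℕ) : ℤ)) (by positivity)
      simp only [lf, Bool.false_eq_true, if_false] at l ⊢
      apply RE_subset <;> push_cast at l ⊢ <;> omega
    exact ((trl (-k) 0).mp_mono hF).trans h2
  obtain ⟨z, hz⟩ := hc_meet hF (r := ((4 * s : ℕ) : ℤ)) (R := ((8 * s : ℕ) : ℤ)) (by positivity)
    (by push_cast; omega) hC0
  obtain ⟨v0, hv0, hr0⟩ := hA0
  have m1 := hz (0, 0) v0 (by unfold inR; push_cast; omega) hv0.2 hr0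
  obtain ⟨y, y', hy, hy', hq⟩ := hL
  obtain ⟨z1, z2, l1, l2, l3, l4⟩ := sub_LR (a := k) (b := ((8 * s : ℕ) : ℤ)) (c := 0)
    (d := (s:ℤ)) (by push_cast; omega)
    (by rintro x y ⟨-, h⟩ _ _; simp only [mem_coe, mem_LRE_true] at h; omega)
    (by rintro x y ⟨-, h⟩ _ _; simp only [mem_coe, mem_LRE_false] at h; omega) hq
    (by simp only; omega) le_rfl
  have q3 : Reach (↑F : Set Edg) (k, 0) (k, z1) :=
    hitK hF' hs hAx hCx (u1 := k) (u2 := z1) (v1 := ((8 * s : ℕ) : ℤ)) (v2 := z2)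
      (by unfold inR; simp only; omega) (by push_cast; omega)
      (l3.mono (by rintro e ⟨⟨h7, -⟩, -⟩; exact h7))
  have q4 : Reach (↑F : Set Edg) (0, y) (k, z1) := l4.mono Set.inter_subset_left
  have hsub : LRE 0 ((8 * s : ℕ) : ℤ) 0 s ⊆
      RE (-((8 * s : ℕ) : ℤ)) ((8 * s : ℕ) : ℤ) (-((8 * s : ℕ) : ℤ)) ((8 * s : ℕ) : ℤ) := by
    refine LRE_subset_RE.trans ?_
    apply RE_subset <;> push_cast <;> omega
  have q5 := hz (0, y) (((8 * s : ℕ) : ℤ), y') (by unfold inR; push_cast; omega)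
    (Or.inr (Or.inl rfl))
    (hq.mono (Set.inter_subset_inter_right _ (by exact_mod_cast hsub)))
  have q6 : Reach (↑F : Set Edg) (0, 0) z := m1.mono Set.inter_subset_left
  have q7 : Reach (↑F : Set Edg) (0, y) z := q5.mono Set.inter_subset_left
  exact q6.trans (q7.symm.trans (q4.trans q3.symm))

theorem HC_incr (S : Finset Edg) (τ : Bool) (r R : ℤ) : IncrE S (HC τ r R) :=
  fun _ _ h _ hF => hF.mono h

theorem pr_HC_scale (τ : Bool) {q κ : ℝ} {s : ℕ} (hW : H12S.Win q κ (4 * s)) (hs : 1 ≤ s)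
    {S : Finset Edg} (hS : DE τ (8 * s) ⊆ S) :
    κ^3 ≤ Pr (fun _ => q) S (HC τ ((4 * s : ℕ) : ℤ) ((8 * s : ℕ) : ℤ)) := by
  have h0 : 0 ≤ q := by linarith [hW.lo]
  have h1 : q ≤ 1 := by linarith [hW.hi]
  refine le_trans ?_ (pr_HC τ h0 h1 (r := ((4 * s : ℕ) : ℤ)) (R := ((8 * s : ℕ) : ℤ))
    (by positivity) (by push_cast; omega) hS)
  apply pow_le_pow_left₀ hW.kpos.le
  refine (hW.pri (4 * s) (by omega) le_rfl).trans ?_
  apply hh_mono h0 h1 <;> push_cast <;> omega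

/-- Lower bound for the connection to a vertex in the bulk. -/
theorem pr_bulk (τ : Bool) {q κ : ℝ} {s : ℕ} (hW : H12S.Win q κ (4 * s)) (hs : 1 ≤ s)
    {x1 x2 : ℤ} (h1 : 2 * (s:ℤ) ≤ x1) (h1' : x1 ≤ 3 * s) (h2 : 2 * (s:ℤ) ≤ x2)
    (h2' : x2 ≤ 3 * s) : κ^8 * (ad τ q (8 * s) * arm q (2 * s)) ≤
      Pr (fun _ => q) (DE τ (8 * s)) (TP (x1, x2)) := by
  have h0 : 0 ≤ q := by linarith [hW.lo]
  have h1q : q ≤ 1 := by linarith [hW.hi]
  have ok := okq h0 h1q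
  have hκ := hW.kpos
  have hs' : (1:ℤ) ≤ s := by exact_mod_cast hs
  obtain ⟨S, hS⟩ : ∃ S : Finset Edg, S = DE τ (8 * s) := ⟨_, rfl⟩
  have l2 := (lf_bd τ (n := ((8 * s : ℕ) : ℤ)) (by positivity)).2
  have e1 : Pr (fun _ => q) S (Arm (8 * s)) = ad τ q (8 * s) := by rw [hS]; rfl
  have e2 := pr_HC_scale τ hW hs (S := S) (by rw [hS])
  have sB : RE (x1 - ((2 * s : ℕ) : ℤ)) (x1 + ((2 * s : ℕ) : ℤ)) (x2 - ((2 * s : ℕ) : ℤ))
      (x2 + ((2 * s : ℕ) : ℤ)) ⊆ S := by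
    rw [hS]
    unfold DE
    apply RE_subset <;> push_cast at l2 ⊢ <;> omega
  have e3 := pr_shift_arm q sB
  have e4 : κ^4 ≤ Pr (fun _ => q) S
      (fun F => Circ s ((2 * s : ℕ) : ℤ) ((trl (-x1) (-x2)).mp F)) := by
    refine le_trans ?_ (pr_shift_circ h0 h1q (show s ≤ 2 * s by omega) sB)
    apply pow_le_pow_left₀ hκ.le
    refine (hW.pri s hs (by omega)).trans ?_
    apply hh_mono h0 h1q <;> push_cast <;> omega
  have e5 : κ ≤ Pr (fun _ => q) S (TBc (x1 - s) (x1 + s) 0 ((8 * s : ℕ) : ℤ)) := by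
    rw [pr_TBc q (by
      rw [hS]
      refine TBE_subset_RE.trans ?_
      unfold DE
      apply RE_subset <;> push_cast at l2 ⊢ <;> omega)]
    refine (hW.pri (2 * s) (by omega) (by omega)).trans ?_
    apply hh_mono h0 h1q <;> push_cast <;> omega
  have i1 := Pr_harris ok (S := S) (A := Arm (8 * s))
    (B := HC τ ((4 * s : ℕ) : ℤ) ((8 * s : ℕ) : ℤ)) (Arm_incr S _) (HC_incr S _ _ _)
  have i2 := Pr_harris ok (S := S) (A := fun F => Arm (2 * s) ((trl (-x1) (-x2)).mp F))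
    (B := fun F => Circ s ((2 * s : ℕ) : ℤ) ((trl (-x1) (-x2)).mp F))
    (fun F G h _ hF => hF.mono (LSym.mp_mono _ h)) (fun F G h _ hF => hF.mono (LSym.mp_mono _ h))
  have i3 := Pr_harris ok (S := S)
    (A := fun F => Arm (2 * s) ((trl (-x1) (-x2)).mp F) ∧
      Circ s ((2 * s : ℕ) : ℤ) ((trl (-x1) (-x2)).mp F))
    (B := TBc (x1 - s) (x1 + s) 0 ((8 * s : ℕ) : ℤ))
    (fun F G h _ hF => ⟨hF.1.mono (LSym.mp_mono _ h), hF.2.mono (LSym.mp_mono _ h)⟩)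
    (TBc_incr S _ _ _ _)
  have i4 := Pr_harris ok (S := S)
    (A := fun F => Arm (8 * s) F ∧ HC τ ((4 * s : ℕ) : ℤ) ((8 * s : ℕ) : ℤ) F)
    (B := fun F => (Arm (2 * s) ((trl (-x1) (-x2)).mp F) ∧
      Circ s ((2 * s : ℕ) : ℤ) ((trl (-x1) (-x2)).mp F)) ∧
      TBc (x1 - s) (x1 + s) 0 ((8 * s : ℕ) : ℤ) F)
    (fun F G h _ hF => ⟨hF.1.mono h, hF.2.mono h⟩)
    (fun F G h _ hF => ⟨⟨hF.1.1.mono (LSym.mp_mono _ h), hF.1.2.mono (LSym.mp_mono _ h)⟩,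
      hF.2.mono h⟩)
  have i5 : Pr (fun _ => q) S (fun F =>
      (Arm (8 * s) F ∧ HC τ ((4 * s : ℕ) : ℤ) ((8 * s : ℕ) : ℤ) F) ∧
      ((Arm (2 * s) ((trl (-x1) (-x2)).mp F) ∧
      Circ s ((2 * s : ℕ) : ℤ) ((trl (-x1) (-x2)).mp F)) ∧
      TBc (x1 - s) (x1 + s) 0 ((8 * s : ℕ) : ℤ) F)) ≤ Pr (fun _ => q) S (TP (x1, x2)) := by
    apply Pr_mono ok
    rintro F hF ⟨⟨k1, k2⟩, ⟨k3, k4⟩, k5⟩
    rw [hS] at hF
    exact tp_bulk hF hs h1 h1' h2 h2' k1 k2 k3 k4 k5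
  rw [e1] at i1
  rw [e3] at i2
  have a0 : 0 ≤ ad τ q (8 * s) := ad_nonneg τ h0 h1q _
  have a1 : 0 ≤ arm q (2 * s) := arm_nonneg h0 h1q _
  have j1 : ad τ q (8 * s) * κ^3 ≤ _ := (mul_le_mul_of_nonneg_left e2 a0).trans i1
  have j2 : arm q (2 * s) * κ^4 ≤ _ := (mul_le_mul_of_nonneg_left e4 a1).trans i2
  have j3 : (arm q (2 * s) * κ^4) * κ ≤ _ :=
    (mul_le_mul j2 e5 hκ.le ((by positivity : 0 ≤ arm q (2 * s) * κ^4).trans j2)).trans i3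
  have j4 : (ad τ q (8 * s) * κ^3) * ((arm q (2 * s) * κ^4) * κ) ≤ _ :=
    (mul_le_mul j1 j3 (by positivity) ((by positivity : 0 ≤ ad τ q (8 * s) * κ^3).trans j1)).trans
      i4
  rw [← hS]
  calc κ^8 * (ad τ q (8 * s) * arm q (2 * s)) =
        (ad τ q (8 * s) * κ^3) * ((arm q (2 * s) * κ^4) * κ) := by ring
    _ ≤ _ := j4
    _ ≤ _ := i5

/-- Lower bound for the connection to a vertex on the horizontal side. -/
theorem pr_line (τ : Bool) {q κ : ℝ} {s : ℕ} (hW : H12S.Win q κ (4 * s)) (hs : 1 ≤ s)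
    {k : ℤ} (h1 : 2 * (s:ℤ) ≤ k) (h1' : k ≤ 3 * s) :
    κ^7 * (ad τ q (8 * s) * ad false q (2 * s)) ≤
      Pr (fun _ => q) (DE τ (8 * s)) (TP (k, 0)) := by
  have h0 : 0 ≤ q := by linarith [hW.lo]
  have h1q : q ≤ 1 := by linarith [hW.hi]
  have ok := okq h0 h1q
  have hκ := hW.kpos
  have hs' : (1:ℤ) ≤ s := by exact_mod_cast hs
  obtain ⟨S, hS⟩ : ∃ S : Finset Edg, S = DE τ (8 * s) := ⟨_, rfl⟩
  have l2 := (lf_bd τ (n := ((8 * s : ℕ) : ℤ)) (by positivity)).2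
  have e1 : Pr (fun _ => q) S (Arm (8 * s)) = ad τ q (8 * s) := by rw [hS]; rfl
  have e2 := pr_HC_scale τ hW hs (S := S) (by rw [hS])
  have sB : DE false (2 * s) ⊆ (trl (-k) 0).mp S := by
    have h2 : (trl (-k) 0).mp (RE (k - ((2 * s : ℕ) : ℤ)) (k + ((2 * s : ℕ) : ℤ)) 0
        ((2 * s : ℕ) : ℤ)) = DE false (2 * s) := by
      rw [trl_RE]
      unfold DE
      simp only [lf, Bool.false_eq_true, if_false]
      congr 1 <;> ring
    rw [← h2]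
    apply LSym.mp_mono
    rw [hS]
    unfold DE
    apply RE_subset <;> push_cast at l2 ⊢ <;> omega
  have e3 : ad false q (2 * s) ≤ Pr (fun _ => q) S
      (fun F => Arm (2 * s) ((trl (-k) 0).mp F)) := by
    rw [← LSym.pr]
    unfold ad
    exact Pr_mono_set ok sB (Arm_incr _ _)
  have e4 : κ^3 ≤ Pr (fun _ => q) S
      (fun F => HC false s ((2 * s : ℕ) : ℤ) ((trl (-k) 0).mp F)) := by
    rw [← LSym.pr]
    refine le_trans ?_ (pr_HC false h0 h1q (r := s) (R := ((2 * s : ℕ) : ℤ))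
      (by positivity) (by push_cast; omega) sB)
    apply pow_le_pow_left₀ hκ.le
    refine (hW.pri s hs (by omega)).trans ?_
    apply hh_mono h0 h1q <;> push_cast <;> omega
  have e5 : κ ≤ Pr (fun _ => q) S (LRc 0 ((8 * s : ℕ) : ℤ) 0 s) := by
    rw [pr_LRc q (by
      rw [hS]
      refine LRE_subset_RE.trans ?_
      unfold DE
      apply RE_subset <;> push_cast at l2 ⊢ <;> omega)]
    refine (hW.pri s hs (by omega)).trans ?_
    apply hh_mono h0 h1q <;> push_cast <;> omega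
  have i1 := Pr_harris ok (S := S) (A := Arm (8 * s))
    (B := HC τ ((4 * s : ℕ) : ℤ) ((8 * s : ℕ) : ℤ)) (Arm_incr S _) (HC_incr S _ _ _)
  have i2 := Pr_harris ok (S := S) (A := fun F => Arm (2 * s) ((trl (-k) 0).mp F))
    (B := fun F => HC false s ((2 * s : ℕ) : ℤ) ((trl (-k) 0).mp F))
    (fun F G h _ hF => hF.mono (LSym.mp_mono _ h)) (fun F G h _ hF => hF.mono (LSym.mp_mono _ h))
  have i3 := Pr_harris ok (S := S)
    (A := fun F => Arm (2 * s) ((trl (-k) 0).mp F) ∧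
      HC false s ((2 * s : ℕ) : ℤ) ((trl (-k) 0).mp F))
    (B := LRc 0 ((8 * s : ℕ) : ℤ) 0 s)
    (fun F G h _ hF => ⟨hF.1.mono (LSym.mp_mono _ h), hF.2.mono (LSym.mp_mono _ h)⟩)
    (LRc_incr S _ _ _ _)
  have i4 := Pr_harris ok (S := S)
    (A := fun F => Arm (8 * s) F ∧ HC τ ((4 * s : ℕ) : ℤ) ((8 * s : ℕ) : ℤ) F)
    (B := fun F => (Arm (2 * s) ((trl (-k) 0).mp F) ∧
      HC false s ((2 * s : ℕ) : ℤ) ((trl (-k) 0).mp F)) ∧ LRc 0 ((8 * s : ℕ) : ℤ) 0 s F)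
    (fun F G h _ hF => ⟨hF.1.mono h, hF.2.mono h⟩)
    (fun F G h _ hF => ⟨⟨hF.1.1.mono (LSym.mp_mono _ h), hF.1.2.mono (LSym.mp_mono _ h)⟩,
      hF.2.mono h⟩)
  have i5 : Pr (fun _ => q) S (fun F =>
      (Arm (8 * s) F ∧ HC τ ((4 * s : ℕ) : ℤ) ((8 * s : ℕ) : ℤ) F) ∧
      ((Arm (2 * s) ((trl (-k) 0).mp F) ∧
      HC false s ((2 * s : ℕ) : ℤ) ((trl (-k) 0).mp F)) ∧
      LRc 0 ((8 * s : ℕ) : ℤ) 0 s F)) ≤ Pr (fun _ => q) S (TP (k, 0)) := by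
    apply Pr_mono ok
    rintro F hF ⟨⟨k1, k2⟩, ⟨k3, k4⟩, k5⟩
    rw [hS] at hF
    exact tp_line hs hF h1 h1' k1 k2 k3 k4 k5
  rw [e1] at i1
  have a0 : 0 ≤ ad τ q (8 * s) := ad_nonneg τ h0 h1q _
  have a1 : 0 ≤ ad false q (2 * s) := ad_nonneg false h0 h1q _
  have j1 : ad τ q (8 * s) * κ^3 ≤ _ := (mul_le_mul_of_nonneg_left e2 a0).trans i1
  have j2 : ad false q (2 * s) * κ^3 ≤ _ :=
    (mul_le_mul e3 e4 (by positivity) (a1.trans e3)).trans i2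
  have j3 : (ad false q (2 * s) * κ^3) * κ ≤ _ :=
    (mul_le_mul j2 e5 hκ.le ((by positivity : 0 ≤ ad false q (2 * s) * κ^3).trans j2)).trans i3
  have j4 : (ad τ q (8 * s) * κ^3) * ((ad false q (2 * s) * κ^3) * κ) ≤ _ :=
    (mul_le_mul j1 j3 (by positivity) ((by positivity : 0 ≤ ad τ q (8 * s) * κ^3).trans j1)).trans
      i4
  rw [← hS]
  calc κ^7 * (ad τ q (8 * s) * ad false q (2 * s)) =
        (ad τ q (8 * s) * κ^3) * ((ad false q (2 * s) * κ^3) * κ) := by ring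
    _ ≤ _ := j4
    _ ≤ _ := i5

end Pool.Agent.H983.BD
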