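import Pool.Agent.H983.BD.Sub
import Pool.Graph.R_seed8.H974R2.Infinite

/-!
Passage to the infinite half-plane and quarter-plane.
-/

set_option maxHeartbeats 1000000

namespace Pool.Agent.H983.BD

open H974 H31K Finset MeasureTheory

/-- The graph of the open edges with both ends in `D`. -/
def openIn (D : Set (ℤ × ℤ)) (ω : sqLattice.edgeSet → Bool) : SimpleGraph (ℤ × ℤ) where
  Adj u v := (openGraph ω).Adj u v ∧ u ∈ D ∧ v ∈ D
  symm := ⟨fun _ _ h => ⟨h.1.symm, h.2.2, h.2.1⟩⟩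
  loopless := ⟨fun _ h => (openGraph ω).loopless.irrefl _ h.1⟩

/-- The open cluster of the origin in `D`. -/
def clusterIn (D : Set (ℤ × ℤ)) (ω : sqLattice.edgeSet → Bool) : Set (ℤ × ℤ) :=
  {v | (openIn D ω).Reachable (0, 0) v}

/-- The half-plane and the quarter-plane. -/
def dom (τ : Bool) : Set (ℤ × ℤ) := {v | InD τ v}

/-- The edges of the domain. -/
def domE (τ : Bool) : Set Edg := {e | InD τ (src e) ∧ InD τ (tgt e)}

theorem DE_eq (τ : Bool) (n : ℕ) : (↑(DE τ n) : Set Edg) = domE τ ∩ ↑(boxE n) := by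
  ext e
  constructor
  · intro he
    exact ⟨ends_dom (Finset.mem_coe.mp he), Finset.mem_coe.mpr (DE_sub τ n he)⟩
  · rintro ⟨h1, h2⟩
    rw [Finset.mem_coe]
    rw [← mem_DE_iff]
    · exact h2
    · obtain ⟨x, y, b⟩ := e
      exact ⟨h1.1.1, h1.1.2⟩

theorem openIn_reach (τ : Bool) (ω : sqLattice.edgeSet → Bool) (u v : ℤ × ℤ) :
    (openIn (dom τ) ω).Reachable u v ↔ Reach (opn ω ∩ domE τ) u v := by
  rw [SimpleGraph.reachable_iff_reflTransGen]
  have : (openIn (dom τ) ω).Adj = Adj (opn ω ∩ domE τ) := by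
    funext u v
    apply propext
    show ((openGraph ω).Adj u v ∧ InD τ u ∧ InD τ v) ↔ _
    rw [openGraph_adj]
    constructor
    · rintro ⟨⟨e, he, h⟩, hu, hv⟩
      refine ⟨e, ⟨he, ?_⟩, h⟩
      rcases h with ⟨h1, h2⟩ | ⟨h1, h2⟩
      · exact ⟨h1 ▸ hu, h2 ▸ hv⟩
      · exact ⟨h1 ▸ hv, h2 ▸ hu⟩
    · rintro ⟨e, ⟨he, hd⟩, h⟩
      refine ⟨⟨e, he, h⟩, ?_⟩
      rcases h with ⟨h1, h2⟩ | ⟨h1, h2⟩
      · exact ⟨h1 ▸ hd.1, h2 ▸ hd.2⟩
      · exact ⟨h2 ▸ hd.2, h1 ▸ hd.1⟩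
  rw [this]
  rfl

/-- The finite-volume event. -/
def ArmD (τ : Bool) (n : ℕ) : Set (sqLattice.edgeSet → Bool) := {ω | Arm n (FF (DE τ n) ω)}

theorem armD_iff {τ : Bool} {n : ℕ} {ω : sqLattice.edgeSet → Bool} :
    ω ∈ ArmD τ n ↔ ∃ v, onB n v ∧ Reach ((opn ω ∩ domE τ) ∩ ↑(boxE n)) (0, 0) v := by
  show Arm n (FF (DE τ n) ω) ↔ _
  unfold Arm
  rw [FF_coe, DE_eq]
  have : opn ω ∩ (domE τ ∩ ↑(boxE n)) ∩ ↑(boxE n) = (opn ω ∩ domE τ) ∩ ↑(boxE n) := by
    rw [← Set.inter_assoc, Set.inter_assoc (opn ω ∩ domE τ), Set.inter_self]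
  rw [this]

theorem law_armD (τ : Bool) (p : unitInterval) (n : ℕ) :
    (bondLaw p).real (ArmD τ n) = ad τ p n :=
  law_event p (DE τ n) (Arm n)

theorem armD_anti {τ : Bool} {n m : ℕ} (h : n ≤ m) : ArmD τ m ⊆ ArmD τ n := by
  intro ω hω
  rw [armD_iff] at hω ⊢
  obtain ⟨v, hv, hr⟩ := hω
  have h' : (n:ℤ) ≤ m := by exact_mod_cast h
  obtain ⟨w, k1, k2, k3⟩ := first_exit (G := opn ω ∩ domE τ ∩ ↑(boxE m)) (a := -n) (b := n)
    (c := -n) (d := n) (u := (0, 0)) (v := v) (by unfold inR; simp) hr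
    (by unfold onB at hv; omega)
  refine ⟨w, ⟨k1, k2⟩, k3.mono ?_⟩
  rintro e ⟨⟨k4, -⟩, k5⟩
  exact ⟨k4, k5⟩

theorem infinite_iffD (τ : Bool) (ω : sqLattice.edgeSet → Bool) :
    (clusterIn (dom τ) ω).Infinite ↔ ∀ n, ω ∈ ArmD τ n := by
  constructor
  · intro h n
    rw [armD_iff]
    have hfin : (Set.Icc (-(n:ℤ)) n ×ˢ Set.Icc (-(n:ℤ)) n).Finite :=
      (Set.finite_Icc _ _).prod (Set.finite_Icc _ _)
    obtain ⟨v, hv, hv'⟩ := h.exists_notMem_finite hfin
    have hr : Reach (opn ω ∩ domE τ) (0, 0) v := (openIn_reach τ ω _ _).mp hv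
    obtain ⟨w, k1, k2, k3⟩ := first_exit (a := -n) (b := n) (c := -n) (d := n)
      (by unfold inR; simp) hr (by
        simp only [Set.mem_prod, Set.mem_Icc] at hv'
        omega)
    exact ⟨w, ⟨k1, k2⟩, k3⟩
  · intro h hfin
    have hb : ((fun v : ℤ × ℤ => |v.1| + |v.2|) '' clusterIn (dom τ) ω).Finite := hfin.image _
    obtain ⟨N, hN⟩ := hb.bddAbove
    obtain ⟨v, hv, hr⟩ := armD_iff.mp (h (N.toNat + 1))
    have hmem : v ∈ clusterIn (dom τ) ω :=
      (openIn_reach τ ω _ _).mpr (hr.mono Set.inter_subset_left)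
    have h1 : |v.1| + |v.2| ≤ N := hN (Set.mem_image_of_mem _ hmem)
    have h2 := abs_nonneg v.1
    have h3 := abs_nonneg v.2
    have h4 := le_abs_self v.1
    have h5 := le_abs_self v.2
    have h6 := neg_abs_le v.1
    have h7 := neg_abs_le v.2
    unfold onB at hv
    have h8 : N ≤ N.toNat := Int.self_le_toNat N
    push_cast at hv
    omega

/-- The probability that the cluster of the origin in `D` is infinite. -/
noncomputable def thetaIn (D : Set (ℤ × ℤ)) (p : unitInterval) : ℝ :=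
  (bondLaw p).real {ω | (clusterIn D ω).Infinite}

/-- The probability that the cluster of the origin in `D` reaches distance `n`. -/
noncomputable def reachIn (D : Set (ℤ × ℤ)) (p : unitInterval) (n : ℕ) : ℝ :=
  (bondLaw p).real {ω | ∃ w ∈ clusterIn D ω, (n : ℤ) ≤ max |w.1| |w.2|}

theorem reachIn_eq (τ : Bool) (p : unitInterval) (n : ℕ) : reachIn (dom τ) p n = ad τ p n := by
  have h : {ω : sqLattice.edgeSet → Bool | ∃ w ∈ clusterIn (dom τ) ω,
      (n : ℤ) ≤ max |w.1| |w.2|} = ArmD τ n := by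
    apply Set.Subset.antisymm
    · rintro ω ⟨w, h1, h2⟩
      rw [armD_iff]
      have hr : Reach (opn ω ∩ domE τ) (0, 0) w := (openIn_reach τ ω _ _).mp h1
      obtain ⟨v, k1, k2, k3⟩ := first_exit (a := -(n:ℤ)) (b := n) (c := -(n:ℤ)) (d := n)
        (by unfold inR; simp) hr (by
          rcases le_max_iff.1 h2 with h | h
          · rcases le_abs'.1 h with h | h <;> omega
          · rcases le_abs'.1 h with h | h <;> omega)
      exact ⟨v, ⟨k1, k2⟩, k3⟩
    · intro ω hω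
      obtain ⟨v, ⟨_, hv⟩, hr⟩ := armD_iff.mp hω
      refine ⟨v, (openIn_reach τ ω _ _).mpr (hr.mono Set.inter_subset_left), ?_⟩
      rcases hv with h | h | h | h
      · exact le_trans (le_trans (by rw [h, neg_neg]) (neg_le_abs v.1)) (le_max_left _ _)
      · exact le_trans (le_trans h.ge (le_abs_self v.1)) (le_max_left _ _)
      · exact le_trans (le_trans (by rw [h, neg_neg]) (neg_le_abs v.2)) (le_max_right _ _)
      · exact le_trans (le_trans h.ge (le_abs_self v.2)) (le_max_right _ _)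
  unfold reachIn
  rw [h, law_armD]

theorem infinite_eqD (τ : Bool) : {ω | (clusterIn (dom τ) ω).Infinite} = ⋂ n, ArmD τ n := by
  ext ω
  rw [Set.mem_iInter]
  exact infinite_iffD τ ω

theorem thetaD_le (τ : Bool) (p : unitInterval) (n : ℕ) : thetaIn (dom τ) p ≤ ad τ p n := by
  unfold thetaIn
  rw [infinite_eqD, ← law_armD]
  exact measureReal_mono (Set.iInter_subset _ n)

theorem le_thetaD (τ : Bool) (p : unitInterval) {x : ℝ} (h : ∀ n, x ≤ ad τ p n) :
    x ≤ thetaIn (dom τ) p := by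
  unfold thetaIn
  rw [infinite_eqD]
  have h1 : Filter.Tendsto (fun n => (bondLaw p) (ArmD τ n)) Filter.atTop
      (nhds ((bondLaw p) (⋂ n, ArmD τ n))) := by
    apply tendsto_measure_iInter_atTop
    · intro n
      exact (meas_event (DE τ n) (Arm n)).nullMeasurableSet
    · intro n m hnm
      exact armD_anti hnm
    · exact ⟨0, measure_ne_top _ _⟩
  have h2 : Filter.Tendsto (fun n => (bondLaw p).real (ArmD τ n)) Filter.atTop
      (nhds ((bondLaw p).real (⋂ n, ArmD τ n))) :=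
    (ENNReal.tendsto_toReal (measure_ne_top _ _)).comp h1
  apply ge_of_tendsto' h2
  intro n
  rw [law_armD]
  exact h n

/-- The percolation probability of the domain. -/
theorem thetaD_sharp (τ : Bool) : ∃ c C : ℝ, 0 < c ∧ 0 < C ∧ ∀ p : unitInterval,
    (1/2 : ℝ) ≤ p → c * ((p:ℝ) - 1/2) ^ (4/3 * ex τ) ≤ thetaIn (dom τ) p ∧
      thetaIn (dom τ) p ≤ C * ((p:ℝ) - 1/2) ^ (4/3 * ex τ) := by
  obtain ⟨c, hc, hl⟩ := sup_lowerD τ
  obtain ⟨C, hC, hu⟩ := sup_upperD τ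
  obtain ⟨cc, Cc, hcc, hCc, harm⟩ := ad_crit
  have hα0 := ex_pos τ
  refine ⟨c, C, hc, hC, ?_⟩
  intro p hp
  constructor
  · exact le_thetaD τ p (fun n => (hl p hp p.2.2 n).1)
  · obtain ⟨t, ht⟩ : ∃ t, t = (p:ℝ) - 1/2 := ⟨_, rfl⟩
    have ht0 : 0 ≤ t := by rw [ht]; linarith
    rcases ht0.lt_or_eq with htp | h
    · obtain ⟨n, hn⟩ := exists_nat_ge (max 1 (t ^ (-(4/3) : ℝ)))
      have hn1 : (1:ℝ) ≤ n := (le_max_left _ _).trans hn
      have hn2 : t ^ (-(4/3) : ℝ) ≤ n := (le_max_right _ _).trans hn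
      have hn3 : 1 ≤ n := by exact_mod_cast hn1
      have h2 := hu p hp p.2.2 n hn3
      rw [← ht] at h2 ⊢
      have h3 : (n:ℝ) ^ (-ex τ) ≤ t ^ (4/3 * ex τ) := by
        have h4 : (n:ℝ) ^ (-ex τ) ≤ (t ^ (-(4/3) : ℝ)) ^ (-ex τ) :=
          Real.rpow_le_rpow_of_nonpos (by positivity) hn2 (by linarith)
        rw [← Real.rpow_mul htp.le] at h4
        have e : (-(4/3) : ℝ) * -ex τ = 4/3 * ex τ := by ring
        rw [e] at h4
        exact h4
      rw [max_eq_right h3] at h2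
      exact (thetaD_le τ p n).trans h2
    · rw [← ht, ← h, Real.zero_rpow (by positivity), mul_zero]
      have hph : (p:ℝ) = 1/2 := by linarith
      have h1 : ∀ n : ℕ, thetaIn (dom τ) p ≤ Cc * ((n + 1 : ℕ) : ℝ) ^ (-ex τ) := by
        intro n
        have h5 := (harm τ (n + 1) (by omega)).2
        rw [← hph] at h5
        exact (thetaD_le τ p (n + 1)).trans h5
      have h6 : Filter.Tendsto (fun n : ℕ => Cc * ((n + 1 : ℕ) : ℝ) ^ (-ex τ)) Filter.atTop
          (nhds (Cc * 0)) := by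
        apply Filter.Tendsto.const_mul
        exact (tendsto_rpow_neg_atTop hα0).comp
          (tendsto_natCast_atTop_atTop.comp (Filter.tendsto_add_atTop_nat 1))
      rw [mul_zero] at h6
      exact ge_of_tendsto' h6 h1

end Pool.Agent.H983.BD
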