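import Pool.Agent.H983.BD.Glue

/-!
Mean sizes of the boundary clusters from below.
-/

set_option maxHeartbeats 1000000

namespace Pool.Agent.H983.BD

open H974 H31K Finset MeasureTheory Pool.Agent.W424.NC

theorem mem_clusterD_of_TP {τ : Bool} {n : ℕ} {ω : sqLattice.edgeSet → Bool} {x : Vtx}
    (h : TP x (FF (DE τ n) ω)) : x ∈ clusterIn (dom τ) ω := by
  have : ω ∈ {ω | x ∈ clusterIn (dom τ) ω} := by
    rw [clusterD_union]
    exact Set.mem_iUnion.mpr ⟨n, h⟩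
  exact this

theorem mean_ge (τ : Bool) (A : Set (ℤ × ℤ)) (p : unitInterval) (n : ℕ) (B : Finset Vtx)
    (hB : ∀ x ∈ B, x ∈ A) :
    ENNReal.ofReal (∑ x ∈ B, Pr (fun _ => (p:ℝ)) (DE τ n) (TP x)) ≤ meanIn (dom τ) A p := by
  classical
  obtain ⟨S, hS⟩ : ∃ S, S = DE τ n := ⟨_, rfl⟩
  have hpt : ∀ ω, ∑ x ∈ B, Set.indicator {ω | TP x (FF S ω)} (fun _ => (1 : ENNReal)) ω ≤
      ((clusterIn (dom τ) ω ∩ A).encard : ENNReal) := by
    intro ω
    have h1 : ∑ x ∈ B, Set.indicator {ω | TP x (FF S ω)} (fun _ => (1 : ENNReal)) ω =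
        ((B.filter (fun x => TP x (FF S ω))).card : ENNReal) := by
      rw [Finset.card_filter]
      push_cast
      apply Finset.sum_congr rfl
      intro x _
      rw [Set.indicator_apply]
      rfl
    rw [h1]
    have h2 : (↑(B.filter (fun x => TP x (FF S ω))) : Set Vtx) ⊆ clusterIn (dom τ) ω ∩ A := by
      intro x hx
      rw [Finset.mem_coe, Finset.mem_filter] at hx
      refine ⟨?_, hB x hx.1⟩
      have h3 := hx.2
      rw [hS] at h3
      exact mem_clusterD_of_TP h3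
    have h4 := Set.encard_le_encard h2
    rw [Set.encard_coe_eq_coe_finsetCard] at h4
    have h5 : (((B.filter (fun x => TP x (FF S ω))).card : ℕ∞) : ENNReal) ≤
        ((clusterIn (dom τ) ω ∩ A).encard : ENNReal) := ENat.toENNReal_le.mpr h4
    simpa using h5
  rw [← hS]
  have h1 : ENNReal.ofReal (∑ x ∈ B, Pr (fun _ => (p:ℝ)) S (TP x)) =
      ∫⁻ ω, ∑ x ∈ B, Set.indicator {ω | TP x (FF S ω)} (fun _ => (1 : ENNReal)) ω
        ∂(bondLaw p) := by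
    rw [lintegral_finsetSum]
    · rw [ENNReal.ofReal_sum_of_nonneg (fun x _ => Pr_nonneg (okq p.2.1 p.2.2) _ _)]
      apply Finset.sum_congr rfl
      intro x _
      have h2 : ∫⁻ ω, Set.indicator {ω | TP x (FF S ω)} (fun _ => (1 : ENNReal)) ω ∂(bondLaw p) =
          (bondLaw p) {ω | TP x (FF S ω)} := lintegral_indicator_one (meas_event S (TP x))
      rw [h2, ← law_event p S (TP x), measureReal_def, ENNReal.ofReal_toReal (measure_ne_top _ _)]
    · intro x _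
      exact measurable_one.indicator (meas_event S (TP x))
  rw [h1]
  unfold meanIn
  exact lintegral_mono (fun ω => hpt ω)

theorem TP_zero (p : ℝ) (S : Finset Edg) : Pr (fun _ => p) S (TP (0, 0)) = 1 :=
  Pr_true _ (fun F _ => Reach.refl _ _)

theorem mean_ge_one (τ : Bool) {A : Set (ℤ × ℤ)} (hA : ((0, 0) : ℤ × ℤ) ∈ A)
    (p : unitInterval) : 1 ≤ meanIn (dom τ) A p := by
  have h := mean_ge τ A p 0 {((0, 0) : Vtx)} (by
    intro x hx
    rw [Finset.mem_singleton] at hx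
    rw [hx]; exact hA)
  rw [Finset.sum_singleton, TP_zero, ENNReal.ofReal_one] at h
  exact h

/-- The good scales. -/
theorem goodS : ∃ κ a b : ℝ, 0 < κ ∧ κ ≤ 1 ∧ 0 < a ∧ a ≤ 1 ∧ 0 < b ∧ ∀ p : ℝ, p ≤ 1/2 →
    ∀ M : ℕ, 1 ≤ M → M * (1/2 - p)^(4/3 : ℝ) ≤ b → H12S.Win p κ M ∧
      ∀ k : ℕ, 1 ≤ k → k ≤ M → (∀ τ : Bool, a * (k:ℝ)^(-ex τ) ≤ ad τ p k) ∧
        a * (k:ℝ)^(-(5/48) : ℝ) ≤ arm p k := by
  obtain ⟨κ1, b1, hκ1, hb1, h1⟩ := adS
  obtain ⟨κ2, b2, hκ2, hb2, h2⟩ := armS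
  obtain ⟨c3, C3, hc3, hC3, h3⟩ := ad_crit
  obtain ⟨c4, C4, hc4, hC4, h4⟩ := Pool.Agent.W424.NC.arm_crit
  obtain ⟨b', hb'⟩ : ∃ b', b' = min b1 b2 := ⟨_, rfl⟩
  have hb'0 : 0 < b' := by rw [hb']; exact lt_min hb1 hb2
  refine ⟨min κ1 1, min (min (c3 / 3) (c4 / 3)) 1, b'^(4/3 : ℝ), lt_min hκ1 one_pos,
    min_le_right _ _, lt_min (lt_min (by positivity) (by positivity)) one_pos, min_le_right _ _,
    by positivity, ?_⟩
  intro p hp M hM hMb
  have hs0 : 0 ≤ 1/2 - p := by linarith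
  have hall : ∀ k : ℕ, 1 ≤ k → k ≤ M → |p - 1/2| ≤ b' * (k:ℝ)^(-(3/4 : ℝ)) := by
    intro k hk1 hk2
    have hk0 : (0:ℝ) < k := by exact_mod_cast hk1
    have hk2' : (k:ℝ) ≤ M := by exact_mod_cast hk2
    rw [abs_sub_comm, abs_of_nonneg hs0, Real.rpow_neg hk0.le,
      ← div_eq_mul_inv, le_div_iff₀ (by positivity)]
    have e1 : (1/2 - p) = ((1/2 - p)^(4/3 : ℝ))^(3/4 : ℝ) := by
      rw [← Real.rpow_mul hs0]; norm_num
    have e2 : b' = (b'^(4/3 : ℝ))^(3/4 : ℝ) := by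
      rw [← Real.rpow_mul hb'0.le]; norm_num
    have hH0 : 0 ≤ (1/2 - p)^(4/3 : ℝ) := Real.rpow_nonneg hs0 _
    rw [e1, ← Real.mul_rpow hH0 hk0.le, e2]
    apply Real.rpow_le_rpow (by positivity) _ (by norm_num)
    calc (1/2 - p)^(4/3 : ℝ) * (k:ℝ) ≤ (1/2 - p)^(4/3 : ℝ) * M :=
          mul_le_mul_of_nonneg_left hk2' hH0
      _ = M * (1/2 - p)^(4/3 : ℝ) := by ring
      _ ≤ b'^(4/3 : ℝ) := hMb
  constructor
  · have hM0 : (0:ℝ) < M := by exact_mod_cast hM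
    have hW := (h1 M hM p ((hall M hM le_rfl).trans (mul_le_mul_of_nonneg_right
      (by rw [hb']; exact min_le_left _ _) (by positivity)))).1
    exact stab_mono hW (lt_min hκ1 one_pos) (min_le_left _ _)
  · intro k hk1 hk2
    have hk0 : (0:ℝ) < k := by exact_mod_cast hk1
    have hq := hall k hk1 hk2
    have hp0 : 0 < (k:ℝ)^(-(3/4 : ℝ)) := by positivity
    constructor
    · intro τ
      have k1 := ((h1 k hk1 p (hq.trans (mul_le_mul_of_nonneg_right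
        (by rw [hb']; exact min_le_left _ _) hp0.le))).2 τ).2
      have k2 := (h3 τ k hk1).1
      have k3 : min (min (c3 / 3) (c4 / 3)) 1 * (k:ℝ)^(-ex τ) ≤ c3 / 3 * (k:ℝ)^(-ex τ) :=
        mul_le_mul_of_nonneg_right ((min_le_left _ _).trans (min_le_left _ _)) (by positivity)
      linarith
    · have k1 := (h2 k hk1 p (hq.trans (mul_le_mul_of_nonneg_right
        (by rw [hb']; exact min_le_right _ _) hp0.le))).2.2
      have k2 := (h4 k hk1).1
      have k3 : min (min (c3 / 3) (c4 / 3)) 1 * (k:ℝ)^(-(5/48) : ℝ) ≤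
          c4 / 3 * (k:ℝ)^(-(5/48) : ℝ) :=
        mul_le_mul_of_nonneg_right ((min_le_left _ _).trans (min_le_right _ _)) (by positivity)
      linarith

/-- The square of bulk vertices. -/
noncomputable def SQ (s : ℕ) : Finset Vtx :=
  Finset.Icc (2 * (s:ℤ)) (3 * s) ×ˢ Finset.Icc (2 * (s:ℤ)) (3 * s)

theorem SQ_card (s : ℕ) : (s:ℝ)^2 ≤ ((SQ s).card : ℝ) := by
  have h : s^2 ≤ (SQ s).card := by
    unfold SQ
    rw [Finset.card_product, Int.card_Icc]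
    have : (3 * (s:ℤ) + 1 - 2 * s).toNat = s + 1 := by omega
    rw [this]
    nlinarith
  exact_mod_cast h

/-- The mean cluster size from below. -/
theorem mean_low_vol (τ : Bool) : ∃ K : ℝ, 0 < K ∧ ∀ p : unitInterval, (p:ℝ) < 1/2 →
    ENNReal.ofReal (K * (1/2 - (p:ℝ))^(-(4/3 * (2 - (ex τ + 5/48))))) ≤
      meanIn (dom τ) Set.univ p := by
  obtain ⟨κ, a, b, hκ, hκ1, ha, ha1, hb, hg⟩ := goodS
  obtain ⟨hb0, hb1⟩ := ex48 τ
  obtain ⟨β, hβ⟩ : ∃ β : ℝ, β = ex τ + 5/48 := ⟨_, rfl⟩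
  rw [← hβ] at hb0 hb1 ⊢
  obtain ⟨G, hG⟩ : ∃ G : ℝ, G = κ^8 * a^2 * (8:ℝ)^(-β) := ⟨_, rfl⟩
  have hG0 : 0 < G := by rw [hG]; positivity
  refine ⟨min ((b / 8)^(2 - β)) (G * (b / 16)^(2 - β)), lt_min (by positivity) (by positivity),
    ?_⟩
  intro p hp
  have hp0 : (0:ℝ) ≤ p := p.2.1
  obtain ⟨s, hs⟩ : ∃ s : ℝ, s = 1/2 - (p:ℝ) := ⟨_, rfl⟩
  have hs0 : 0 < s := by rw [hs]; linarith
  rw [← hs]
  obtain ⟨t, ht⟩ : ∃ t : ℝ, t = s^(4/3 : ℝ) := ⟨_, rfl⟩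
  have ht0 : 0 < t := by rw [ht]; positivity
  have e1 : s^(-(4/3 * (2 - β))) = t^(-(2 - β)) := by
    rw [ht, ← Real.rpow_mul hs0.le]; congr 1; ring
  rw [e1]
  have ht2 : 0 < t^(-(2 - β)) := by positivity
  by_cases hcase : b < 8 * t
  · refine le_trans ?_ (mean_ge_one τ (Set.mem_univ _) p)
    rw [← ENNReal.ofReal_one]
    apply ENNReal.ofReal_le_ofReal
    have h1 : (b / 8)^(2 - β) ≤ t^(2 - β) :=
      Real.rpow_le_rpow (by positivity) (by linarith) (by linarith)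
    calc min ((b / 8)^(2 - β)) (G * (b / 16)^(2 - β)) * t^(-(2 - β))
        ≤ (b / 8)^(2 - β) * t^(-(2 - β)) :=
          mul_le_mul_of_nonneg_right (min_le_left _ _) ht2.le
      _ ≤ t^(2 - β) * t^(-(2 - β)) := mul_le_mul_of_nonneg_right h1 ht2.le
      _ = 1 := by rw [← Real.rpow_add ht0, add_neg_cancel, Real.rpow_zero]
  · rw [not_lt] at hcase
    obtain ⟨x, hx⟩ : ∃ x : ℝ, x = b / (8 * t) := ⟨_, rfl⟩
    have hx1 : 1 ≤ x := by rw [hx, le_div_iff₀ (by positivity)]; linarith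
    obtain ⟨m, hm⟩ : ∃ m : ℕ, m = ⌊x⌋₊ := ⟨_, rfl⟩
    have hm1 : 1 ≤ m := by rw [hm]; exact Nat.le_floor (by exact_mod_cast hx1)
    have hm2 : (m:ℝ) ≤ x := by rw [hm]; exact Nat.floor_le (by linarith)
    have hm3 : x < m + 1 := by rw [hm]; exact Nat.lt_floor_add_one x
    have hm4 : (1:ℝ) ≤ (m : ℝ) := by exact_mod_cast hm1
    have hmb : ((8 * m : ℕ) : ℝ) * (1/2 - (p:ℝ))^(4/3 : ℝ) ≤ b := by
      rw [← hs, ← ht]
      push_cast
      have h1 : x * (8 * t) = b := by rw [hx, div_mul_cancel₀ _ (by positivity)]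
      calc (8 * (m:ℝ)) * t = m * (8 * t) := by ring
        _ ≤ x * (8 * t) := mul_le_mul_of_nonneg_right hm2 (by positivity)
        _ = b := h1
    obtain ⟨hW, harm⟩ := hg p (by linarith) (8 * m) (by omega) hmb
    have hsum := mean_ge τ Set.univ p (8 * m) (SQ m) (fun _ _ => Set.mem_univ _)
    refine le_trans ?_ hsum
    apply ENNReal.ofReal_le_ofReal
    have k1 := (harm (8 * m) (by omega) le_rfl).1 τ
    have k2 := (harm (2 * m) (by omega) (by omega)).2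
    have hm0 : (0:ℝ) < m := by linarith
    have k3 : a^2 * (8:ℝ)^(-β) * (m:ℝ)^(-β) ≤ ad τ p (8 * m) * arm p (2 * m) := by
      have k4 : a * (((8 * m : ℕ)) : ℝ)^(-(5/48) : ℝ) ≤ a * (((2 * m : ℕ)) : ℝ)^(-(5/48) : ℝ) := by
        apply mul_le_mul_of_nonneg_left _ ha.le
        apply Real.rpow_le_rpow_of_nonpos (by push_cast; positivity) _ (by norm_num)
        push_cast
        linarith
      have k5 := mul_le_mul k1 (k4.trans k2) (by positivity)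
        ((by positivity : 0 ≤ a * ((8 * m : ℕ) : ℝ)^(-ex τ)).trans k1)
      refine le_trans (le_of_eq ?_) k5
      have k6 : (((8 * m : ℕ)) : ℝ) = 8 * m := by push_cast; ring
      have k7 : (8 * (m:ℝ))^(-ex τ) * (8 * (m:ℝ))^(-(5/48) : ℝ) = (8:ℝ)^(-β) * (m:ℝ)^(-β) := by
        rw [← Real.rpow_add (by positivity), ← Real.mul_rpow (by norm_num) hm0.le, hβ]
        congr 1
        ring
      rw [k6]
      calc a^2 * (8:ℝ)^(-β) * (m:ℝ)^(-β) = a^2 * ((8:ℝ)^(-β) * (m:ℝ)^(-β)) := by ring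
        _ = a^2 * ((8 * (m:ℝ))^(-ex τ) * (8 * (m:ℝ))^(-(5/48) : ℝ)) := by rw [k7]
        _ = _ := by ring
    have hterm : ∀ x ∈ SQ m, κ^8 * (a^2 * (8:ℝ)^(-β) * (m:ℝ)^(-β)) ≤
        Pr (fun _ => (p:ℝ)) (DE τ (8 * m)) (TP x) := by
      rintro ⟨x1, x2⟩ hx
      unfold SQ at hx
      rw [Finset.mem_product, Finset.mem_Icc, Finset.mem_Icc] at hx
      have k4 := pr_bulk τ (hW.anti (show 4 * m ≤ 8 * m by omega)) hm1 hx.1.1 hx.1.2 hx.2.1 hx.2.2
      exact (mul_le_mul_of_nonneg_left k3 (by positivity)).trans k4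
    have hsum2 := Finset.card_nsmul_le_sum _ _ _ hterm
    rw [nsmul_eq_mul] at hsum2
    refine le_trans ?_ hsum2
    have k8 : b / 16 * t⁻¹ ≤ m := by
      have : b / 16 * t⁻¹ = x / 2 := by rw [hx]; field_simp; norm_num
      rw [this]
      linarith
    have k9 : (b / 16)^(2 - β) * t^(-(2 - β)) ≤ (m:ℝ)^(2 - β) := by
      have k10 : (b / 16 * t⁻¹)^(2 - β) ≤ (m:ℝ)^(2 - β) :=
        Real.rpow_le_rpow (by positivity) k8 (by linarith)
      rw [Real.mul_rpow (by positivity) (by positivity), Real.inv_rpow ht0.le,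
        ← Real.rpow_neg ht0.le] at k10
      exact k10
    calc min ((b / 8)^(2 - β)) (G * (b / 16)^(2 - β)) * t^(-(2 - β))
        ≤ G * (b / 16)^(2 - β) * t^(-(2 - β)) :=
          mul_le_mul_of_nonneg_right (min_le_right _ _) ht2.le
      _ = G * ((b / 16)^(2 - β) * t^(-(2 - β))) := by ring
      _ ≤ G * (m:ℝ)^(2 - β) := mul_le_mul_of_nonneg_left k9 hG0.le
      _ = (m:ℝ)^2 * (κ^8 * (a^2 * (8:ℝ)^(-β) * (m:ℝ)^(-β))) := by
          rw [hG, sub_eq_add_neg, Real.rpow_add hm0, Real.rpow_two]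
          ring
      _ ≤ ((SQ m).card : ℝ) * (κ^8 * (a^2 * (8:ℝ)^(-β) * (m:ℝ)^(-β))) :=
          mul_le_mul_of_nonneg_right (SQ_card m) (by positivity)

/-- The connection to a vertex on the horizontal side, from below. -/
theorem line_low : ∃ b G : ℝ, 0 < b ∧ 0 < G ∧ G ≤ 1 ∧ ∀ (τ : Bool) (p : ℝ), p ≤ 1/2 →
    ∀ (k N : ℕ), 2 ≤ k → k ≤ N → (N:ℝ) * (1/2 - p)^(4/3 : ℝ) ≤ b →
      G * (k:ℝ)^(-(ex τ + 1/3)) ≤ Pr (fun _ => p) (DE τ (4 * N)) (TP ((k:ℤ), 0)) := by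
  obtain ⟨κ, a, b, hκ, hκ1, ha, ha1, hb, hg⟩ := goodS
  refine ⟨b / 4, κ^7 * a^2 * (8:ℝ)^(-1 : ℝ), by positivity, by positivity, ?_, ?_⟩
  · have h1 : κ^7 ≤ 1 := pow_le_one₀ hκ.le hκ1
    have h2 : a^2 ≤ 1 := pow_le_one₀ ha.le ha1
    have h3 : (8:ℝ)^(-1 : ℝ) ≤ 1 :=
      Real.rpow_le_one_of_one_le_of_nonpos (by norm_num) (by norm_num)
    have h4 : κ^7 * a^2 ≤ 1 := mul_le_one₀ h1 (by positivity) h2
    exact mul_le_one₀ h4 (by positivity) h3
  intro τ p hp k N hk hkN hN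
  have hs0 : 0 ≤ 1/2 - p := by linarith
  have hH0 : 0 ≤ (1/2 - p)^(4/3 : ℝ) := Real.rpow_nonneg hs0 _
  obtain ⟨s, hs⟩ : ∃ s : ℕ, s = k / 2 := ⟨_, rfl⟩
  have hs1 : 1 ≤ s := by omega
  have hb2 : ((8 * s : ℕ) : ℝ) * (1/2 - p)^(4/3 : ℝ) ≤ b := by
    have h1 : ((8 * s : ℕ) : ℝ) ≤ 4 * (N:ℝ) := by
      have : 8 * s ≤ 4 * N := by omega
      exact_mod_cast this
    have h2 := mul_le_mul_of_nonneg_right h1 hH0
    linarith
  obtain ⟨hW, harm⟩ := hg p hp (8 * s) (by omega) hb2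
  have h0 : 0 ≤ p := by linarith [hW.lo]
  have k0 := pr_line τ (hW.anti (show 4 * s ≤ 8 * s by omega)) hs1 (k := (k:ℤ))
    (by omega) (by omega)
  have k0' : Pr (fun _ => p) (DE τ (8 * s)) (TP ((k:ℤ), 0)) ≤
      Pr (fun _ => p) (DE τ (4 * N)) (TP ((k:ℤ), 0)) := by
    apply Pr_mono_set (okq h0 (by linarith)) (DE_mono τ (by omega))
    intro F G h _ hF
    exact hF.mono (by exact_mod_cast h)
  refine le_trans ?_ (k0.trans k0')
  have k1 := (harm (8 * s) (by omega) le_rfl).1 τ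
  have k2 := (harm (2 * s) (by omega) (by omega)).1 false
  have hex : ex false = 1/3 := by simp only [ex, if_false, Bool.false_eq_true]
  rw [hex] at k2
  have hsr : (0:ℝ) < s := by exact_mod_cast hs1
  have hk0 : (0:ℝ) < k := by exact_mod_cast (by omega : 0 < k)
  have hα0 := ex_pos τ
  have hα : ex τ ≤ 2/3 := by
    cases τ <;> simp only [ex, if_true, if_false, Bool.false_eq_true] <;> norm_num
  have m1 : (8:ℝ)^(-ex τ) * (k:ℝ)^(-ex τ) ≤ ((8 * s : ℕ) : ℝ)^(-ex τ) := by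
    rw [← Real.mul_rpow (by norm_num) hk0.le]
    apply Real.rpow_le_rpow_of_nonpos (by push_cast; positivity) _ (by linarith)
    have : 8 * s ≤ 8 * k := by omega
    exact_mod_cast this
  have m2 : (8:ℝ)^(-(1/3) : ℝ) * (k:ℝ)^(-(1/3) : ℝ) ≤ ((2 * s : ℕ) : ℝ)^(-(1/3) : ℝ) := by
    rw [← Real.mul_rpow (by norm_num) hk0.le]
    apply Real.rpow_le_rpow_of_nonpos (by push_cast; positivity) _ (by norm_num)
    have : 2 * s ≤ 8 * k := by omega
    exact_mod_cast this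
  have m3 := mul_le_mul (mul_le_mul_of_nonneg_left m1 ha.le)
    (mul_le_mul_of_nonneg_left m2 ha.le) (by positivity) (by positivity)
  have m4 := m3.trans (mul_le_mul k1 k2 (by positivity)
    ((by positivity : 0 ≤ a * ((8 * s : ℕ) : ℝ)^(-ex τ)).trans k1))
  have m5 : (8:ℝ)^(-1 : ℝ) ≤ (8:ℝ)^(-ex τ) * (8:ℝ)^(-(1/3) : ℝ) := by
    rw [← Real.rpow_add (by norm_num)]
    apply Real.rpow_le_rpow_of_exponent_le (by norm_num)
    linarith
  calc κ^7 * a^2 * (8:ℝ)^(-1 : ℝ) * (k:ℝ)^(-(ex τ + 1/3))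
      ≤ κ^7 * a^2 * ((8:ℝ)^(-ex τ) * (8:ℝ)^(-(1/3) : ℝ)) * (k:ℝ)^(-(ex τ + 1/3)) := by
        apply mul_le_mul_of_nonneg_right _ (by positivity)
        exact mul_le_mul_of_nonneg_left m5 (by positivity)
    _ = κ^7 * ((a * ((8:ℝ)^(-ex τ) * (k:ℝ)^(-ex τ))) *
        (a * ((8:ℝ)^(-(1/3) : ℝ) * (k:ℝ)^(-(1/3) : ℝ)))) := by
        rw [neg_add, Real.rpow_add hk0]
        ring
    _ ≤ _ := mul_le_mul_of_nonneg_left m4 (by positivity)

/-- The vertices on the horizontal side. -/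
noncomputable def LN (N : ℕ) : Finset Vtx := (Finset.Icc 2 N).image (fun k : ℕ => ((k:ℤ), (0:ℤ)))

theorem LN_sum (N : ℕ) (f : Vtx → ℝ) : ∑ x ∈ LN N, f x = ∑ k ∈ Finset.Icc 2 N, f ((k:ℤ), 0) := by
  unfold LN
  rw [Finset.sum_image]
  intro a _ b _ h
  have := (Prod.mk.injEq _ _ _ _).mp h
  exact_mod_cast this.1

/-- The mean number of boundary vertices in the half-plane from below. -/
theorem mean_low_half : ∃ K : ℝ, 0 < K ∧ ∀ p : unitInterval, (p:ℝ) < 1/2 →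
    ENNReal.ofReal (K * (1/2 - (p:ℝ))^(-(4/9) : ℝ)) ≤ meanIn (dom false) {x | x.2 = 0} p := by
  obtain ⟨b, G, hb, hG0, hG1, hl⟩ := line_low
  refine ⟨min ((b / 2)^(1/3 : ℝ)) (G / 2 * (b / 2)^(1/3 : ℝ)),
    lt_min (by positivity) (by positivity), ?_⟩
  intro p hp
  have hp0 : (0:ℝ) ≤ p := p.2.1
  obtain ⟨s, hs⟩ : ∃ s : ℝ, s = 1/2 - (p:ℝ) := ⟨_, rfl⟩
  have hs0 : 0 < s := by rw [hs]; linarith
  rw [← hs]
  obtain ⟨t, ht⟩ : ∃ t : ℝ, t = s^(4/3 : ℝ) := ⟨_, rfl⟩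
  have ht0 : 0 < t := by rw [ht]; positivity
  have e1 : s^(-(4/9) : ℝ) = t^(-(1/3) : ℝ) := by
    rw [ht, ← Real.rpow_mul hs0.le]; norm_num
  rw [e1]
  have ht2 : 0 < t^(-(1/3) : ℝ) := by positivity
  have hbt : (b / 2)^(1/3 : ℝ) * t^(-(1/3) : ℝ) = (b / 2 * t⁻¹)^(1/3 : ℝ) := by
    rw [Real.mul_rpow (by positivity) (by positivity), Real.inv_rpow ht0.le,
      ← Real.rpow_neg ht0.le]
  by_cases hcase : b < 2 * t
  · refine le_trans ?_ (mean_ge_one false (A := {x | x.2 = 0}) rfl p)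
    rw [← ENNReal.ofReal_one]
    apply ENNReal.ofReal_le_ofReal
    calc min ((b / 2)^(1/3 : ℝ)) (G / 2 * (b / 2)^(1/3 : ℝ)) * t^(-(1/3) : ℝ)
        ≤ (b / 2)^(1/3 : ℝ) * t^(-(1/3) : ℝ) :=
          mul_le_mul_of_nonneg_right (min_le_left _ _) ht2.le
      _ = (b / 2 * t⁻¹)^(1/3 : ℝ) := hbt
      _ ≤ 1 := by
          apply Real.rpow_le_one (by positivity) _ (by norm_num)
          rw [← div_eq_mul_inv, div_le_one ht0]
          linarith
  · rw [not_lt] at hcase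
    obtain ⟨x, hx⟩ : ∃ x : ℝ, x = b / t := ⟨_, rfl⟩
    have hx1 : 2 ≤ x := by rw [hx, le_div_iff₀ ht0]; exact hcase
    obtain ⟨N, hN⟩ : ∃ N : ℕ, N = ⌊x⌋₊ := ⟨_, rfl⟩
    have hN1 : 2 ≤ N := by rw [hN]; exact Nat.le_floor (by exact_mod_cast hx1)
    have hN2 : (N:ℝ) ≤ x := by rw [hN]; exact Nat.floor_le (by linarith)
    have hN3 : x < N + 1 := by rw [hN]; exact Nat.lt_floor_add_one x
    have hN4 : (2:ℝ) ≤ (N : ℝ) := by exact_mod_cast hN1
    have hNb : (N : ℝ) * (1/2 - (p:ℝ))^(4/3 : ℝ) ≤ b := by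
      rw [← hs, ← ht]
      have h1 : x * t = b := by rw [hx, div_mul_cancel₀ _ ht0.ne']
      calc (N:ℝ) * t ≤ x * t := mul_le_mul_of_nonneg_right hN2 ht0.le
        _ = b := h1
    have hsum := mean_ge false {x | x.2 = 0} p (4 * N) (LN N) (by
      intro x hx
      unfold LN at hx
      rw [Finset.mem_image] at hx
      obtain ⟨k, -, rfl⟩ := hx
      rfl)
    refine le_trans ?_ hsum
    apply ENNReal.ofReal_le_ofReal
    rw [LN_sum]
    have hN0 : (0:ℝ) < N := by linarith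
    have hex : ex false + 1/3 = 2/3 := by
      simp only [ex, if_false, Bool.false_eq_true]; norm_num
    have hterm : ∀ k ∈ Finset.Icc 2 N, G * (N:ℝ)^(-(2/3) : ℝ) ≤
        Pr (fun _ => (p:ℝ)) (DE false (4 * N)) (TP ((k:ℤ), 0)) := by
      intro k hk
      rw [Finset.mem_Icc] at hk
      have k1 := hl false p hp.le k N hk.1 hk.2 hNb
      rw [hex] at k1
      refine le_trans ?_ k1
      apply mul_le_mul_of_nonneg_left _ hG0.le
      apply Real.rpow_le_rpow_of_nonpos (by exact_mod_cast (by omega : 0 < k)) _ (by norm_num)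
      exact_mod_cast hk.2
    have hsum2 := Finset.card_nsmul_le_sum _ _ _ hterm
    rw [nsmul_eq_mul, Nat.card_Icc] at hsum2
    refine le_trans ?_ hsum2
    have hcard : (N:ℝ) / 2 ≤ ((N + 1 - 2 : ℕ) : ℝ) := by
      have h2 : ((N + 1 - 2 : ℕ) : ℝ) = (N:ℝ) - 1 := by
        obtain ⟨q, hq⟩ : ∃ q : ℕ, q = N + 1 - 2 := ⟨_, rfl⟩
        have h3 : ((q + 1 : ℕ) : ℝ) = N := by
          have : q + 1 = N := by omega
          rw [this]
        rw [Nat.cast_add, Nat.cast_one] at h3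
        rw [← hq]
        linarith
      rw [h2]
      linarith
    have k9 : b / 2 * t⁻¹ ≤ N := by
      have : b / 2 * t⁻¹ = x / 2 := by rw [hx]; field_simp
      rw [this]
      linarith
    calc min ((b / 2)^(1/3 : ℝ)) (G / 2 * (b / 2)^(1/3 : ℝ)) * t^(-(1/3) : ℝ)
        ≤ (G / 2 * (b / 2)^(1/3 : ℝ)) * t^(-(1/3) : ℝ) :=
          mul_le_mul_of_nonneg_right (min_le_right _ _) ht2.le
      _ = G / 2 * ((b / 2)^(1/3 : ℝ) * t^(-(1/3) : ℝ)) := by ring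
      _ = G / 2 * (b / 2 * t⁻¹)^(1/3 : ℝ) := by rw [hbt]
      _ ≤ G / 2 * (N:ℝ)^(1/3 : ℝ) := by
          apply mul_le_mul_of_nonneg_left _ (by positivity)
          exact Real.rpow_le_rpow (by positivity) k9 (by norm_num)
      _ = (N:ℝ) / 2 * (G * (N:ℝ)^(-(2/3) : ℝ)) := by
          have : (N:ℝ)^(1/3 : ℝ) = N * (N:ℝ)^(-(2/3) : ℝ) := by
            nth_rewrite 2 [← Real.rpow_one (N:ℝ)]
            rw [← Real.rpow_add hN0]
            norm_num
          rw [this]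
          ring
      _ ≤ ((N + 1 - 2 : ℕ) : ℝ) * (G * (N:ℝ)^(-(2/3) : ℝ)) :=
          mul_le_mul_of_nonneg_right hcard (by positivity)

/-- The mean number of vertices on the horizontal side in the quarter-plane from below. -/
theorem mean_low_quarter : ∃ K : ℝ, 0 < K ∧ ∀ p : unitInterval, (p:ℝ) < 1/2 →
    ENNReal.ofReal (K * Real.log (1 / (1/2 - (p:ℝ)))) ≤ meanIn (dom true) {x | x.2 = 0} p := by
  obtain ⟨b, G, hb, hG0, hG1, hl⟩ := line_low
  obtain ⟨D, hD⟩ : ∃ D : ℝ, D = |Real.log b| + 1 := ⟨_, rfl⟩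
  have hD0 : 0 < D := by rw [hD]; positivity
  refine ⟨min (2/3 * G) (1 / (3/2 * D + 3)), lt_min (by positivity) (by positivity), ?_⟩
  intro p hp
  have hp0 : (0:ℝ) ≤ p := p.2.1
  obtain ⟨s, hs⟩ : ∃ s : ℝ, s = 1/2 - (p:ℝ) := ⟨_, rfl⟩
  have hs0 : 0 < s := by rw [hs]; linarith
  have hs1 : s ≤ 1/2 := by rw [hs]; linarith
  rw [← hs]
  obtain ⟨t, ht⟩ : ∃ t : ℝ, t = s^(4/3 : ℝ) := ⟨_, rfl⟩
  have ht0 : 0 < t := by rw [ht]; positivity
  obtain ⟨L, hL⟩ : ∃ L : ℝ, L = Real.log (1 / s) := ⟨_, rfl⟩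
  rw [← hL]
  have hL0 : 0 ≤ L := by
    rw [hL]
    apply Real.log_nonneg
    rw [le_div_iff₀ hs0]
    linarith
  have hlogt : Real.log (b / t) = Real.log b + 4/3 * L := by
    rw [Real.log_div hb.ne' ht0.ne', ht, Real.log_rpow hs0, hL, one_div, Real.log_inv]
    ring
  by_cases hcase : L ≤ 3/2 * D + 3
  · refine le_trans ?_ (mean_ge_one true (A := {x | x.2 = 0}) rfl p)
    rw [← ENNReal.ofReal_one]
    apply ENNReal.ofReal_le_ofReal
    have hpos : 0 < 3/2 * D + 3 := by positivity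
    calc min (2/3 * G) (1 / (3/2 * D + 3)) * L ≤ 1 / (3/2 * D + 3) * L :=
          mul_le_mul_of_nonneg_right (min_le_right _ _) hL0
      _ ≤ 1 / (3/2 * D + 3) * (3/2 * D + 3) :=
          mul_le_mul_of_nonneg_left hcase (by positivity)
      _ = 1 := by rw [one_div, inv_mul_cancel₀ hpos.ne']
  · rw [not_le] at hcase
    obtain ⟨x, hx⟩ : ∃ x : ℝ, x = b / t := ⟨_, rfl⟩
    have hlb : -D + 1 ≤ Real.log b := by
      rw [hD]
      have := neg_abs_le (Real.log b)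
      linarith
    have hlx : 2/3 * L + 3 ≤ Real.log x := by
      rw [hx, hlogt]
      linarith
    have hxp : 0 < x := by rw [hx]; positivity
    have hx1 : 2 ≤ x := by
      have h1 : Real.log x ≤ x - 1 := Real.log_le_sub_one_of_pos hxp
      linarith
    obtain ⟨N, hN⟩ : ∃ N : ℕ, N = ⌊x⌋₊ := ⟨_, rfl⟩
    have hN1 : 2 ≤ N := by rw [hN]; exact Nat.le_floor (by exact_mod_cast hx1)
    have hN2 : (N:ℝ) ≤ x := by rw [hN]; exact Nat.floor_le (by linarith)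
    have hN3 : x < N + 1 := by rw [hN]; exact Nat.lt_floor_add_one x
    have hNb : (N : ℝ) * (1/2 - (p:ℝ))^(4/3 : ℝ) ≤ b := by
      rw [← hs, ← ht]
      have h1 : x * t = b := by rw [hx, div_mul_cancel₀ _ ht0.ne']
      calc (N:ℝ) * t ≤ x * t := mul_le_mul_of_nonneg_right hN2 ht0.le
        _ = b := h1
    have hsum := mean_ge true {x | x.2 = 0} p (4 * N) (LN N) (by
      intro x hx
      unfold LN at hx
      rw [Finset.mem_image] at hx
      obtain ⟨k, -, rfl⟩ := hx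
      rfl)
    refine le_trans ?_ hsum
    apply ENNReal.ofReal_le_ofReal
    rw [LN_sum]
    have hex : ex true + 1/3 = 1 := by
      simp only [ex, if_true]; norm_num
    have hterm : ∀ k ∈ Finset.Icc 2 N, G * (k:ℝ)⁻¹ ≤
        Pr (fun _ => (p:ℝ)) (DE true (4 * N)) (TP ((k:ℤ), 0)) := by
      intro k hk
      rw [Finset.mem_Icc] at hk
      have k1 := hl true p hp.le k N hk.1 hk.2 hNb
      rw [hex, Real.rpow_neg_one] at k1
      exact k1
    refine le_trans ?_ (Finset.sum_le_sum hterm)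
    rw [← Finset.mul_sum]
    have hharm : Real.log ((N:ℝ) + 1) ≤ 1 + ∑ k ∈ Finset.Icc 2 N, (k:ℝ)⁻¹ := by
      have h1 := log_add_one_le_harmonic N
      have h2 : ((harmonic N : ℚ) : ℝ) = 1 + ∑ k ∈ Finset.Icc 2 N, (k:ℝ)⁻¹ := by
        rw [harmonic_eq_sum_Icc]
        push_cast
        have h3 : Finset.Icc 1 N = insert 1 (Finset.Icc 2 N) := by
          ext k
          simp only [Finset.mem_insert, Finset.mem_Icc]
          omega
        rw [h3, Finset.sum_insert (by simp)]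
        norm_num
      rw [← h2]
      exact_mod_cast h1
    have hlN : Real.log x ≤ Real.log ((N:ℝ) + 1) := Real.log_le_log hxp hN3.le
    have hfin : 2/3 * L ≤ ∑ k ∈ Finset.Icc 2 N, (k:ℝ)⁻¹ := by linarith
    calc min (2/3 * G) (1 / (3/2 * D + 3)) * L ≤ 2/3 * G * L :=
          mul_le_mul_of_nonneg_right (min_le_left _ _) hL0
      _ = G * (2/3 * L) := by ring
      _ ≤ _ := mul_le_mul_of_nonneg_left hfin hG0.le

end Pool.Agent.H983.BD
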