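import Pool.Agent.H983.BD.Sum

/-!
Mean sizes of the boundary clusters from above.
-/

set_option maxHeartbeats 1000000

namespace Pool.Agent.H983.BD

open H974 H31K Finset MeasureTheory

theorem ex48 (τ : Bool) : 0 ≤ ex τ + 5/48 ∧ ex τ + 5/48 ≤ 1 := by
  cases τ <;> simp only [ex, if_true, if_false, Bool.false_eq_true] <;> norm_num

/-- The mean cluster size from above. -/
theorem mean_up_vol (τ : Bool) : ∃ K : ℝ, 0 < K ∧ ∀ p : unitInterval, (p:ℝ) < 1/2 →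
    meanIn (dom τ) Set.univ p ≤
      ENNReal.ofReal (K * (1/2 - (p:ℝ))^(-(4/3 * (2 - (ex τ + 5/48))))) := by
  obtain ⟨c, C, hc, hC, h⟩ := tauD_upper τ
  obtain ⟨hb0, hb1⟩ := ex48 τ
  obtain ⟨K, hK, h2⟩ := sum_vol hb0 hb1 hc hC
  refine ⟨K, hK, ?_⟩
  intro p hp
  have hp0 : (0:ℝ) ≤ p := p.2.1
  obtain ⟨s, hs⟩ : ∃ s : ℝ, s = 1/2 - (p:ℝ) := ⟨_, rfl⟩
  have hs0 : 0 < s := by rw [hs]; linarith
  have hs1 : s ≤ 1/2 := by rw [hs]; linarith
  obtain ⟨t, ht⟩ : ∃ t : ℝ, t = s^(4/3 : ℝ) := ⟨_, rfl⟩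
  have ht0 : 0 < t := by rw [ht]; positivity
  have ht1 : t ≤ 1 := by
    rw [ht]; exact Real.rpow_le_one hs0.le (by linarith) (by norm_num)
  have h3 := mean_le_shell τ Set.univ p
    (f := fun r : ℕ => C * ((r:ℝ) + 1)^(-(ex τ + 5/48)) * Real.exp (-(c * (r * t))))
    (N := fun r : ℕ => 8 * ((r:ℝ) + 1)) (fun r => by positivity) t10_T t10_T_card
    (fun x _ => t10_T_mem x) (fun x _ => by
      have := h p hp.le x
      rw [← hs, ← ht] at this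
      exact this)
  have h4 := h2 t ht0 ht1
  refine h3.trans (h4.trans (le_of_eq ?_))
  rw [ht, ← Real.rpow_mul hs0.le, hs]
  congr 3
  ring

/-- A finite set containing the boundary vertices at distance `r`. -/
noncomputable def TB (r : ℕ) : Finset Vtx := {((r:ℤ), 0), (-(r:ℤ), 0)}

theorem TB_card (r : ℕ) : ((TB r).card : ℝ) ≤ 2 := by
  have : (TB r).card ≤ 2 := Finset.card_le_two
  exact_mod_cast this

theorem nrm_line (k : ℤ) : Pool.Agent.W424.NC.nrm (k, 0) = k.natAbs := by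
  unfold Pool.Agent.W424.NC.nrm
  simp

theorem TB_mem {x : Vtx} (hx : x.2 = 0) : x ∈ TB (Pool.Agent.W424.NC.nrm x) := by
  obtain ⟨a, b⟩ := x
  simp only at hx
  subst hx
  rw [nrm_line]
  unfold TB
  rw [Finset.mem_insert, Finset.mem_singleton, Prod.mk.injEq, Prod.mk.injEq]
  rcases Int.natAbs_eq a with h | h
  · exact Or.inl ⟨h, rfl⟩
  · exact Or.inr ⟨h, rfl⟩

theorem line_shell (τ : Bool) {c C : ℝ} (hC : 0 < C)
    (h : ∀ p : unitInterval, (p:ℝ) ≤ 1/2 →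
      ∀ k : ℤ, tauD τ p (k, 0) ≤ C * ((k.natAbs : ℝ) + 1)^(-(ex τ + 1/3)) *
      Real.exp (-(c * (k.natAbs * (1/2 - (p:ℝ))^(4/3 : ℝ))))) (p : unitInterval)
    (hp : (p:ℝ) ≤ 1/2) : meanIn (dom τ) {x | x.2 = 0} p ≤
      ∑' r : ℕ, ENNReal.ofReal (2 * (C * ((r:ℝ) + 1)^(-(ex τ + 1/3)) *
        Real.exp (-(c * (r * (1/2 - (p:ℝ))^(4/3 : ℝ)))))) := by
  apply mean_le_shell τ {x | x.2 = 0} p
    (f := fun r : ℕ => C * ((r:ℝ) + 1)^(-(ex τ + 1/3)) *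
      Real.exp (-(c * (r * (1/2 - (p:ℝ))^(4/3 : ℝ)))))
    (N := fun _ : ℕ => 2) (fun r => by positivity) TB TB_card (fun x hx => TB_mem hx)
  rintro ⟨k, b⟩ hx
  have hb : b = 0 := hx
  subst hb
  rw [nrm_line]
  exact h p hp k

/-- The mean number of boundary vertices in the half-plane from above. -/
theorem mean_up_half : ∃ K : ℝ, 0 < K ∧ ∀ p : unitInterval, (p:ℝ) < 1/2 →
    meanIn (dom false) {x | x.2 = 0} p ≤
      ENNReal.ofReal (K * (1/2 - (p:ℝ))^(-(4/9) : ℝ)) := by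
  obtain ⟨c, C, hc, hC, h⟩ := tauB_upper false
  have h2 := sum_line (β := 2/3) (c := c) (C := C) (by norm_num) hc hC
    (G := fun R => 3 * (R:ℝ)^(1/3 : ℝ)) (fun R _ => sum_two_thirds R)
  refine ⟨12 * C + 2 * C * ((1 + c) / c), by positivity, ?_⟩
  intro p hp
  have hp0 : (0:ℝ) ≤ p := p.2.1
  obtain ⟨s, hs⟩ : ∃ s : ℝ, s = 1/2 - (p:ℝ) := ⟨_, rfl⟩
  have hs0 : 0 < s := by rw [hs]; linarith
  have hs1 : s ≤ 1/2 := by rw [hs]; linarith
  obtain ⟨t, ht⟩ : ∃ t : ℝ, t = s^(4/3 : ℝ) := ⟨_, rfl⟩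
  have ht0 : 0 < t := by rw [ht]; positivity
  have ht1 : t ≤ 1 := by
    rw [ht]; exact Real.rpow_le_one hs0.le (by linarith) (by norm_num)
  have h3 := line_shell false hC h p hp.le
  have hex : ex false + 1/3 = 2/3 := by
    simp only [ex, if_false, Bool.false_eq_true]; norm_num
  rw [hex, ← hs, ← ht] at h3
  refine (h3.trans (h2 t ht0 ht1)).trans ?_
  apply ENNReal.ofReal_le_ofReal
  rw [← hs]
  have e1 : s^(-(4/9) : ℝ) = t^(-(1/3) : ℝ) := by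
    rw [ht, ← Real.rpow_mul hs0.le]; norm_num
  have e2 : t^(-(1 - 2/3) : ℝ) = t^(-(1/3) : ℝ) := by norm_num
  rw [e1, e2]
  have h4 : ((⌈1 / t⌉₊ : ℕ) : ℝ) ≤ 2 / t := by
    have := Nat.ceil_lt_add_one (a := 1 / t) (by positivity)
    have h5 : 1 ≤ 1 / t := by rw [le_div_iff₀ ht0]; linarith
    have h6 : 2 / t = 1 / t + 1 / t := by ring
    linarith
  have h5 : ((⌈1 / t⌉₊ : ℕ) : ℝ)^(1/3 : ℝ) ≤ 2 * t^(-(1/3) : ℝ) := by
    calc ((⌈1 / t⌉₊ : ℕ) : ℝ)^(1/3 : ℝ) ≤ (2 / t)^(1/3 : ℝ) :=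
          Real.rpow_le_rpow (by positivity) h4 (by norm_num)
      _ = (2:ℝ)^(1/3 : ℝ) * t^(-(1/3) : ℝ) := by
          rw [Real.div_rpow (by norm_num) ht0.le, Real.rpow_neg ht0.le, div_eq_mul_inv]
      _ ≤ 2 * t^(-(1/3) : ℝ) := by
          apply mul_le_mul_of_nonneg_right _ (by positivity)
          calc (2:ℝ)^(1/3 : ℝ) ≤ (2:ℝ)^(1 : ℝ) :=
                Real.rpow_le_rpow_of_exponent_le (by norm_num) (by norm_num)
            _ = 2 := Real.rpow_one _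
  have h6 := mul_le_mul_of_nonneg_left h5 (by positivity : 0 ≤ 2 * C * 3)
  calc 2 * C * (3 * ((⌈1 / t⌉₊ : ℕ) : ℝ)^(1/3 : ℝ)) + 2 * C * ((1 + c) / c) * t^(-(1/3) : ℝ)
      = 2 * C * 3 * ((⌈1 / t⌉₊ : ℕ) : ℝ)^(1/3 : ℝ) +
        2 * C * ((1 + c) / c) * t^(-(1/3) : ℝ) := by ring
    _ ≤ 2 * C * 3 * (2 * t^(-(1/3) : ℝ)) + 2 * C * ((1 + c) / c) * t^(-(1/3) : ℝ) := by
        linarith
    _ = _ := by ring

/-- The mean number of vertices on the horizontal side in the quarter-plane from above. -/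
theorem mean_up_quarter : ∃ K : ℝ, 0 < K ∧ ∀ p : unitInterval, (p:ℝ) < 1/2 →
    meanIn (dom true) {x | x.2 = 0} p ≤
      ENNReal.ofReal (K * Real.log (1 / (1/2 - (p:ℝ)))) := by
  obtain ⟨c, C, hc, hC, h⟩ := tauB_upper true
  have h2 := sum_line (β := 1) (c := c) (C := C) (by norm_num) hc hC
    (G := fun R => 1 + Real.log R) (fun R _ => sum_harm R)
  refine ⟨2 * C * 6 + 2 * C * ((1 + c) / c) * 2, by positivity, ?_⟩
  intro p hp
  have hp0 : (0:ℝ) ≤ p := p.2.1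
  obtain ⟨s, hs⟩ : ∃ s : ℝ, s = 1/2 - (p:ℝ) := ⟨_, rfl⟩
  have hs0 : 0 < s := by rw [hs]; linarith
  have hs1 : s ≤ 1/2 := by rw [hs]; linarith
  obtain ⟨t, ht⟩ : ∃ t : ℝ, t = s^(4/3 : ℝ) := ⟨_, rfl⟩
  have ht0 : 0 < t := by rw [ht]; positivity
  have ht1 : t ≤ 1 := by
    rw [ht]; exact Real.rpow_le_one hs0.le (by linarith) (by norm_num)
  have h3 := line_shell true hC h p hp.le
  have hex : ex true + 1/3 = 1 := by
    simp only [ex, if_true]; norm_num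
  rw [hex, ← hs, ← ht] at h3
  refine (h3.trans (h2 t ht0 ht1)).trans ?_
  apply ENNReal.ofReal_le_ofReal
  rw [← hs]
  have e2 : t^(-(1 - 1) : ℝ) = 1 := by norm_num
  rw [e2, mul_one]
  obtain ⟨L, hL⟩ : ∃ L : ℝ, L = Real.log (1 / s) := ⟨_, rfl⟩
  have hlog2 : (1/2 : ℝ) ≤ Real.log 2 := by
    have := Real.log_two_gt_d9
    linarith
  have hL2 : Real.log 2 ≤ L := by
    rw [hL]
    apply Real.log_le_log (by norm_num)
    rw [le_div_iff₀ hs0]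
    linarith
  have h4 : ((⌈1 / t⌉₊ : ℕ) : ℝ) ≤ 2 / t := by
    have := Nat.ceil_lt_add_one (a := 1 / t) (by positivity)
    have h5 : 1 ≤ 1 / t := by rw [le_div_iff₀ ht0]; linarith
    have h6 : 2 / t = 1 / t + 1 / t := by ring
    linarith
  have hcp : (0:ℝ) < ((⌈1 / t⌉₊ : ℕ) : ℝ) := by
    exact_mod_cast Nat.ceil_pos.mpr (by positivity)
  have h5 : Real.log ((⌈1 / t⌉₊ : ℕ) : ℝ) ≤ Real.log 2 + 4/3 * L := by
    calc Real.log ((⌈1 / t⌉₊ : ℕ) : ℝ) ≤ Real.log (2 / t) := Real.log_le_log hcp h4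
      _ = Real.log 2 - Real.log t := Real.log_div (by norm_num) ht0.ne'
      _ = Real.log 2 + 4/3 * L := by
          rw [ht, Real.log_rpow hs0, hL, one_div, Real.log_inv]
          ring
  rw [← hL]
  have h6 : 1 + Real.log ((⌈1 / t⌉₊ : ℕ) : ℝ) ≤ 6 * L := by linarith
  have h7 := mul_le_mul_of_nonneg_left h6 (by positivity : 0 ≤ 2 * C)
  have h8 : 1 ≤ 2 * L := by linarith
  have h9 := mul_le_mul_of_nonneg_left h8 (by positivity : 0 ≤ 2 * C * ((1 + c) / c))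
  calc 2 * C * (1 + Real.log ((⌈1 / t⌉₊ : ℕ) : ℝ)) + 2 * C * ((1 + c) / c)
      ≤ 2 * C * (6 * L) + 2 * C * ((1 + c) / c) * (2 * L) := by linarith
    _ = _ := by ring

end Pool.Agent.H983.BD
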