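import Pool.Agent.H983.BD.Count3
import Pool.Graph.R_seed8.H973R2.Exp3

/-!
Stability of the one-arm probability of the half-plane and of the quarter-plane in the critical
window, and the exponents at the critical point.
-/

set_option maxHeartbeats 1000000

namespace Pool.Agent.H983.BD

open H974 H31K Finset

theorem hasDerivAt_ad (τ : Bool) (q : ℝ) (n : ℕ) :
    HasDerivAt (fun q => ad τ q n) (dAd τ q n) q := by
  have h := Ex_hasDerivAt (fun (q : ℝ) (_ : Edg) => q) (fun _ => 1) q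
    (fun _ => hasDerivAt_id q) (DE τ n) (fun F => ind (Arm n F))
  have e1 : (∑ e ∈ DE τ n, (1:ℝ) * Ex (fun _ => q) ((DE τ n).erase e)
      (fun F => ind (Arm n (insert e F)) - ind (Arm n F))) = dAd τ q n := by
    unfold dAd fD
    apply Finset.sum_congr rfl
    intro e _
    rw [one_mul]
    exact Ex_congr (fun F _ => ind_piv n e F)
  rw [e1] at h
  exact h

/-- The derivative is at most `Λ` times the one-arm probability. -/
theorem dAd_bound {κ B : ℝ} (hκ : 0 < κ) (hB : 0 < B) :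
    ∃ L : ℝ, 0 < L ∧ ∀ (τ : Bool) (n : ℕ) (q : ℝ), 1 ≤ n → H12S.Win q κ n →
      (∀ m : ℕ, 1 ≤ m → m ≤ n → H12S.a4 q m ≤ B * (m:ℝ)^(-(5/4) : ℝ)) →
      dAd τ q n ≤ L * (n:ℝ)^(3/4 : ℝ) * ad τ q n := by
  obtain ⟨C, hC, hd⟩ := dAd_le
  refine ⟨C / κ^8 * (1 + 7 * B) + 133128, by positivity, ?_⟩
  intro τ n q hn hW h4
  have hq0 : 0 ≤ q := by linarith [hW.lo]
  have hq1 : q ≤ 1 := by linarith [hW.hi]
  have harm := ad_nonneg τ hq0 hq1 n
  have hn1 : (1:ℝ) ≤ n := by exact_mod_cast hn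
  have hn0 : (0:ℝ) < n := by linarith
  have hpow1 : 1 ≤ (n:ℝ)^(3/4 : ℝ) := Real.one_le_rpow hn1 (by norm_num)
  rcases lt_or_ge n 64 with hn64 | hn64
  · -- small n
    have h1 : dAd τ q n ≤ ∑ _e ∈ DE τ n, 4 * ad τ q n := by
      unfold dAd
      apply sum_le_sum
      intro e he
      have h2 : q * fD τ q n e ≤ ad τ q n := piv_leD hq0 hq1 he
      have h5 := fD_nonneg τ hq0 hq1 n e
      have h6 := hW.lo
      nlinarith
    rw [sum_const, nsmul_eq_mul] at h1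
    have hcard : ((DE τ n).card : ℝ) ≤ 33282 := by
      have hM : (2 * n + 1) * ((2 * n + 1) * 2) ≤ 33282 := by
        have h0 : 2 * n + 1 ≤ 129 := by omega
        calc (2 * n + 1) * ((2 * n + 1) * 2) ≤ 129 * (129 * 2) :=
              Nat.mul_le_mul h0 (Nat.mul_le_mul_right 2 h0)
          _ = 33282 := by norm_num
      have h2 := card_boxE_le hM
      push_cast at h2
      have h3 : ((DE τ n).card : ℝ) ≤ (boxE n).card := by
        exact_mod_cast Finset.card_le_card (DE_sub τ n)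
      exact h3.trans h2
    have h7 : ((DE τ n).card : ℝ) * (4 * ad τ q n) ≤ 33282 * (4 * ad τ q n) :=
      mul_le_mul_of_nonneg_right hcard (by linarith)
    have h8 : 33282 * (4 * ad τ q n) ≤ 133128 * (n:ℝ)^(3/4 : ℝ) * ad τ q n := by nlinarith
    have h9 : 0 ≤ C / κ^8 * (1 + 7 * B) * (n:ℝ)^(3/4 : ℝ) * ad τ q n := by positivity
    nlinarith
  · have h1 := hd τ q κ n hn64 hW
    have hterm : ∀ k ∈ (range n).filter (fun k => 9 * 2^k ≤ n),
        Real.sqrt (n / (2:ℝ)^k) * ((4:ℝ)^k * H12S.a4 q (3 * 2^k)) ≤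
          B * Real.sqrt n * ((2:ℝ)^(1/4 + 0 : ℝ))^k := by
      intro k hk
      rw [mem_filter] at hk
      have hk2 := hk.2
      have h2k : 0 < 2^k := by positivity
      have h5 := h4 (3 * 2^k) (by omega) (by omega)
      have hx : (0:ℝ) < (2:ℝ)^k := by positivity
      have h6 : (((3 * 2^k : ℕ) : ℝ))^(-(5/4) : ℝ) ≤ ((2:ℝ)^k)^(-(5/4) : ℝ) := by
        push_cast
        apply Real.rpow_le_rpow_of_nonpos hx _ (by norm_num)
        linarith
      have h7 : Real.sqrt (n / (2:ℝ)^k) = Real.sqrt n * ((2:ℝ)^k)^(-(1/2) : ℝ) := by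
        rw [Real.sqrt_div hn0.le, Real.rpow_neg hx.le, ← Real.sqrt_eq_rpow, div_eq_mul_inv]
      have h8 : (4:ℝ)^k = ((2:ℝ)^k)^(2:ℝ) := by
        rw [Real.rpow_two, ← pow_mul, mul_comm, pow_mul]; norm_num
      have h9 : ((2:ℝ)^(1/4 + 0 : ℝ))^k = ((2:ℝ)^k)^(1/4 : ℝ) := by
        rw [add_zero, ← Real.rpow_natCast, ← Real.rpow_natCast, ← Real.rpow_mul (by norm_num),
          ← Real.rpow_mul (by norm_num), mul_comm]
      rw [h7, h8, h9]
      calc Real.sqrt n * ((2:ℝ)^k)^(-(1/2) : ℝ) * (((2:ℝ)^k)^(2:ℝ) * H12S.a4 q (3 * 2^k))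
          ≤ Real.sqrt n * ((2:ℝ)^k)^(-(1/2) : ℝ) * (((2:ℝ)^k)^(2:ℝ) *
            (B * ((2:ℝ)^k)^(-(5/4) : ℝ))) := by
            apply mul_le_mul_of_nonneg_left _ (by positivity)
            apply mul_le_mul_of_nonneg_left _ (by positivity)
            exact h5.trans (mul_le_mul_of_nonneg_left h6 hB.le)
        _ = B * Real.sqrt n * (((2:ℝ)^k)^(-(1/2) : ℝ) * ((2:ℝ)^k)^(2:ℝ) *
            ((2:ℝ)^k)^(-(5/4) : ℝ)) := by ring
        _ = B * Real.sqrt n * ((2:ℝ)^k)^(1/4 : ℝ) := by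
            rw [← Real.rpow_add hx, ← Real.rpow_add hx]
            norm_num
    have hsum : ∑ k ∈ (range n).filter (fun k => 9 * 2^k ≤ n),
        Real.sqrt (n / (2:ℝ)^k) * ((4:ℝ)^k * H12S.a4 q (3 * 2^k)) ≤
          7 * B * (n:ℝ)^(3/4 : ℝ) := by
      refine (sum_le_sum hterm).trans ?_
      rw [← mul_sum]
      have h5 := Pool.Agent.W424.NC.stab_geom0 (le_refl (0:ℝ)) hn
      calc B * Real.sqrt n * ∑ k ∈ (range n).filter (fun k => 9 * 2^k ≤ n),
            ((2:ℝ)^(1/4 + 0 : ℝ))^k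
          ≤ B * Real.sqrt n * (7 * (n:ℝ)^(1/4 + 0 : ℝ)) :=
            mul_le_mul_of_nonneg_left h5 (by positivity)
        _ = 7 * B * ((n:ℝ)^(1/2 : ℝ) * (n:ℝ)^(1/4 : ℝ)) := by
            rw [Real.sqrt_eq_rpow, add_zero]; ring
        _ = 7 * B * (n:ℝ)^(3/4 : ℝ) := by
            rw [← Real.rpow_add hn0]
            norm_num
    have hsq : Real.sqrt n ≤ (n:ℝ)^(3/4 : ℝ) := by
      rw [Real.sqrt_eq_rpow]
      exact Real.rpow_le_rpow_of_exponent_le hn1 (by norm_num)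
    have hc : 0 ≤ C / κ^8 * ad τ q n := by positivity
    calc dAd τ q n ≤ C / κ^8 * ad τ q n * (Real.sqrt n +
        ∑ k ∈ (range n).filter (fun k => 9 * 2^k ≤ n),
          Real.sqrt (n / (2:ℝ)^k) * ((4:ℝ)^k * H12S.a4 q (3 * 2^k))) := h1
      _ ≤ C / κ^8 * ad τ q n * ((n:ℝ)^(3/4 : ℝ) + 7 * B * (n:ℝ)^(3/4 : ℝ)) :=
          mul_le_mul_of_nonneg_left (add_le_add hsq hsum) hc
      _ = C / κ^8 * (1 + 7 * B) * (n:ℝ)^(3/4 : ℝ) * ad τ q n := by ring
      _ ≤ (C / κ^8 * (1 + 7 * B) + 133128) * (n:ℝ)^(3/4 : ℝ) * ad τ q n := by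
          apply mul_le_mul_of_nonneg_right _ harm
          apply mul_le_mul_of_nonneg_right _ (by linarith)
          linarith

/-- Gronwall's inequality. -/
theorem gronD {τ : Bool} {n : ℕ} {a b Λ : ℝ} (hab : a ≤ b)
    (h : ∀ x, a ≤ x → x ≤ b → dAd τ x n ≤ Λ * ad τ x n) :
    ad τ b n ≤ Real.exp (Λ * (b - a)) * ad τ a n := by
  have hder : ∀ x, a ≤ x → x ≤ b → HasDerivAt (fun x => -(Real.exp (-(Λ * x)) * ad τ x n))
      (-(Real.exp (-(Λ * x)) * (-(Λ * 1)) * ad τ x n + Real.exp (-(Λ * x)) * dAd τ x n)) x := by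
    intro x _ _
    have h1 : HasDerivAt (fun x => Real.exp (-(Λ * x))) (Real.exp (-(Λ * x)) * (-(Λ * 1))) x :=
      (((hasDerivAt_id x).const_mul Λ).neg).exp
    exact (h1.mul (hasDerivAt_ad τ x n)).neg
  have h2 := mono_of_hasDerivAt hab hder (by
    intro x h1 h2
    have h3 := h x h1 h2
    have h4 := mul_le_mul_of_nonneg_left h3 (Real.exp_pos (-(Λ * x))).le
    nlinarith)
  have h3 : Real.exp (-(Λ * b)) * ad τ b n ≤ Real.exp (-(Λ * a)) * ad τ a n := by linarith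
  have h4 : Real.exp (Λ * (b - a)) = Real.exp (Λ * b) * Real.exp (-(Λ * a)) := by
    rw [← Real.exp_add]; congr 1; ring
  have h5 : Real.exp (Λ * b) * Real.exp (-(Λ * b)) = 1 := by
    rw [← Real.exp_add, add_neg_cancel, Real.exp_zero]
  calc ad τ b n = (Real.exp (Λ * b) * Real.exp (-(Λ * b))) * ad τ b n := by rw [h5, one_mul]
    _ = Real.exp (Λ * b) * (Real.exp (-(Λ * b)) * ad τ b n) := by ring
    _ ≤ Real.exp (Λ * b) * (Real.exp (-(Λ * a)) * ad τ a n) :=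
        mul_le_mul_of_nonneg_left h3 (Real.exp_pos _).le
    _ = Real.exp (Λ * (b - a)) * ad τ a n := by rw [h4]; ring

/-- Stability in the critical window. -/
theorem adS : ∃ κ b : ℝ, 0 < κ ∧ 0 < b ∧ ∀ n : ℕ, 1 ≤ n → ∀ q : ℝ,
    |q - 1/2| ≤ b * (n:ℝ)^(-(3/4 : ℝ)) → H12S.Win q κ n ∧
      ∀ τ : Bool, ad τ q n ≤ 3 * ad τ (1/2) n ∧ ad τ (1/2) n ≤ 3 * ad τ q n := by
  obtain ⟨κ0, b, c, C, hκ0, hb, hc, hC, hnear⟩ := Pool.Agent.W424.NC.nearS
  obtain ⟨L, hL, hd⟩ := dAd_bound hκ0 hC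
  refine ⟨κ0, min b (1 / L), hκ0, lt_min hb (by positivity), ?_⟩
  intro n hn q hq
  have hn1 : (1:ℝ) ≤ n := by exact_mod_cast hn
  have hn0 : (0:ℝ) < n := by linarith
  have hk1 : min b (1 / L) ≤ b := min_le_left _ _
  have hk2 : min b (1 / L) ≤ 1 / L := min_le_right _ _
  have hp0 : 0 < (n:ℝ)^(-(3/4 : ℝ)) := by positivity
  have hp1 : 0 < (n:ℝ)^(3/4 : ℝ) := by positivity
  have hwin : ∀ q' : ℝ, |q' - 1/2| ≤ min b (1 / L) * (n:ℝ)^(-(3/4 : ℝ)) → H12S.Win q' κ0 n ∧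
        ∀ m : ℕ, 1 ≤ m → m ≤ n → H12S.a4 q' m ≤ C * (m:ℝ)^(-(5/4) : ℝ) := by
    intro q' hq'
    have h := hnear n hn q' (hq'.trans (mul_le_mul_of_nonneg_right hk1 hp0.le))
    exact ⟨h.1, fun m h1 h2 => (h.2 m h1 h2).2⟩
  refine ⟨(hwin q hq).1, ?_⟩
  intro τ
  obtain ⟨δ, hδ⟩ : ∃ δ, δ = min b (1 / L) * (n:ℝ)^(-(3/4 : ℝ)) := ⟨_, rfl⟩
  rw [← hδ] at hq hwin
  obtain ⟨Λ, hΛ⟩ : ∃ Λ, Λ = L * (n:ℝ)^(3/4 : ℝ) := ⟨_, rfl⟩
  have hΛ0 : 0 ≤ Λ := by rw [hΛ]; positivity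
  have hδΛ : Λ * δ ≤ 1 := by
    have h1 : δ ≤ (1 / L) * (n:ℝ)^(-(3/4 : ℝ)) := by
      rw [hδ]; exact mul_le_mul_of_nonneg_right hk2 hp0.le
    have h2 := mul_le_mul_of_nonneg_left h1 hΛ0
    refine h2.trans (le_of_eq ?_)
    have h3 : (n:ℝ)^(3/4 : ℝ) * (n:ℝ)^(-(3/4 : ℝ)) = 1 := by
      rw [← Real.rpow_add hn0]; norm_num
    have h4 : L * (1 / L) = 1 := by field_simp
    rw [hΛ]
    calc L * (n:ℝ)^(3/4 : ℝ) * (1 / L * (n:ℝ)^(-(3/4 : ℝ)))
        = (L * (1 / L)) * ((n:ℝ)^(3/4 : ℝ) * (n:ℝ)^(-(3/4 : ℝ))) := by ring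
      _ = 1 := by rw [h3, h4, one_mul]
  obtain ⟨hW, _⟩ := hwin q hq
  have hq0 : 0 ≤ q := by linarith [hW.lo]
  have hq1 : q ≤ 1 := by linarith [hW.hi]
  have harm := ad_nonneg τ hq0 hq1 n
  have harm2 := ad_nonneg τ (q := 1/2) (by norm_num) (by norm_num) n
  have hexp : ∀ t : ℝ, t ≤ 1 → Real.exp t ≤ 3 := by
    intro t ht
    have h1 := Real.exp_le_exp.mpr ht
    have h2 := Real.exp_one_lt_d9
    linarith
  have hab := abs_le.mp hq
  have hd' : ∀ x, |x - 1/2| ≤ δ → dAd τ x n ≤ Λ * ad τ x n := by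
    intro x hx
    obtain ⟨hWx, h4x⟩ := hwin x hx
    rw [hΛ]
    exact hd τ n x hn hWx h4x
  rcases le_total (1/2) q with h | h
  · constructor
    · have h1 := gronD (τ := τ) (n := n) (Λ := Λ) h (fun x h1 h2 =>
        hd' x (by rw [abs_le]; constructor <;> linarith))
      refine h1.trans (mul_le_mul_of_nonneg_right (hexp _ ?_) harm2)
      have h3 : Λ * (q - 1/2) ≤ Λ * δ := mul_le_mul_of_nonneg_left hab.2 hΛ0
      linarith
    · have h1 := ad_mono_param τ (by norm_num) h hq1 n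
      linarith
  · constructor
    · have h1 := ad_mono_param τ hq0 h (by norm_num) n
      linarith
    · have h1 := gronD (τ := τ) (n := n) (Λ := Λ) h (fun x h1 h2 =>
        hd' x (by rw [abs_le]; constructor <;> linarith))
      refine h1.trans (mul_le_mul_of_nonneg_right (hexp _ ?_) harm)
      have h3 : Λ * (1/2 - q) ≤ Λ * δ := mul_le_mul_of_nonneg_left (by linarith) hΛ0
      linarith

/-- The exponent at the critical point. -/
noncomputable def ex (τ : Bool) : ℝ := if τ then 2/3 else 1/3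

theorem ex_pos (τ : Bool) : 0 < ex τ := by
  cases τ <;> simp only [ex, if_true, if_false, Bool.false_eq_true] <;> norm_num

theorem ex_le (τ : Bool) : ex τ ≤ 1 := by
  cases τ <;> simp only [ex, if_true, if_false, Bool.false_eq_true] <;> norm_num

theorem DE_eq_ES_true (n : ℕ) : DE true n = H973.ES (H973.QT (n:ℤ)) := by
  ext ⟨x, y, b⟩
  rw [H973.mem_ES, H973.mem_QT, H973.mem_QT]
  unfold DE
  cases b
  · rw [mem_RE_false, src_mk, tgt_false]
    simp only [lf, if_true]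
    omega
  · rw [mem_RE_true, src_mk, tgt_true]
    simp only [lf, if_true]
    omega

theorem DE_eq_ES_false (n : ℕ) : DE false n = H973.ES (H973.HB 0 (-1) (n:ℤ)) := by
  ext ⟨x, y, b⟩
  rw [H973.mem_ES, H973.mem_HB, H973.mem_HB]
  have h1 : ∀ z : ℤ, (0:ℝ) * (x:ℝ) + (-1) * (z:ℝ) ≤ 0 ↔ 0 ≤ z := by
    intro z
    rw [zero_mul, zero_add, neg_one_mul, neg_nonpos]
    exact_mod_cast Iff.rfl
  have h2 : ∀ z w : ℤ, (0:ℝ) * (z:ℝ) + (-1) * (w:ℝ) ≤ 0 ↔ 0 ≤ w := by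
    intro z w
    rw [zero_mul, zero_add, neg_one_mul, neg_nonpos]
    exact_mod_cast Iff.rfl
  unfold DE
  cases b
  · rw [mem_RE_false, src_mk, tgt_false, h2, h2]
    simp only [lf, if_false, Bool.false_eq_true]
    omega
  · rw [mem_RE_true, src_mk, tgt_true, h2, h2]
    simp only [lf, if_false, Bool.false_eq_true]
    omega

/-- The two one-arm events agree. -/
theorem armC_iff {T : Finset Vtx} {n : ℕ} (h0 : ((0, 0) : Vtx) ∈ T)
    (hT : H973.ES T ⊆ boxE n) {F : Finset Edg} (hF : F ⊆ H973.ES T)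
    (hbox : ∀ v ∈ T, inR (-(n:ℤ)) n (-n) n v) :
    H973.armC T (0, 0) n F ↔ Arm n F := by
  have e : (↑F ∩ ↑(boxE n) : Set Edg) = ↑F :=
    Set.inter_eq_left.mpr (by exact_mod_cast hF.trans hT)
  unfold H973.armC Arm
  rw [e]
  constructor
  · rintro ⟨y, h1, h2, h3⟩
    refine ⟨y, ⟨hbox y h1, ?_⟩, h3⟩
    unfold H973.onBX at h2
    simp only at h2
    omega
  · rintro ⟨v, ⟨h1, h2⟩, h3⟩
    refine ⟨v, H973.reach_mem (F := (↑F : Set Edg)) (fun e he => hF he) h0 h3, ?_, h3⟩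
    unfold inR at h1
    unfold H973.onBX
    simp only
    omega

theorem ad_crit : ∃ c C : ℝ, 0 < c ∧ 0 < C ∧ ∀ (τ : Bool) (n : ℕ), 1 ≤ n →
    c * (n:ℝ)^(-ex τ) ≤ ad τ (1/2) n ∧ ad τ (1/2) n ≤ C * (n:ℝ)^(-ex τ) := by
  obtain ⟨c, C, hc, hC, h⟩ := H973.exponents
  refine ⟨c, C, hc, hC, ?_⟩
  intro τ n hn
  have hn0 : (0:ℝ) < n := by exact_mod_cast hn
  obtain ⟨hQ, hH⟩ := h n hn
  have hH' := hH 0 (-1) (Or.inr (by norm_num))
  have key : ∀ {a A : ℝ}, (c ≤ (n:ℝ)^a * A ∧ (n:ℝ)^a * A ≤ C) →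
      c * (n:ℝ)^(-a) ≤ A ∧ A ≤ C * (n:ℝ)^(-a) := by
    rintro a A ⟨h1, h2⟩
    have h3 : 0 < (n:ℝ)^(-a) := Real.rpow_pos_of_pos hn0 _
    have h4 : (n:ℝ)^(-a) * (n:ℝ)^a = 1 := by
      rw [← Real.rpow_add hn0, neg_add_cancel, Real.rpow_zero]
    have h5 := mul_le_mul_of_nonneg_left h1 h3.le
    have h6 := mul_le_mul_of_nonneg_left h2 h3.le
    rw [← mul_assoc, h4, one_mul] at h5 h6
    constructor <;> linarith
  cases τ
  · have e : ad false (1/2) n = H973.armP (H973.HB 0 (-1) n) n := by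
      unfold ad H973.armP
      rw [DE_eq_ES_false]
      apply Pr_congr
      intro F hF
      rw [armC_iff _ _ hF _]
      · rw [H973.mem_HB]; simp
      · rw [← DE_eq_ES_false]; exact DE_sub false n
      · intro v hv
        rw [H973.mem_HB] at hv
        unfold inR
        omega
    rw [e]
    simpa only [ex, if_false, Bool.false_eq_true] using key hH'
  · have e : ad true (1/2) n = H973.armP (H973.QT n) n := by
      unfold ad H973.armP
      rw [DE_eq_ES_true]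
      apply Pr_congr
      intro F hF
      rw [armC_iff _ _ hF _]
      · rw [H973.mem_QT]; simp
      · rw [← DE_eq_ES_true]; exact DE_sub true n
      · intro v hv
        rw [H973.mem_QT] at hv
        unfold inR
        omega
    rw [e]
    simpa only [ex, if_true] using key hQ

end Pool.Agent.H983.BD
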