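import Pool.Agent.H983.BD.Sup

/-!
The one-arm probabilities of the half-plane and of the quarter-plane below the critical point.
-/

set_option maxHeartbeats 1000000

namespace Pool.Agent.H983.BD

open H974 H31K Finset Pool.Agent.W424.NC

/-- The arm beyond the correlation length. -/
theorem arm_farD (τ : Bool) {p : ℝ} (h0 : 0 ≤ p) (h1 : p ≤ 1) {N : ℕ} (hN : 2 ≤ N)
    (he : eps (1 - p) N ≤ 1/100) {j : ℕ} (hj : 1 ≤ j) :
    ad τ p (2 * (2^j * N)) ≤ ad τ p N * (1/4)^(2^j) := by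
  obtain ⟨M, hM⟩ : ∃ M : ℕ, M = 2^j * N := ⟨_, rfl⟩
  have hM2 : 2 * N ≤ M := by
    rw [hM]
    apply Nat.mul_le_mul_right
    calc 2 = 2^1 := rfl
      _ ≤ 2^j := Nat.pow_le_pow_right (by norm_num) hj
  have ok := okq h0 h1
  have h3 := pr_nblk_pow h0 h1 hN he j (S := annE (2^j * N - 1) (2 * (2^j * N) - 1))
    (Finset.Subset.refl _)
  rw [← hM] at h3 ⊢
  obtain ⟨S, hS⟩ : ∃ S : Finset Edg, S = DE τ (2 * M) := ⟨_, rfl⟩
  obtain ⟨A, hA⟩ : ∃ A : Finset Edg, A = annE (M - 1) (2 * M - 1) := ⟨_, rfl⟩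
  have s1 : DE τ N ⊆ S := by rw [hS]; exact DE_mono τ (by omega)
  have s2 : S ∩ A ⊆ S := Finset.inter_subset_left
  have hd : Disjoint (DE τ N) (S ∩ A) := by
    apply Finset.disjoint_of_subset_right (Finset.inter_subset_right)
    rw [hA]
    unfold annE
    apply Finset.disjoint_of_subset_left
      ((DE_sub τ N).trans (boxE_mono (show N ≤ M - 1 by omega)))
    exact Finset.disjoint_sdiff
  have hloc : ∀ F, F ⊆ S → (¬ Blk ((M - 1 : ℕ) : ℤ) ((2 * M - 1 : ℕ) : ℤ) F ↔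
      ¬ Blk ((M - 1 : ℕ) : ℤ) ((2 * M - 1 : ℕ) : ℤ) (F ∩ (S ∩ A))) := by
    intro F hF
    have e : F ∩ (S ∩ A) = F ∩ A := by
      rw [← Finset.inter_assoc, Finset.inter_eq_left.mpr hF]
    rw [e]
    exact Blk_loc (by omega) (by rw [hA]) F
  have h4 := Pr_indep (p := fun _ => p) s1 s2 hd (A := Arm N)
    (B := fun F => ¬ Blk ((M - 1 : ℕ) : ℤ) ((2 * M - 1 : ℕ) : ℤ) F)
    (fun F hF => Arm_loc (by rw [← hS]; exact hF))
    hloc
  have h5 : Pr (fun _ => p) S (fun F => ¬ Blk ((M - 1 : ℕ) : ℤ) ((2 * M - 1 : ℕ) : ℤ) F) ≤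
      Pr (fun _ => p) A
        (fun F => ¬ Blk ((M - 1 : ℕ) : ℤ) ((2 * M - 1 : ℕ) : ℤ) F) := by
    rw [Pr_local s2 hloc]
    apply Pr_mono_set ok Finset.inter_subset_right
    intro F G hFG _ hF
    unfold Blk at hF ⊢
    rw [not_and_or, not_not, not_not] at hF ⊢
    rcases hF with (h | h) | (h | h)
    · exact Or.inl (Or.inl (h.mono hFG))
    · exact Or.inl (Or.inr (h.mono hFG))
    · exact Or.inr (Or.inl (h.mono hFG))
    · exact Or.inr (Or.inr (h.mono hFG))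
  rw [← hA] at h3
  have e1 : Pr (fun _ => p) S (Arm N) = ad τ p N := by
    rw [hS]; exact pr_ad τ p (by omega)
  rw [e1] at h4
  have h6 : ad τ p (2 * M) ≤ Pr (fun _ => p) S (fun F => Arm N F ∧
      ¬ Blk ((M - 1 : ℕ) : ℤ) ((2 * M - 1 : ℕ) : ℤ) F) := by
    unfold ad
    rw [← hS]
    apply Pr_mono ok
    rintro F _ ⟨v, hv, hr⟩
    constructor
    · obtain ⟨w, k1, k2, k3⟩ := first_exit (a := -(N:ℤ)) (b := N) (c := -(N:ℤ)) (d := N)
        (u := (0, 0)) (by unfold inR; simp) hr (by unfold onB at hv; push_cast at hv; omega)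
      refine ⟨w, ⟨k1, k2⟩, k3.mono ?_⟩
      rintro e ⟨⟨k4, -⟩, k5⟩
      exact ⟨k4, k5⟩
    · apply not_blk_of_arm (v := v) (by positivity) (by omega) (hr.mono Set.inter_subset_left)
      unfold onB at hv
      push_cast at hv
      omega
  calc ad τ p (2 * M) ≤ _ := h6
    _ = _ := h4
    _ ≤ _ := mul_le_mul_of_nonneg_left (h5.trans h3) (ad_nonneg τ h0 h1 _)

/-- Upper bound at and below the critical point. -/
theorem sub_upperD (τ : Bool) : ∃ c C : ℝ, 0 < c ∧ 0 < C ∧ ∀ p : ℝ, 0 ≤ p → p ≤ 1/2 →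
    ∀ n : ℕ, 1 ≤ n →
      ad τ p n ≤ C * (n:ℝ)^(-ex τ) * Real.exp (-(c * (n * (1/2 - p)^(4/3 : ℝ)))) := by
  obtain ⟨E, hE, hfar⟩ := farN
  obtain ⟨cc, Cc, hcc, hCc, harm⟩ := ad_crit
  obtain ⟨α, hα⟩ : ∃ α : ℝ, α = ex τ := ⟨_, rfl⟩
  have hα0 : 0 < α := by rw [hα]; exact ex_pos τ
  have hα1 : α ≤ 1 := by rw [hα]; exact ex_le τ
  refine ⟨1 / (8 * E), 8 * Cc, by positivity, by positivity, ?_⟩
  intro p hp0 hp n hn
  rw [← hα]
  have hnr : (1:ℝ) ≤ n := by exact_mod_cast hn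
  have hn0 : (0:ℝ) < n := by linarith
  have hpn : 0 < (n:ℝ)^(-α) := by positivity
  have hcr : ad τ p n ≤ Cc * (n:ℝ)^(-α) := by
    have := (ad_mono_param τ hp0 hp (by norm_num) n).trans (harm τ n hn).2
    rw [← hα] at this
    exact this
  rcases hp.eq_or_lt with heq | hlt
  · subst heq
    rw [sub_self, Real.zero_rpow (by norm_num), mul_zero, mul_zero, neg_zero, Real.exp_zero,
      mul_one]
    have : 0 < Cc * (n:ℝ)^(-α) := by positivity
    linarith
  · obtain ⟨N, hN2, hNE, hN1, heps⟩ := hfar p hp0 hlt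
    obtain ⟨t, ht⟩ : ∃ t : ℝ, t = (1/2 - p)^(4/3 : ℝ) := ⟨_, rfl⟩
    have ht0 : 0 < t := by rw [ht]; exact Real.rpow_pos_of_pos (by linarith) _
    rw [← ht] at hNE hN1 ⊢
    have hNr : (0:ℝ) < N := by
      have : 0 < N := by omega
      exact_mod_cast this
    rcases le_or_gt n (4 * N) with hle | hgt
    · have h1 : Real.exp (-1) ≤ Real.exp (-(1 / (8 * E) * (n * t))) := by
        apply Real.exp_le_exp.mpr
        have h2 : (n:ℝ) * t ≤ 4 * E := by
          have : (n:ℝ) ≤ 4 * N := by exact_mod_cast hle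
          calc (n:ℝ) * t ≤ (4 * N) * t := mul_le_mul_of_nonneg_right this ht0.le
            _ = 4 * (N * t) := by ring
            _ ≤ 4 * E := by linarith
        have h3 : 1 / (8 * E) * (n * t) ≤ 1 / (8 * E) * (4 * E) :=
          mul_le_mul_of_nonneg_left h2 (by positivity)
        have h4 : 1 / (8 * E) * (4 * E) = 1/2 := by field_simp; norm_num
        linarith
      have h5 : (1/8 : ℝ) ≤ Real.exp (-1) := by
        rw [Real.exp_neg, one_div]
        apply inv_anti₀ (Real.exp_pos _)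
        have := Real.exp_one_lt_d9
        linarith
      calc ad τ p n ≤ Cc * (n:ℝ)^(-α) := hcr
        _ = (8 * Cc * (n:ℝ)^(-α)) * (1/8) := by ring
        _ ≤ _ := mul_le_mul_of_nonneg_left (h5.trans h1) (by positivity)
    · obtain ⟨q, hq⟩ : ∃ q : ℕ, q = n / (2 * N) := ⟨_, rfl⟩
      have hq2 : 2 ≤ q := by
        rw [hq, Nat.le_div_iff_mul_le (by omega)]
        omega
      obtain ⟨j, hj⟩ : ∃ j : ℕ, j = Nat.log 2 q := ⟨_, rfl⟩
      have hj1 : 1 ≤ j := by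
        rw [hj]
        exact Nat.le_log_of_pow_le (by norm_num) (by omega)
      have hj2 : 2^j ≤ q := by rw [hj]; exact Nat.pow_log_le_self 2 (by omega)
      have hj3 : q < 2^(j+1) := by rw [hj]; exact Nat.lt_pow_succ_log_self (by norm_num) q
      have h3 : q * (2 * N) ≤ n := by rw [hq]; exact Nat.div_mul_le_self n (2*N)
      have h4 : n < (q + 1) * (2 * N) := by
        have := Nat.lt_mul_div_succ n (show 0 < 2 * N by omega)
        rw [← hq] at this
        calc n < 2 * N * (q + 1) := this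
          _ = (q + 1) * (2 * N) := by ring
      have h5 : 2 * (2^j * N) ≤ n := by
        calc 2 * (2^j * N) = 2^j * (2 * N) := by ring
          _ ≤ q * (2 * N) := Nat.mul_le_mul_right _ hj2
          _ ≤ n := h3
      have h6 := (ad_anti τ hp0 (by linarith) h5).trans
        (arm_farD τ hp0 (by linarith) hN2 heps hj1)
      obtain ⟨y, hy⟩ : ∃ y : ℝ, y = (n:ℝ) / N := ⟨_, rfl⟩
      have hy1 : 1 ≤ y := by
        rw [hy, le_div_iff₀ hNr, one_mul]
        have : N ≤ n := by omega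
        exact_mod_cast this
      have h7 : y / 4 ≤ (2:ℝ)^j := by
        have : n ≤ 2^j * (4 * N) := by
          have h8 : (q + 1) * (2 * N) ≤ 2^(j+1) * (2 * N) := Nat.mul_le_mul_right _ hj3
          have e : 2^(j+1) * (2 * N) = 2^j * (4 * N) := by ring
          omega
        have h8 : (n:ℝ) ≤ 2^j * (4 * N) := by exact_mod_cast this
        rw [hy, div_div, div_le_iff₀ (by positivity)]
        linarith
      have h8 := quarter_pow_le h7
      have h9 : (N:ℝ)^(-α) ≤ y * (n:ℝ)^(-α) := by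
        have e : (N:ℝ)^(-α) = y^α * (n:ℝ)^(-α) := by
          rw [hy, Real.div_rpow hn0.le hNr.le, Real.rpow_neg hn0.le, Real.rpow_neg hNr.le]
          field_simp
        rw [e]
        apply mul_le_mul_of_nonneg_right _ hpn.le
        calc y^α ≤ y^(1:ℝ) := Real.rpow_le_rpow_of_exponent_le hy1 hα1
          _ = y := Real.rpow_one y
      have h10 : ad τ p N ≤ Cc * (y * (n:ℝ)^(-α)) := by
        have h11 := (ad_mono_param τ hp0 hp (by norm_num) N).trans (harm τ N (by omega)).2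
        rw [← hα] at h11
        exact h11.trans (mul_le_mul_of_nonneg_left h9 hCc.le)
      have h11 : Real.exp (-(y/8)) ≤ Real.exp (-(1 / (8 * E) * (n * t))) := by
        apply Real.exp_le_exp.mpr
        have h12 : (n:ℝ) * t ≤ E * y := by
          calc (n:ℝ) * t = y * (N * t) := by rw [hy]; field_simp
            _ ≤ y * E := mul_le_mul_of_nonneg_left hNE (by linarith)
            _ = E * y := mul_comm _ _
        have h13 : 1 / (8 * E) * (n * t) ≤ 1 / (8 * E) * (E * y) :=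
          mul_le_mul_of_nonneg_left h12 (by positivity)
        have h14 : 1 / (8 * E) * (E * y) = y / 8 := by field_simp
        linarith
      calc ad τ p n ≤ ad τ p N * (1/4)^(2^j) := h6
        _ ≤ (Cc * (y * (n:ℝ)^(-α))) * Real.exp (-(y/4)) :=
            mul_le_mul h10 h8 (by positivity) (by positivity)
        _ = Cc * (n:ℝ)^(-α) * (y * Real.exp (-(y/4))) := by ring
        _ ≤ Cc * (n:ℝ)^(-α) * (8 * Real.exp (-(y/8))) :=
            mul_le_mul_of_nonneg_left (mul_exp_le y) (by positivity)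
        _ ≤ Cc * (n:ℝ)^(-α) * (8 * Real.exp (-(1 / (8 * E) * (n * t)))) := by
            apply mul_le_mul_of_nonneg_left _ (by positivity)
            linarith
        _ = _ := by ring

theorem ad_pos (τ : Bool) {q : ℝ} (h0 : 0 < q) (h1 : q ≤ 1) (n : ℕ) : 0 < ad τ q n := by
  refine lt_of_lt_of_le (pow_pos h0 _) (Pr_full h0.le h1 (DE τ n) ?_)
  refine ⟨((n:ℤ), 0), ?_, ?_⟩
  · refine ⟨?_, Or.inr (Or.inl rfl)⟩
    unfold inR
    simp only
    omega
  apply reach_line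
  intro x h2 h3
  have l := lf_bd τ (n := (n:ℤ)) (by positivity)
  have h4 : ((x, (0:ℤ), true) : Edg) ∈ DE τ n := by
    unfold DE
    simp only [mem_RE_true]; omega
  exact ⟨by exact_mod_cast h4, by exact_mod_cast DE_sub τ n h4⟩

/-- The choice of the scale. -/
theorem nearGD (τ : Bool) : ∃ κ a C : ℝ, 0 < κ ∧ 0 < a ∧ 0 < C ∧ ∀ (p : ℝ) (n : ℕ), 1/4 ≤ p →
    p ≤ 1/2 → 1 ≤ n → ∃ m : ℕ, 1 ≤ m ∧ m ≤ n ∧ H12S.Win p κ (4 * m) ∧
      (∀ k : ℕ, 1 ≤ k → k ≤ 4 * m → a * (k:ℝ)^(-ex τ) ≤ ad τ p k) ∧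
      (m = n ∨ 1 ≤ C * (m * (1/2 - p)^(4/3 : ℝ))) := by
  obtain ⟨κ, b, hκ, hb, hst⟩ := adS
  obtain ⟨cc, Cc, hcc, hCc, harm⟩ := ad_crit
  obtain ⟨κ2, hκ2, hbase⟩ := win_base
  obtain ⟨α, hα⟩ : ∃ α : ℝ, α = ex τ := ⟨_, rfl⟩
  have hα0 : 0 < α := by rw [hα]; exact ex_pos τ
  have hα1 : α ≤ 1 := by rw [hα]; exact ex_le τ
  obtain ⟨b1, hb1⟩ : ∃ b1 : ℝ, b1 = b^(4/3 : ℝ) := ⟨_, rfl⟩
  have hb10 : 0 < b1 := by rw [hb1]; positivity
  obtain ⟨ap, hap, hap2⟩ : ∃ ap : ℝ, 0 < ap ∧ ∀ (p : ℝ) (k : ℕ), 1/4 ≤ p → p ≤ 1/2 → k ≤ 4 →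
      ap ≤ ad τ p k := by
    refine ⟨_, ad_pos τ (q := 1/4) (by norm_num) (by norm_num) 4, fun p k h1 h2 h3 => ?_⟩
    exact (ad_mono_param τ (by norm_num) h1 (by linarith) _).trans
      (ad_anti τ (by linarith) (by linarith) h3)
  rw [← hα]
  refine ⟨min κ κ2, min (cc / 3) ap, 8 / b1, lt_min hκ hκ2,
    lt_min (by positivity) hap, by positivity, ?_⟩
  intro p n hp hp1 hn
  obtain ⟨s, hs⟩ : ∃ s : ℝ, s = 1/2 - p := ⟨_, rfl⟩
  have hs0 : 0 ≤ s := by rw [hs]; linarith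
  obtain ⟨H, hH⟩ : ∃ H : ℝ, H = s^(4/3 : ℝ) := ⟨_, rfl⟩
  have hH0 : 0 ≤ H := by rw [hH]; positivity
  rw [← hs, ← hH]
  have hsH : s = H^(3/4 : ℝ) := by
    rw [hH, ← Real.rpow_mul hs0]
    norm_num
  have hbb : b = b1^(3/4 : ℝ) := by
    rw [hb1, ← Real.rpow_mul hb.le]
    norm_num
  -- good scales
  have good : ∀ m : ℕ, 1 ≤ m → 4 * (m:ℝ) * H ≤ b1 → H12S.Win p (min κ κ2) (4 * m) ∧
      (∀ k : ℕ, 1 ≤ k → k ≤ 4 * m → min (cc / 3) ap * (k:ℝ)^(-α) ≤ ad τ p k) := by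
    intro m hm hmH
    have hall : ∀ k : ℕ, 1 ≤ k → k ≤ 4 * m → H12S.Win p κ k ∧
        ∀ τ, ad τ p k ≤ 3 * ad τ (1/2) k ∧ ad τ (1/2) k ≤ 3 * ad τ p k := by
      intro k hk1 hk2
      apply hst k hk1
      have hk0 : (0:ℝ) < k := by exact_mod_cast hk1
      have hk2' : (k:ℝ) ≤ 4 * m := by exact_mod_cast hk2
      rw [abs_sub_comm, abs_of_nonneg (by linarith), ← hs, Real.rpow_neg hk0.le,
        ← div_eq_mul_inv, le_div_iff₀ (by positivity)]
      rw [hsH, ← Real.mul_rpow hH0 hk0.le, hbb]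
      apply Real.rpow_le_rpow (by positivity) _ (by norm_num)
      calc H * (k:ℝ) ≤ H * (4 * m) := mul_le_mul_of_nonneg_left hk2' hH0
        _ = 4 * (m:ℝ) * H := by ring
        _ ≤ b1 := hmH
    constructor
    · have hW := (hall (4 * m) (by omega) le_rfl).1
      exact ⟨lt_min hκ hκ2, (min_le_left _ _).trans hW.kle, hW.lo, hW.hi,
        fun h h1 h2 => (min_le_left _ _).trans (hW.pri h h1 h2),
        fun h h1 h2 => (min_le_left _ _).trans (hW.dua h h1 h2)⟩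
    · intro k hk1 hk2
      have h3 := ((hall k hk1 hk2).2 τ).2
      have h4 := (harm τ k hk1).1
      rw [← hα] at h4
      have h5 : min (cc / 3) ap * (k:ℝ)^(-α) ≤ cc / 3 * (k:ℝ)^(-α) :=
        mul_le_mul_of_nonneg_right (min_le_left _ _) (by positivity)
      linarith
  by_cases hA : 4 * (n:ℝ) * H ≤ b1
  · exact ⟨n, hn, le_rfl, (good n hn hA).1, (good n hn hA).2, Or.inl rfl⟩
  · push Not at hA
    have hHp : 0 < H := by
      rcases hH0.lt_or_eq with h | h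
      · exact h
      · exfalso
        rw [← h] at hA
        linarith
    by_cases hB : 4 * H ≤ b1
    · obtain ⟨x, hx⟩ : ∃ x : ℝ, x = b1 / (4 * H) := ⟨_, rfl⟩
      have hx1 : 1 ≤ x := by rw [hx, le_div_iff₀ (by positivity)]; linarith
      have hxn : x < n := by
        rw [hx, div_lt_iff₀ (by positivity)]
        linarith
      have hxH : x * (4 * H) = b1 := by rw [hx, div_mul_cancel₀ _ (by positivity)]
      have hm1 : 1 ≤ ⌊x⌋₊ := Nat.le_floor (by exact_mod_cast hx1)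
      have hm2 : (⌊x⌋₊ : ℝ) ≤ x := Nat.floor_le (by linarith)
      have hm3 : x < ⌊x⌋₊ + 1 := Nat.lt_floor_add_one x
      have hm4 : (1:ℝ) ≤ (⌊x⌋₊ : ℝ) := by exact_mod_cast hm1
      have hmH : 4 * ((⌊x⌋₊ : ℕ) : ℝ) * H ≤ b1 := by
        calc 4 * ((⌊x⌋₊ : ℕ) : ℝ) * H ≤ 4 * x * H := by
              apply mul_le_mul_of_nonneg_right _ hH0
              linarith
          _ = b1 := by rw [← hxH]; ring
      refine ⟨⌊x⌋₊, hm1, ?_, (good _ hm1 hmH).1, (good _ hm1 hmH).2, Or.inr ?_⟩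
      · have : ((⌊x⌋₊ : ℕ) : ℝ) < n := lt_of_le_of_lt hm2 hxn
        exact_mod_cast this.le
      · rw [div_mul_eq_mul_div, le_div_iff₀ hb10, one_mul, ← hxH]
        calc x * (4 * H) ≤ (2 * (⌊x⌋₊ : ℝ)) * (4 * H) :=
              mul_le_mul_of_nonneg_right (by linarith) (by positivity)
          _ = 8 * ((⌊x⌋₊ : ℝ) * H) := by ring
    · push Not at hB
      refine ⟨1, le_rfl, hn, ?_, ?_, Or.inr ?_⟩
      · have hW := hbase p hp (by linarith)
        exact ⟨lt_min hκ hκ2, (min_le_right _ _).trans hW.kle, hW.lo, hW.hi,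
          fun h h1 h2 => (min_le_right _ _).trans (hW.pri h h1 (by omega)),
          fun h h1 h2 => (min_le_right _ _).trans (hW.dua h h1 (by omega))⟩
      · intro k hk1 hk2
        have hk1' : (1:ℝ) ≤ k := by exact_mod_cast hk1
        calc min (cc / 3) ap * (k:ℝ)^(-α)
            ≤ ap * 1 := by
              apply mul_le_mul (min_le_right _ _) _ (by positivity) hap.le
              exact Real.rpow_le_one_of_one_le_of_nonpos hk1' (by linarith)
          _ = ap := mul_one _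
          _ ≤ ad τ p k := hap2 p k hp hp1 (by omega)
      · rw [div_mul_eq_mul_div, le_div_iff₀ hb10]
        push_cast
        linarith

/-- Lower bound below the critical point. -/
theorem sub_lowerD (τ : Bool) : ∃ c C : ℝ, 0 < c ∧ 0 < C ∧ ∀ (p : ℝ) (n : ℕ), 1/4 ≤ p →
    p ≤ 1/2 → 1 ≤ n →
      c * (n:ℝ)^(-ex τ) * Real.exp (-C * (n * (1/2 - p)^(4/3 : ℝ))) ≤ ad τ p n := by
  obtain ⟨κ, a, C, hκ, ha, hC, hG⟩ := nearGD τ
  obtain ⟨L, hL⟩ : ∃ L : ℝ, L = Real.log (1 / κ) := ⟨_, rfl⟩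
  obtain ⟨α, hα⟩ : ∃ α : ℝ, α = ex τ := ⟨_, rfl⟩
  have hα0 : 0 < α := by rw [hα]; exact ex_pos τ
  have hα1 : α ≤ 1 := by rw [hα]; exact ex_le τ
  rw [← hα] at hG ⊢
  refine ⟨min a (a * (2:ℝ)^(-α) * κ^4), max (2 * L * C) 1, lt_min ha (by positivity),
    lt_of_lt_of_le one_pos (le_max_right _ _), ?_⟩
  intro p n hp hp1 hn
  obtain ⟨m, hm, hmn, hW, harm, hcase⟩ := hG p n hp hp1 hn
  have h0 : 0 ≤ p := by linarith
  have h1 : p ≤ 1 := by linarith
  have hs0 : 0 ≤ 1/2 - p := by linarith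
  obtain ⟨H, hH⟩ : ∃ H : ℝ, H = (1/2 - p)^(4/3 : ℝ) := ⟨_, rfl⟩
  have hH0 : 0 ≤ H := by rw [hH]; positivity
  rw [← hH] at hcase ⊢
  have hn0 : (0:ℝ) < n := by exact_mod_cast hn
  have hm0 : (0:ℝ) < m := by exact_mod_cast hm
  have hexp1 : Real.exp (-(max (2 * L * C) 1) * (n * H)) ≤ 1 := by
    rw [Real.exp_le_one_iff]
    have : 0 ≤ max (2 * L * C) 1 := (zero_le_one).trans (le_max_right _ _)
    have h2 : 0 ≤ max (2 * L * C) 1 * (n * H) := by positivity
    linarith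
  have hnp : 0 < (n:ℝ)^(-α) := by positivity
  by_cases hnm : n ≤ 4 * m
  · calc min a (a * (2:ℝ)^(-α) * κ^4) * (n:ℝ)^(-α) *
          Real.exp (-(max (2 * L * C) 1) * (n * H))
        ≤ a * (n:ℝ)^(-α) * 1 := by
          apply mul_le_mul _ hexp1 (Real.exp_pos _).le (by positivity)
          exact mul_le_mul_of_nonneg_right (min_le_left _ _) hnp.le
      _ = a * (n:ℝ)^(-α) := mul_one _
      _ ≤ ad τ p n := harm n hn hnm
  · push Not at hnm
    have hC2 : 1 ≤ C * (m * H) := by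
      rcases hcase with h | h
      · omega
      · exact h
    have ok := okq h0 h1
    have hW2 : H12S.Win p κ (2 * m) := hW.anti (by omega)
    have e1 := pr_ad τ p (show 2 * m ≤ n by omega)
    have e2 := pr_HC_win (τ := τ) hW2 hm (show 2 * m ≤ n by omega)
    have l2 := (lf_bd τ (n := (n:ℤ)) (by positivity)).2
    have hsub2 : LRE 0 n 0 ((2 * m : ℕ) : ℤ) ⊆ DE τ n := by
      refine LRE_subset_RE.trans ?_
      unfold DE
      apply RE_subset <;> omega
    have e3 : κ * Real.exp (-(2 * L) * ((n:ℝ) / m)) ≤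
        Pr (fun _ => p) (DE τ n) (LRc 0 n 0 ((2 * m : ℕ) : ℤ)) := by
      rw [pr_LRc p hsub2]
      have h2 := hh_exp (hW.anti (show m ≤ 4 * m by omega)) hm hn
      rw [← hL] at h2
      refine h2.trans ?_
      apply hh_mono h0 h1
      · omega
      · omega
      · push_cast; omega
    have i1 := Pr_harris ok (Arm_incr (DE τ n) (2 * m))
      (B := HC τ m ((2 * m : ℕ) : ℤ)) (fun F G h _ hF => hF.mono h)
    have i2 := Pr_harris ok (S := DE τ n)
      (A := fun F => Arm (2 * m) F ∧ HC τ m ((2 * m : ℕ) : ℤ) F)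
      (B := LRc 0 n 0 ((2 * m : ℕ) : ℤ)) (fun F G h _ hF => ⟨hF.1.mono h, hF.2.mono h⟩)
      (LRc_incr _ _ _ _ _)
    have i3 : Pr (fun _ => p) (DE τ n)
        (fun F => (Arm (2 * m) F ∧ HC τ m ((2 * m : ℕ) : ℤ) F) ∧
          LRc 0 n 0 ((2 * m : ℕ) : ℤ) F) ≤ ad τ p n := by
      unfold ad
      apply Pr_mono ok
      rintro F hF ⟨⟨k1, k2⟩, k3⟩
      exact arm_of_strip hF hm (by omega) k1 k2 k3
    rw [e1] at i1
    have ha2 : a * (2:ℝ)^(-α) * (n:ℝ)^(-α) ≤ ad τ p (2 * m) := by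
      have h2 := harm (2 * m) (by omega) (by omega)
      refine le_trans ?_ h2
      rw [mul_assoc]
      apply mul_le_mul_of_nonneg_left _ ha.le
      push_cast
      rw [Real.mul_rpow (by norm_num) hm0.le]
      apply mul_le_mul_of_nonneg_left _ (by positivity)
      exact Real.rpow_le_rpow_of_nonpos hm0 (by exact_mod_cast hmn) (by linarith)
    have hexp2 : Real.exp (-(max (2 * L * C) 1) * (n * H)) ≤
        Real.exp (-(2 * L) * ((n:ℝ) / m)) := by
      apply Real.exp_le_exp.mpr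
      have h3 : (n:ℝ) / m ≤ C * (n * H) := by
        rw [div_le_iff₀ hm0]
        calc (n:ℝ) = n * 1 := (mul_one _).symm
          _ ≤ n * (C * (m * H)) := mul_le_mul_of_nonneg_left hC2 hn0.le
          _ = C * (n * H) * m := by ring
      have hL0 : 0 ≤ L := by
        rw [hL]
        apply Real.log_nonneg
        rw [le_div_iff₀ hκ]
        linarith [hW.kle]
      have h4 : 2 * L * ((n:ℝ) / m) ≤ 2 * L * (C * (n * H)) :=
        mul_le_mul_of_nonneg_left h3 (by positivity)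
      have h5 : 2 * L * C * (n * H) ≤ max (2 * L * C) 1 * (n * H) :=
        mul_le_mul_of_nonneg_right (le_max_left _ _) (by positivity)
      linarith
    have hE0 : 0 < Real.exp (-(2 * L) * ((n:ℝ) / m)) := Real.exp_pos _
    have harm0 : 0 ≤ ad τ p (2 * m) := ad_nonneg τ h0 h1 _
    have j1 : (a * (2:ℝ)^(-α) * (n:ℝ)^(-α)) * κ^3 ≤
        ad τ p (2 * m) * Pr (fun _ => p) (DE τ n) (HC τ m ((2 * m : ℕ) : ℤ)) :=
      mul_le_mul ha2 e2 (by positivity) harm0
    have j2 : ((a * (2:ℝ)^(-α) * (n:ℝ)^(-α)) * κ^3) *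
        (κ * Real.exp (-(2 * L) * ((n:ℝ) / m))) ≤ ad τ p n := by
      refine le_trans ?_ (i2.trans i3)
      refine mul_le_mul (j1.trans i1) e3 (by positivity) ?_
      exact (by positivity : 0 ≤ (a * (2:ℝ)^(-α) * (n:ℝ)^(-α)) * κ^3).trans
        (j1.trans i1)
    calc min a (a * (2:ℝ)^(-α) * κ^4) * (n:ℝ)^(-α) *
          Real.exp (-(max (2 * L * C) 1) * (n * H))
        ≤ (a * (2:ℝ)^(-α) * κ^4) * (n:ℝ)^(-α) *
          Real.exp (-(2 * L) * ((n:ℝ) / m)) := by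
          apply mul_le_mul _ hexp2 (Real.exp_pos _).le (by positivity)
          exact mul_le_mul_of_nonneg_right (min_le_right _ _) hnp.le
      _ = ((a * (2:ℝ)^(-α) * (n:ℝ)^(-α)) * κ^3) *
        (κ * Real.exp (-(2 * L) * ((n:ℝ) / m))) := by ring
      _ ≤ ad τ p n := j2

end Pool.Agent.H983.BD
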