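import Pool.Agent.H983.BD.Two

/-!
Mean sizes of the boundary clusters from above.
-/

set_option maxHeartbeats 1000000

namespace Pool.Agent.H983.BD

open H974 H31K Finset MeasureTheory

/-- The mean number of vertices of `A` in the open cluster of the origin in `D`. -/
noncomputable def meanIn (D A : Set (ℤ × ℤ)) (p : unitInterval) : ENNReal :=
  ∫⁻ ω, ((clusterIn D ω ∩ A).encard : ENNReal) ∂(bondLaw p)

theorem clusterD_union (τ : Bool) (x : Vtx) : {ω | x ∈ clusterIn (dom τ) ω} =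
    ⋃ n : ℕ, {ω | TP x (FF (DE τ n) ω)} := by
  ext ω
  simp only [Set.mem_iUnion]
  constructor
  · intro h
    have h1 : Reach (opn ω ∩ domE τ) (0, 0) x := (openIn_reach τ ω _ _).mp h
    have key : ∀ w, Reach (opn ω ∩ domE τ) (0, 0) w →
        ∃ n : ℕ, Reach (opn ω ∩ ↑(DE τ n)) (0, 0) w := by
      intro w hw
      induction hw with
      | refl => exact ⟨0, Reach.refl _ _⟩
      | tail _ hs ih =>
        obtain ⟨n, hn⟩ := ih
        obtain ⟨e, he, hcase⟩ := hs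
        obtain ⟨N, hN⟩ : ∃ N, N = max n (e.1.natAbs + e.2.1.natAbs + 1) := ⟨_, rfl⟩
        have h2 : DE τ n ⊆ DE τ N := DE_mono τ (by rw [hN]; exact le_max_left _ _)
        have h3 : e ∈ boxE N := by
          have h4 : e.1.natAbs + e.2.1.natAbs + 1 ≤ N := by rw [hN]; exact le_max_right _ _
          unfold boxE
          obtain ⟨a, b, _ | _⟩ := e
          · simp only [mem_RE_false] at h4 ⊢; omega
          · simp only [mem_RE_true] at h4 ⊢; omega
        refine ⟨N, (hn.mono (Set.inter_subset_inter_right _ (by exact_mod_cast h2))).trans ?_⟩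
        refine Relation.ReflTransGen.single ⟨e, ⟨he.1, ?_⟩, hcase⟩
        rw [DE_eq]
        exact ⟨he.2, h3⟩
    obtain ⟨n, hn⟩ := key x h1
    refine ⟨n, ?_⟩
    show Reach (↑(FF (DE τ n) ω) : Set Edg) (0, 0) x
    rw [FF_coe]
    exact hn
  · rintro ⟨n, hn⟩
    have h3 : Reach (↑(FF (DE τ n) ω) : Set Edg) (0, 0) x := hn
    rw [FF_coe, DE_eq] at h3
    refine (openIn_reach τ ω _ _).mpr (h3.mono ?_)
    rintro e ⟨h4, h5, -⟩
    exact ⟨h4, h5⟩

theorem clusterD_meas (τ : Bool) (x : Vtx) :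
    MeasurableSet {ω | x ∈ clusterIn (dom τ) ω} := by
  rw [clusterD_union]
  exact MeasurableSet.iUnion fun n => meas_event (DE τ n) (TP x)

open Classical in
theorem meanIn_le (τ : Bool) (A : Set (ℤ × ℤ)) (p : unitInterval) :
    meanIn (dom τ) A p ≤ ∑' x : Vtx, if x ∈ A then ENNReal.ofReal (tauD τ p x) else 0 := by
  have h1 : ∀ ω : sqLattice.edgeSet → Bool, ((clusterIn (dom τ) ω ∩ A).encard : ENNReal) =
      ∑' x : Vtx, (if x ∈ A then
        Set.indicator {ω | x ∈ clusterIn (dom τ) ω} (fun _ => (1 : ENNReal)) ω else 0) := by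
    intro ω
    rw [← ENNReal.tsum_set_one,
      tsum_subtype (clusterIn (dom τ) ω ∩ A) (fun _ => (1 : ENNReal))]
    refine tsum_congr fun x => ?_
    rw [Set.indicator_apply, Set.indicator_apply]
    by_cases h1 : x ∈ A
    · rw [if_pos h1]
      by_cases h2 : x ∈ clusterIn (dom τ) ω
      · rw [if_pos (show x ∈ clusterIn (dom τ) ω ∩ A from ⟨h2, h1⟩),
          if_pos (show ω ∈ {ω | x ∈ clusterIn (dom τ) ω} from h2)]
      · rw [if_neg (show x ∉ clusterIn (dom τ) ω ∩ A from fun h => h2 h.1),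
          if_neg (show ω ∉ {ω | x ∈ clusterIn (dom τ) ω} from h2)]
    · rw [if_neg h1, if_neg (show x ∉ clusterIn (dom τ) ω ∩ A from fun h => h1 h.2)]
  unfold meanIn
  rw [lintegral_congr h1, lintegral_tsum]
  · refine le_of_eq (tsum_congr fun x => ?_)
    by_cases hx : x ∈ A
    · simp only [if_pos hx]
      have h2 : ∫⁻ ω, Set.indicator {ω | x ∈ clusterIn (dom τ) ω} (fun _ => (1 : ENNReal)) ω
          ∂(bondLaw p) = (bondLaw p) {ω | x ∈ clusterIn (dom τ) ω} :=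
        lintegral_indicator_one (clusterD_meas τ x)
      rw [h2]
      unfold tauD
      rw [measureReal_def, ENNReal.ofReal_toReal (measure_ne_top _ _)]
    · simp only [if_neg hx, lintegral_const, zero_mul]
  · intro x
    by_cases hx : x ∈ A
    · simp only [if_pos hx]
      exact (measurable_one.indicator (clusterD_meas τ x)).aemeasurable
    · simp only [if_neg hx]
      exact aemeasurable_const

/-- Summation over shells. -/
theorem mean_le_shell (τ : Bool) (A : Set (ℤ × ℤ)) (p : unitInterval) {f N : ℕ → ℝ}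
    (hf0 : ∀ r, 0 ≤ f r) (T : ℕ → Finset Vtx) (hT : ∀ r, ((T r).card : ℝ) ≤ N r)
    (hA : ∀ x ∈ A, x ∈ T (Pool.Agent.W424.NC.nrm x))
    (hf : ∀ x ∈ A, tauD τ p x ≤ f (Pool.Agent.W424.NC.nrm x)) :
    meanIn (dom τ) A p ≤ ∑' r : ℕ, ENNReal.ofReal (N r * f r) := by
  classical
  calc meanIn (dom τ) A p
      ≤ ∑' x : Vtx, (if x ∈ A then ENNReal.ofReal (tauD τ p x) else 0) := by
        exact meanIn_le τ A p
    _ ≤ ∑' x : Vtx, ∑' r : ℕ, (if x ∈ T r then ENNReal.ofReal (f r) else 0) := by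
        refine ENNReal.tsum_le_tsum fun x => ?_
        by_cases hx : x ∈ A
        · rw [if_pos hx]
          refine (ENNReal.ofReal_le_ofReal (hf x hx)).trans ?_
          have h1 := ENNReal.le_tsum (f := fun r : ℕ =>
            (if x ∈ T r then ENNReal.ofReal (f r) else 0)) (Pool.Agent.W424.NC.nrm x)
          rw [if_pos (hA x hx)] at h1
          exact h1
        · rw [if_neg hx]
          exact bot_le
    _ = ∑' r : ℕ, ∑' x : Vtx, (if x ∈ T r then ENNReal.ofReal (f r) else 0) :=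
        ENNReal.tsum_comm
    _ ≤ ∑' r : ℕ, ENNReal.ofReal (N r * f r) := by
        refine ENNReal.tsum_le_tsum fun r => ?_
        rw [tsum_eq_sum (s := T r) (fun x hx => if_neg hx),
          Finset.sum_congr rfl (fun x hx => if_pos hx), Finset.sum_const, nsmul_eq_mul]
        have h1 : ((T r).card : ENNReal) = ENNReal.ofReal ((T r).card : ℝ) := by
          rw [ENNReal.ofReal_natCast]
        rw [h1, ← ENNReal.ofReal_mul (by positivity)]
        exact ENNReal.ofReal_le_ofReal (mul_le_mul_of_nonneg_right (hT r) (hf0 r))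

/-- The geometric series. -/
theorem geo_bound {c H : ℝ} (hc : 0 < c) (hH0 : 0 < H) (hH1 : H ≤ 1) :
    (1 - Real.exp (-(c * H)))⁻¹ ≤ ((1 + c) / c) * H⁻¹ := by
  have h2 : c * H / (1 + c) ≤ 1 - Real.exp (-(c * H)) := by
    have h3 : Real.exp (-(c * H)) ≤ 1 / (1 + c * H) := by
      rw [Real.exp_neg, one_div]
      apply inv_anti₀ (by positivity)
      have := Real.add_one_le_exp (c * H)
      linarith
    have h4 : c * H / (1 + c) ≤ 1 - 1 / (1 + c * H) := by
      have e : 1 - 1 / (1 + c * H) = c * H / (1 + c * H) := by field_simp; ring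
      rw [e]
      apply div_le_div_of_nonneg_left (by positivity) (by positivity)
      have : c * H ≤ c * 1 := mul_le_mul_of_nonneg_left hH1 (by positivity)
      linarith
    linarith
  calc (1 - Real.exp (-(c * H)))⁻¹ ≤ (c * H / (1 + c))⁻¹ := inv_anti₀ (by positivity) h2
    _ = _ := by field_simp

theorem rho_props {c H : ℝ} (hc : 0 < c) (hH0 : 0 < H) :
    0 < Real.exp (-(c * H)) ∧ Real.exp (-(c * H)) < 1 := by
  refine ⟨Real.exp_pos _, ?_⟩
  have h3 : 0 < c * H := by positivity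
  have h4 := Real.exp_lt_exp.mpr (show -(c * H) < 0 by linarith)
  rwa [Real.exp_zero] at h4

/-- The sum over the volume. -/
theorem sum_vol {β c C : ℝ} (hβ0 : 0 ≤ β) (hβ1 : β ≤ 1) (hc : 0 < c) (hC : 0 < C) :
    ∃ K : ℝ, 0 < K ∧ ∀ H : ℝ, 0 < H → H ≤ 1 →
      ∑' r : ℕ, ENNReal.ofReal (8 * ((r:ℝ) + 1) * (C * ((r:ℝ) + 1)^(-β) *
        Real.exp (-(c * (r * H))))) ≤ ENNReal.ofReal (K * H^(-(2 - β))) := by
  obtain ⟨K, hK⟩ : ∃ K : ℝ, K = 8 * C * (1 + 2 / c) * Real.exp (c / 2) := ⟨_, rfl⟩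
  have hK0 : 0 < K := by rw [hK]; positivity
  refine ⟨K * ((1 + c / 2) / (c / 2)), by positivity, ?_⟩
  intro t ht0 ht1
  obtain ⟨ρ, hρ⟩ : ∃ ρ : ℝ, ρ = Real.exp (-(c / 2 * t)) := ⟨_, rfl⟩
  obtain ⟨hρ0, hρ1⟩ := rho_props (c := c / 2) (H := t) (by positivity) ht0
  rw [← hρ] at hρ0 hρ1
  have hterm : ∀ r : ℕ, 8 * ((r:ℝ) + 1) * (C * ((r:ℝ) + 1)^(-β) *
      Real.exp (-(c * (r * t)))) ≤ K * t^(-(1 - β)) * ρ^r := by
    intro r
    have hr1 : (0:ℝ) < (r:ℝ) + 1 := by positivity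
    obtain ⟨u, hu⟩ : ∃ u : ℝ, u = ((r:ℝ) + 1) * t := ⟨_, rfl⟩
    have hu0 : 0 < u := by rw [hu]; positivity
    have e1 : ((r:ℝ) + 1) * ((r:ℝ) + 1)^(-β) = t^(-(1 - β)) * u^(1 - β) := by
      rw [hu, Real.mul_rpow hr1.le ht0.le, Real.rpow_neg ht0.le]
      have e2 : ((r:ℝ) + 1) * ((r:ℝ) + 1)^(-β) = ((r:ℝ) + 1)^(1 - β) := by
        nth_rewrite 1 [← Real.rpow_one ((r:ℝ) + 1)]
        rw [← Real.rpow_add hr1]
        congr 1
      rw [e2]
      field_simp
    have e3 : u^(1 - β) ≤ 1 + u := by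
      rcases le_total u 1 with h1 | h1
      · have := Real.rpow_le_one hu0.le h1 (show (0:ℝ) ≤ 1 - β by linarith)
        linarith
      · calc u^(1 - β) ≤ u^(1:ℝ) := Real.rpow_le_rpow_of_exponent_le h1 (by linarith)
          _ = u := Real.rpow_one u
          _ ≤ 1 + u := by linarith
    have e4 : 1 + u ≤ (1 + 2 / c) * Real.exp (c / 2 * u) := by
      have h1 : 1 ≤ Real.exp (c / 2 * u) := Real.one_le_exp (by positivity)
      have h2 : c / 2 * u ≤ Real.exp (c / 2 * u) := by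
        have := Real.add_one_le_exp (c / 2 * u)
        linarith
      have h3 : u ≤ 2 / c * Real.exp (c / 2 * u) := by
        calc u = 2 / c * (c / 2 * u) := by field_simp
          _ ≤ _ := mul_le_mul_of_nonneg_left h2 (by positivity)
      calc 1 + u ≤ Real.exp (c / 2 * u) + 2 / c * Real.exp (c / 2 * u) := by linarith
        _ = _ := by ring
    have e5 : Real.exp (c / 2 * u) * Real.exp (-(c * (r * t))) ≤ Real.exp (c / 2) * ρ^r := by
      rw [hρ, ← Real.exp_nat_mul, ← Real.exp_add, ← Real.exp_add]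
      apply Real.exp_le_exp.mpr
      rw [hu]
      have h1 : c / 2 * t ≤ c / 2 * 1 := mul_le_mul_of_nonneg_left ht1 (by positivity)
      have h2 : 0 ≤ c * ((r:ℝ) * t) := by positivity
      nlinarith
    calc 8 * ((r:ℝ) + 1) * (C * ((r:ℝ) + 1)^(-β) * Real.exp (-(c * (r * t))))
        = 8 * C * (((r:ℝ) + 1) * ((r:ℝ) + 1)^(-β)) * Real.exp (-(c * (r * t))) := by ring
      _ = 8 * C * t^(-(1 - β)) * u^(1 - β) * Real.exp (-(c * (r * t))) := by
          rw [e1]; ring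
      _ ≤ 8 * C * t^(-(1 - β)) * ((1 + 2 / c) * Real.exp (c / 2 * u)) *
          Real.exp (-(c * (r * t))) := by
          apply mul_le_mul_of_nonneg_right _ (Real.exp_pos _).le
          exact mul_le_mul_of_nonneg_left (e3.trans e4) (by positivity)
      _ = 8 * C * (1 + 2 / c) * t^(-(1 - β)) *
          (Real.exp (c / 2 * u) * Real.exp (-(c * (r * t)))) := by ring
      _ ≤ 8 * C * (1 + 2 / c) * t^(-(1 - β)) * (Real.exp (c / 2) * ρ^r) :=
          mul_le_mul_of_nonneg_left e5 (by positivity)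
      _ = _ := by rw [hK]; ring
  refine (ENNReal.tsum_le_tsum (fun r => ENNReal.ofReal_le_ofReal (hterm r))).trans ?_
  have hsum : Summable (fun r : ℕ => K * t^(-(1 - β)) * ρ^r) :=
    (summable_geometric_of_lt_one hρ0.le hρ1).mul_left _
  rw [← ENNReal.ofReal_tsum_of_nonneg (fun r => by positivity) hsum]
  apply ENNReal.ofReal_le_ofReal
  rw [tsum_mul_left, tsum_geometric_of_lt_one hρ0.le hρ1]
  have h1 : (1 - ρ)⁻¹ ≤ ((1 + c / 2) / (c / 2)) * t⁻¹ := by
    rw [hρ]; exact geo_bound (by positivity) ht0 ht1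
  calc K * t^(-(1 - β)) * (1 - ρ)⁻¹ ≤
        K * t^(-(1 - β)) * (((1 + c / 2) / (c / 2)) * t⁻¹) :=
        mul_le_mul_of_nonneg_left h1 (by positivity)
    _ = K * ((1 + c / 2) / (c / 2)) * (t^(-(1 - β)) * t⁻¹) := by ring
    _ = _ := by
        congr 1
        rw [← Real.rpow_neg_one t, ← Real.rpow_add ht0]
        congr 1
        ring

/-- The sum along a line. -/
theorem sum_line {β c C : ℝ} (hβ0 : 0 ≤ β) (hc : 0 < c) (hC : 0 < C)
    {G : ℕ → ℝ} (hG : ∀ R : ℕ, 1 ≤ R → ∑ r ∈ range R, ((r:ℝ) + 1)^(-β) ≤ G R) :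
    ∀ H : ℝ, 0 < H → H ≤ 1 →
      ∑' r : ℕ, ENNReal.ofReal (2 * (C * ((r:ℝ) + 1)^(-β) *
        Real.exp (-(c * (r * H))))) ≤
        ENNReal.ofReal (2 * C * G ⌈1 / H⌉₊ + 2 * C * ((1 + c) / c) * H^(-(1 - β))) := by
  intro H hH0 hH1
  obtain ⟨R, hR⟩ : ∃ R : ℕ, R = ⌈1 / H⌉₊ := ⟨_, rfl⟩
  have hR1 : 1 ≤ R := by
    rw [hR]
    exact Nat.one_le_iff_ne_zero.mpr (Nat.pos_iff_ne_zero.mp (Nat.ceil_pos.mpr (by positivity)))
  have hRH : 1 / H ≤ R := by rw [hR]; exact Nat.le_ceil _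
  obtain ⟨ρ, hρ⟩ : ∃ ρ : ℝ, ρ = Real.exp (-(c * H)) := ⟨_, rfl⟩
  obtain ⟨hρ0, hρ1⟩ := rho_props hc hH0
  rw [← hρ] at hρ0 hρ1
  rw [← hR]
  have hterm : ∀ r : ℕ, 2 * (C * ((r:ℝ) + 1)^(-β) * Real.exp (-(c * (r * H)))) ≤
      (if r ∈ range R then 2 * C * ((r:ℝ) + 1)^(-β) else 0) + 2 * C * H^β * ρ^r := by
    intro r
    have hr1 : (0:ℝ) < (r:ℝ) + 1 := by positivity
    have e1 : Real.exp (-(c * (r * H))) = ρ^r := by
      rw [hρ, ← Real.exp_nat_mul]; congr 1; ring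
    have hρr : ρ^r ≤ 1 := pow_le_one₀ hρ0.le hρ1.le
    have hρr0 : 0 < ρ^r := by positivity
    rw [e1]
    by_cases hr : r ∈ range R
    · rw [if_pos hr]
      have h2 : 0 ≤ 2 * C * H^β * ρ^r := by positivity
      have h3 : 2 * (C * ((r:ℝ) + 1)^(-β) * ρ^r) ≤ 2 * C * ((r:ℝ) + 1)^(-β) := by
        have h4 : 0 ≤ C * ((r:ℝ) + 1)^(-β) := by positivity
        nlinarith
      linarith
    · rw [if_neg hr, zero_add]
      rw [mem_range, not_lt] at hr
      have hr' : (R:ℝ) ≤ r := by exact_mod_cast hr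
      have h2 : ((r:ℝ) + 1)^(-β) ≤ (1 / H)^(-β) :=
        Real.rpow_le_rpow_of_nonpos (by positivity) (by linarith) (by linarith)
      have h3 : (1 / H)^(-β) = H^β := by
        rw [one_div, Real.inv_rpow hH0.le, Real.rpow_neg hH0.le, inv_inv]
      rw [h3] at h2
      calc 2 * (C * ((r:ℝ) + 1)^(-β) * ρ^r) ≤ 2 * (C * H^β * ρ^r) := by
            apply mul_le_mul_of_nonneg_left _ (by norm_num)
            apply mul_le_mul_of_nonneg_right _ hρr0.le
            exact mul_le_mul_of_nonneg_left h2 hC.le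
        _ = _ := by ring
  have hn1 : ∀ r : ℕ, 0 ≤ (if r ∈ range R then 2 * C * ((r:ℝ) + 1)^(-β) else 0) := by
    intro r
    split_ifs
    · positivity
    · exact le_rfl
  refine (ENNReal.tsum_le_tsum (fun r => ENNReal.ofReal_le_ofReal (hterm r))).trans ?_
  have hadd : ∀ r : ℕ, ENNReal.ofReal ((if r ∈ range R then 2 * C * ((r:ℝ) + 1)^(-β) else 0) +
      2 * C * H^β * ρ^r) = ENNReal.ofReal (if r ∈ range R then 2 * C * ((r:ℝ) + 1)^(-β) else 0) +
        ENNReal.ofReal (2 * C * H^β * ρ^r) := fun r =>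
    ENNReal.ofReal_add (hn1 r) (by positivity)
  rw [tsum_congr hadd, ENNReal.tsum_add]
  have hG0 : 0 ≤ G R := le_trans (Finset.sum_nonneg fun r _ => by positivity) (hG R hR1)
  have h1 : ∑' r : ℕ, ENNReal.ofReal (if r ∈ range R then 2 * C * ((r:ℝ) + 1)^(-β) else 0) ≤
      ENNReal.ofReal (2 * C * G R) := by
    rw [tsum_eq_sum (s := range R) (fun r hr => by rw [if_neg hr, ENNReal.ofReal_zero]),
      ← ENNReal.ofReal_sum_of_nonneg (fun r _ => hn1 r)]
    apply ENNReal.ofReal_le_ofReal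
    rw [Finset.sum_congr rfl (fun r hr => if_pos hr), ← Finset.mul_sum]
    exact mul_le_mul_of_nonneg_left (hG R hR1) (by positivity)
  have hsum : Summable (fun r : ℕ => 2 * C * H^β * ρ^r) :=
    (summable_geometric_of_lt_one hρ0.le hρ1).mul_left _
  have h2 : ∑' r : ℕ, ENNReal.ofReal (2 * C * H^β * ρ^r) ≤
      ENNReal.ofReal (2 * C * ((1 + c) / c) * H^(-(1 - β))) := by
    rw [← ENNReal.ofReal_tsum_of_nonneg (fun r => by positivity) hsum]
    apply ENNReal.ofReal_le_ofReal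
    rw [tsum_mul_left, tsum_geometric_of_lt_one hρ0.le hρ1]
    have h3 : (1 - ρ)⁻¹ ≤ ((1 + c) / c) * H⁻¹ := by
      rw [hρ]; exact geo_bound hc hH0 hH1
    calc 2 * C * H^β * (1 - ρ)⁻¹ ≤ 2 * C * H^β * (((1 + c) / c) * H⁻¹) :=
          mul_le_mul_of_nonneg_left h3 (by positivity)
      _ = 2 * C * ((1 + c) / c) * (H^β * H⁻¹) := by ring
      _ = _ := by
          congr 1
          rw [← Real.rpow_neg_one H, ← Real.rpow_add hH0]
          congr 1
          ring
  rw [ENNReal.ofReal_add (by positivity) (by positivity)]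
  exact add_le_add h1 h2

/-- `∑ r^(-2/3)`. -/
theorem sum_two_thirds (R : ℕ) : ∑ r ∈ range R, ((r:ℝ) + 1)^(-(2/3) : ℝ) ≤
    3 * (R:ℝ)^(1/3 : ℝ) := by
  induction R with
  | zero => simp
  | succ R ih =>
    rw [Finset.sum_range_succ]
    have hR1 : (0:ℝ) < (R:ℝ) + 1 := by positivity
    have hR0 : (0:ℝ) ≤ (R:ℝ) := by positivity
    obtain ⟨a, ha⟩ : ∃ a : ℝ, a = ((R:ℝ) + 1)^(1/3 : ℝ) := ⟨_, rfl⟩
    obtain ⟨b, hb⟩ : ∃ b : ℝ, b = (R:ℝ)^(1/3 : ℝ) := ⟨_, rfl⟩
    have ha0 : 0 < a := by rw [ha]; positivity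
    have hb0 : 0 ≤ b := by rw [hb]; positivity
    have ha3 : a^3 = (R:ℝ) + 1 := by
      rw [ha, ← Real.rpow_natCast, ← Real.rpow_mul hR1.le]; norm_num
    have hb3 : b^3 = (R:ℝ) := by
      rw [hb, ← Real.rpow_natCast, ← Real.rpow_mul hR0]; norm_num
    have hab : b ≤ a := by
      rw [ha, hb]; exact Real.rpow_le_rpow hR0 (by linarith) (by norm_num)
    have e1 : ((R:ℝ) + 1)^(-(2/3) : ℝ) = (a^2)⁻¹ := by
      rw [ha, Real.rpow_neg hR1.le, ← Real.rpow_natCast, ← Real.rpow_mul hR1.le]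
      norm_num
    rw [e1]
    rw [← hb] at ih
    push_cast
    rw [← ha]
    have h1 : (a^2)⁻¹ ≤ 3 * (a - b) := by
      rw [inv_le_iff_one_le_mul₀ (by positivity)]
      have h2 : a^3 - b^3 = 1 := by rw [ha3, hb3]; ring
      have h3 : a^3 - b^3 = (a - b) * (a^2 + a * b + b^2) := by ring
      have h4 : a^2 + a * b + b^2 ≤ 3 * a^2 := by nlinarith
      have h5 : (a - b) * (a^2 + a * b + b^2) ≤ (a - b) * (3 * a^2) :=
        mul_le_mul_of_nonneg_left h4 (by linarith)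
      nlinarith
    linarith

theorem sum_harm (R : ℕ) : ∑ r ∈ range R, ((r:ℝ) + 1)^(-1 : ℝ) ≤
    1 + Real.log R := by
  have h := harmonic_le_one_add_log R
  refine le_trans (le_of_eq ?_) h
  unfold harmonic
  push_cast
  apply Finset.sum_congr rfl
  intro r _
  rw [Real.rpow_neg_one]

end Pool.Agent.H983.BD
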