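import Pool.Agent.H983.BD.Stab

/-!
The one-arm probabilities of the half-plane and of the quarter-plane above the critical point.
-/

set_option maxHeartbeats 1000000

namespace Pool.Agent.H983.BD

open H974 H31K Finset Pool.Agent.W424.NC

/-- Upper bound at and above the critical point. -/
theorem sup_upperD (τ : Bool) : ∃ C : ℝ, 0 < C ∧ ∀ p : ℝ, 1/2 ≤ p → p ≤ 1 → ∀ n : ℕ, 1 ≤ n →
    ad τ p n ≤ C * max ((n:ℝ) ^ (-ex τ)) ((p - 1/2) ^ (4/3 * ex τ)) := by
  obtain ⟨κ, b, hκ, hb, hst⟩ := adS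
  obtain ⟨cc, Cc, hcc, hCc, harm⟩ := ad_crit
  obtain ⟨α, hα⟩ : ∃ α : ℝ, α = ex τ := ⟨_, rfl⟩
  have hα0 : 0 < α := by rw [hα]; exact ex_pos τ
  have hα1 : α ≤ 1 := by rw [hα]; exact ex_le τ
  obtain ⟨D, hD⟩ : ∃ D : ℝ, D = b ^ (-(4/3 * α)) := ⟨_, rfl⟩
  have hD0 : 0 < D := by rw [hD]; positivity
  refine ⟨3 * Cc + D + 6 * Cc * D, by positivity, ?_⟩
  intro p hp hp1 n hn
  rw [← hα]
  obtain ⟨t, ht⟩ : ∃ t, t = p - 1/2 := ⟨_, rfl⟩
  have ht0 : 0 ≤ t := by rw [ht]; linarith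
  rw [← ht]
  have h0 : 0 ≤ p := by linarith
  have hn0 : (0:ℝ) < n := by exact_mod_cast hn
  have good : ∀ m : ℕ, 1 ≤ m → t * (m:ℝ) ^ (3/4 : ℝ) ≤ b →
      ad τ p m ≤ 3 * Cc * (m:ℝ) ^ (-α) := by
    intro m hm hmt
    have hm0 : (0:ℝ) < m := by exact_mod_cast hm
    have h2 := ((hst m hm p (by
      rw [← ht, abs_of_nonneg ht0, Real.rpow_neg hm0.le, ← div_eq_mul_inv,
        le_div_iff₀ (by positivity)]
      exact hmt)).2 τ).1
    have h3 := (harm τ m hm).2
    rw [← hα] at h3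
    linarith
  have hmaxl : (n:ℝ) ^ (-α) ≤ max ((n:ℝ) ^ (-α)) (t ^ (4/3 * α)) :=
    le_max_left _ _
  have hmaxr : t ^ (4/3 * α) ≤ max ((n:ℝ) ^ (-α)) (t ^ (4/3 * α)) :=
    le_max_right _ _
  have hmax0 : 0 ≤ max ((n:ℝ) ^ (-α)) (t ^ (4/3 * α)) :=
    le_trans (by positivity) hmaxl
  by_cases hA : t * (n:ℝ) ^ (3/4 : ℝ) ≤ b
  · refine (good n hn hA).trans ?_
    calc 3 * Cc * (n:ℝ) ^ (-α)
        ≤ 3 * Cc * max ((n:ℝ) ^ (-α)) (t ^ (4/3 * α)) :=
          mul_le_mul_of_nonneg_left hmaxl (by positivity)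
      _ ≤ _ := mul_le_mul_of_nonneg_right (by
          have : 0 < 6 * Cc * D := by positivity
          linarith) hmax0
  · push Not at hA
    have htp : 0 < t := by
      rcases ht0.lt_or_eq with h | h
      · exact h
      · exfalso
        rw [← h, zero_mul] at hA
        linarith
    have hbt : (t / b) ^ (4/3 * α) = D * t ^ (4/3 * α) := by
      rw [Real.div_rpow htp.le hb.le, hD, Real.rpow_neg hb.le]
      ring
    by_cases hB : t ≤ b
    · obtain ⟨x, hx⟩ : ∃ x : ℝ, x = (b / t) ^ (4/3 : ℝ) := ⟨_, rfl⟩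
      have hx1 : 1 ≤ x := by
        rw [hx]
        apply Real.one_le_rpow _ (by norm_num)
        rw [le_div_iff₀ htp]
        linarith
      have hx34 : x ^ (3/4 : ℝ) = b / t := by
        rw [hx, ← Real.rpow_mul (by positivity)]
        norm_num
      have hm1 : 1 ≤ ⌊x⌋₊ := Nat.le_floor (by exact_mod_cast hx1)
      have hm2 : (⌊x⌋₊ : ℝ) ≤ x := Nat.floor_le (by linarith)
      have hm3 : x < ⌊x⌋₊ + 1 := Nat.lt_floor_add_one x
      have hm4 : (1:ℝ) ≤ (⌊x⌋₊ : ℝ) := by exact_mod_cast hm1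
      have hxn : x < n := by
        have h5 : x ^ (3/4 : ℝ) < (n:ℝ) ^ (3/4 : ℝ) := by
          rw [hx34, div_lt_iff₀ htp]
          linarith
        exact (Real.rpow_lt_rpow_iff (by linarith) hn0.le (by norm_num)).1 h5
      have hmn : ⌊x⌋₊ ≤ n := by
        have : ((⌊x⌋₊ : ℕ) : ℝ) < n := lt_of_le_of_lt hm2 hxn
        exact_mod_cast this.le
      have h6 := good ⌊x⌋₊ hm1 (by
        have : ((⌊x⌋₊ : ℕ) : ℝ) ^ (3/4 : ℝ) ≤ b / t := by
          rw [← hx34]
          exact Real.rpow_le_rpow (by positivity) hm2 (by norm_num)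
        rw [le_div_iff₀ htp] at this
        linarith)
      have h7 : ((⌊x⌋₊ : ℕ) : ℝ) ^ (-α) ≤ 2 * (D * t ^ (4/3 * α)) := by
        have h8 : ((⌊x⌋₊ : ℕ) : ℝ) ^ (-α) ≤ (x / 2) ^ (-α) :=
          Real.rpow_le_rpow_of_nonpos (by linarith) (by linarith) (by linarith)
        refine h8.trans ?_
        rw [Real.div_rpow (by linarith) (by norm_num)]
        have h9 : x ^ (-α) = D * t ^ (4/3 * α) := by
          rw [← hbt, hx, ← Real.rpow_mul (by positivity), ← inv_div t b,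
            Real.inv_rpow (by positivity), ← Real.rpow_neg (by positivity)]
          congr 1
          ring
        rw [h9, Real.rpow_neg (by norm_num), div_inv_eq_mul]
        have h10 : (2:ℝ) ^ α ≤ 2 ^ (1:ℝ) :=
          Real.rpow_le_rpow_of_exponent_le (by norm_num) hα1
        rw [Real.rpow_one] at h10
        have h11 : 0 ≤ D * t ^ (4/3 * α) := by positivity
        calc D * t ^ (4/3 * α) * 2 ^ α ≤ D * t ^ (4/3 * α) * 2 :=
              mul_le_mul_of_nonneg_left h10 h11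
          _ = _ := by ring
      calc ad τ p n ≤ ad τ p ⌊x⌋₊ := ad_anti τ h0 hp1 hmn
        _ ≤ _ := h6
        _ ≤ 3 * Cc * (2 * (D * t ^ (4/3 * α))) := mul_le_mul_of_nonneg_left h7 (by positivity)
        _ = 6 * Cc * D * t ^ (4/3 * α) := by ring
        _ ≤ 6 * Cc * D * max ((n:ℝ) ^ (-α)) (t ^ (4/3 * α)) :=
          mul_le_mul_of_nonneg_left hmaxr (by positivity)
        _ ≤ _ := mul_le_mul_of_nonneg_right (by linarith) hmax0
    · push Not at hB
      have h12 : 1 ≤ D * t ^ (4/3 * α) := by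
        rw [← hbt]
        apply Real.one_le_rpow _ (by positivity)
        rw [le_div_iff₀ hb]
        linarith
      calc ad τ p n ≤ 1 := ad_le_one τ h0 hp1 n
        _ ≤ D * t ^ (4/3 * α) := h12
        _ ≤ D * max ((n:ℝ) ^ (-α)) (t ^ (4/3 * α)) :=
          mul_le_mul_of_nonneg_left hmaxr hD0.le
        _ ≤ _ := mul_le_mul_of_nonneg_right (by
          have : 0 < 6 * Cc * D := by positivity
          linarith) hmax0

/-- The chain of crossings carries an arm to large scales. -/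
theorem arm_of_chainD {τ : Bool} {m : ℕ} {N : ℕ} (hN : 2 ≤ N) {F : Finset Edg}
    (hF : F ⊆ DE τ m) (J : ℕ) (hA : Arm (2 * N) F)
    (hC : HC τ N (2 * N : ℕ) F) (h : ∀ j ≤ J, Step N j F) : Arm (2 * (2^J * N)) F := by
  have hN' : (2:ℤ) ≤ N := by exact_mod_cast hN
  obtain ⟨z, hz⟩ := hc_meet (r := (N:ℤ)) (R := ((2 * N : ℕ) : ℤ)) hF (by omega)
    (by push_cast; omega) hC
  obtain ⟨a, v, hv, hza, hst⟩ := chain_conn hN (F := F) (z := z) hz J h
  obtain ⟨w, hw, hr⟩ := hA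
  have hle : N ≤ 2^J * N := Nat.le_mul_of_pos_left _ (by positivity)
  have m1 := hz (0, 0) w (by unfold inR; simp only; omega) hw.2 hr
  have hbox : boxE (2 * N) ⊆ boxE (2 * (2^J * N)) := boxE_mono (by omega)
  have hsub : (↑F : Set Edg) ∩ ↑(boxE (2 * N)) ⊆ ↑F ∩ ↑(boxE (2 * (2^J * N))) :=
    Set.inter_subset_inter_right _ (by exact_mod_cast hbox)
  have m1' : Reach (↑F ∩ ↑(boxE (2 * (2^J * N)))) (0, 0) z := m1.mono hsub
  unfold FarPt at hv
  obtain ⟨M, hM⟩ : ∃ M : ℕ, M = 2^J * N := ⟨_, rfl⟩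
  rw [← hM] at hle hv hza hst m1' ⊢
  have hav : Reach (↑F ∩ ↑(boxE (2 * M))) a v := by
    by_cases hev : Even J
    · rw [if_pos hev] at hst
      refine hst.2.2.mono (Set.inter_subset_inter_right _ ?_)
      have : RE 0 (2 * (M:ℤ)) 0 ((M:ℤ) - 1) ⊆ boxE (2 * M) := by
        unfold boxE
        push_cast
        exact RE_subset (by omega) (by omega) (by omega) (by omega)
      exact_mod_cast this
    · rw [if_neg hev] at hst
      refine hst.2.2.mono (Set.inter_subset_inter_right _ ?_)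
      have : RE 0 ((M:ℤ) - 1) 0 (2 * (M:ℤ)) ⊆ boxE (2 * M) := by
        unfold boxE
        push_cast
        exact RE_subset (by omega) (by omega) (by omega) (by omega)
      exact_mod_cast this
  refine ⟨v, ?_, m1'.trans (hza.trans hav)⟩
  unfold inR at hv
  unfold onB inR
  push_cast
  omega

theorem pr_HC_ge (τ : Bool) {p : ℝ} (h0 : 0 ≤ p) (h1 : p ≤ 1) {N : ℕ} (hN : 2 ≤ N)
    {S : Finset Edg} (hS : DE τ (2 * N) ⊆ S) :
    1 - 15 * eps p N ≤ Pr (fun _ => p) S (HC τ N (2 * N : ℕ)) := by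
  have hN' : (2:ℤ) ≤ N := by exact_mod_cast hN
  have hlong := long_cross h0 h1 hN
  have ok := okq h0 h1
  obtain ⟨R, hR⟩ : ∃ R : ℤ, R = ((2 * N : ℕ) : ℤ) := ⟨_, rfl⟩
  have hR' : R = 2 * N := by rw [hR]; push_cast; ring
  unfold DE at hS
  rw [← hR] at hS ⊢
  obtain ⟨l1, l2⟩ := lf_bd τ (n := R) (by omega)
  have e1 : 1 - 5 * eps p N ≤ Pr (fun _ => p) S (LRc (lf τ R) R N R) := by
    rw [pr_LRc p (LRE_subset_RE.trans ((RE_subset le_rfl le_rfl (by omega) le_rfl).trans hS))]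
    have : hh p (4 * N) (N - 1) ≤ hh p (R - lf τ R) (R - N) :=
      hh_mono h0 h1 (by omega) (by omega) (by omega)
    linarith
  have e2 : 1 - 5 * eps p N ≤ Pr (fun _ => p) S (TBc N R 0 R) := by
    rw [pr_TBc p (TBE_subset_RE.trans ((RE_subset (by omega) le_rfl le_rfl le_rfl).trans hS))]
    have : hh p (4 * N) (N - 1) ≤ hh p (R - 0) (R - N) :=
      hh_mono h0 h1 (by omega) (by omega) (by omega)
    linarith
  have e3 : 1 - 5 * eps p N ≤
      Pr (fun _ => p) S (fun F => τ = false → TBc (-R) (-N) 0 R F) := by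
    cases τ
    · have e : Pr (fun _ => p) S (fun F => (false = false → TBc (-R) (-N) 0 R F)) =
          Pr (fun _ => p) S (TBc (-R) (-N) 0 R) := Pr_congr (fun F _ => by simp)
      rw [e, pr_TBc p (TBE_subset_RE.trans ((RE_subset (by simp [lf]) (by omega) le_rfl
        le_rfl).trans hS))]
      have : hh p (4 * N) (N - 1) ≤ hh p (R - 0) (-N - -R) :=
        hh_mono h0 h1 (by omega) (by omega) (by omega)
      linarith
    · have e : Pr (fun _ => p) S (fun F => (true = false → TBc (-R) (-N) 0 R F)) = 1 :=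
        Pr_true S (fun F _ => by simp)
      rw [e]
      have := eps_nonneg h0 h1 N
      linarith
  have i1 := Pr_and_ge ok S (TBc N R 0 R) (fun F => τ = false → TBc (-R) (-N) 0 R F)
  have i2 := Pr_and_ge ok S (LRc (lf τ R) R N R)
    (fun F => TBc N R 0 R F ∧ (τ = false → TBc (-R) (-N) 0 R F))
  have i3 : Pr (fun _ => p) S (fun F => LRc (lf τ R) R N R F ∧
      (TBc N R 0 R F ∧ (τ = false → TBc (-R) (-N) 0 R F))) = Pr (fun _ => p) S (HC τ N R) := rfl
  linarith

theorem pr_stepD (τ : Bool) {p : ℝ} {N j : ℕ} {S : Finset Edg} (hS : DE τ (2 * (2^j * N)) ⊆ S) :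
    Pr (fun _ => p) S (Step N j) = 1 - eps p (2^j * N) := by
  obtain ⟨M, hM⟩ : ∃ M : ℕ, M = 2^j * N := ⟨_, rfl⟩
  have hM0 : (0:ℤ) ≤ M := by positivity
  have l2 := (lf_bd τ (n := 2 * (M:ℤ)) (by omega)).2
  rw [← hM] at hS ⊢
  unfold DE at hS
  push_cast at hS
  by_cases hev : Even j
  · have : Step N j = LRc 0 (2 * (M:ℤ)) 0 ((M:ℤ) - 1) := by
      funext F
      unfold Step
      rw [if_pos hev, hM]
    rw [this, pr_LRc p]
    · unfold eps
      rw [sub_zero, sub_zero]; ring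
    · refine LRE_subset_RE.trans (Finset.Subset.trans ?_ hS)
      exact RE_subset (by omega) (by omega) (by omega) (by omega)
  · have : Step N j = TBc 0 ((M:ℤ) - 1) 0 (2 * (M:ℤ)) := by
      funext F
      unfold Step
      rw [if_neg hev, hM]
    rw [this, pr_TBc p]
    · unfold eps
      rw [sub_zero, sub_zero]; ring
    · refine TBE_subset_RE.trans (Finset.Subset.trans ?_ hS)
      exact RE_subset (by omega) (by omega) (by omega) (by omega)

theorem pr_stepsD (τ : Bool) {p : ℝ} (h0 : 0 ≤ p) (h1 : p ≤ 1) {N : ℕ} (hN : 2 ≤ N)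
    (he : eps p N ≤ 1/100) (J : ℕ) {S : Finset Edg} (hS : DE τ (2 * (2^J * N)) ⊆ S) :
    1 - (1/75) * (1 - (1/4 : ℝ)^(J + 1)) ≤ Pr (fun _ => p) S (fun F => ∀ j ≤ J, Step N j F) := by
  have ok := okq h0 h1
  induction J with
  | zero =>
    have e : Pr (fun _ => p) S (fun F => ∀ j ≤ 0, Step N j F) = Pr (fun _ => p) S (Step N 0) := by
      apply Pr_congr
      intro F _
      constructor
      · intro h; exact h 0 le_rfl
      · intro h j hj
        have : j = 0 := by omega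
        rw [this]; exact h
    rw [e, pr_stepD τ hS]
    have := eps_pow h0 h1 hN he 0
    norm_num at this ⊢
    linarith
  | succ J ih =>
    have hle : 2 * (2^J * N) ≤ 2 * (2^(J+1) * N) := by
      rw [pow_succ]
      nlinarith [Nat.zero_le (2^J * N)]
    have hS' : DE τ (2 * (2^J * N)) ⊆ S := (DE_mono τ hle).trans hS
    have i1 := ih hS'
    have i2 := Pr_and_ge ok S (fun F => ∀ j ≤ J, Step N j F) (Step N (J + 1))
    have i3 : Pr (fun _ => p) S (fun F => (∀ j ≤ J, Step N j F) ∧ Step N (J + 1) F) =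
        Pr (fun _ => p) S (fun F => ∀ j ≤ J + 1, Step N j F) := by
      apply Pr_congr
      intro F _
      constructor
      · rintro ⟨h, h'⟩ j hj
        rcases Nat.lt_or_ge j (J + 1) with hlt | hge
        · exact h j (by omega)
        · have : j = J + 1 := by omega
          rw [this]; exact h'
      · intro h
        exact ⟨fun j hj => h j (by omega), h _ le_rfl⟩
    rw [pr_stepD τ hS, i3] at i2
    have h3 := eps_pow h0 h1 hN he (J + 1)
    rw [pow_succ (1/4:ℝ) (J + 1)] at h3 ⊢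
    linarith

/-- Beyond the correlation length the one-arm probabilities are comparable. -/
theorem arm_chainD (τ : Bool) {p : ℝ} (h0 : 0 ≤ p) (h1 : p ≤ 1) {N : ℕ} (hN : 2 ≤ N)
    (he : eps p N ≤ 1/100) (m : ℕ) : 1/2 * ad τ p (2 * N) ≤ ad τ p m := by
  have ok := okq h0 h1
  have hm : m ≤ 2 * (2^m * N) := by
    have h2 : m < 2^m := Nat.lt_two_pow_self
    nlinarith [Nat.zero_le (2^m * N)]
  have hle : N ≤ 2^m * N := Nat.le_mul_of_pos_left _ (by positivity)
  obtain ⟨S, hS⟩ : ∃ S, S = DE τ (2 * (2^m * N)) := ⟨_, rfl⟩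
  have hbox : DE τ (2 * N) ⊆ S := by rw [hS]; exact DE_mono τ (by omega)
  have e1 : Pr (fun _ => p) S (Arm (2 * N)) = ad τ p (2 * N) := by
    rw [hS]; exact pr_ad τ p (by omega)
  have e2 := pr_HC_ge τ h0 h1 hN hbox
  have e3 := pr_stepsD τ h0 h1 hN he m (S := S) (by rw [hS])
  have i1 := Pr_and_ge ok S (HC τ N (2 * N : ℕ)) (fun F => ∀ j ≤ m, Step N j F)
  have i2 := Pr_harris ok (Arm_incr S (2 * N))
    (B := fun F => HC τ N (2 * N : ℕ) F ∧ ∀ j ≤ m, Step N j F)
    (fun F G h _ hF => ⟨hF.1.mono h, fun j hj => (hF.2 j hj).mono h⟩)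
  have i3 : Pr (fun _ => p) S (fun F => Arm (2 * N) F ∧
      (HC τ N (2 * N : ℕ) F ∧ ∀ j ≤ m, Step N j F)) ≤ ad τ p (2 * (2^m * N)) := by
    unfold ad
    rw [← hS]
    apply Pr_mono ok
    rintro F hF ⟨k1, k2, k3⟩
    rw [hS] at hF
    exact arm_of_chainD hN hF m k1 k2 k3
  rw [e1] at i2
  have h5 : 0 ≤ (1/4:ℝ)^(m+1) := by positivity
  have hpr : 1/2 ≤ Pr (fun _ => p) S (fun F => HC τ N (2 * N : ℕ) F ∧ ∀ j ≤ m, Step N j F) := by
    linarith
  have ha := ad_nonneg τ h0 h1 (2 * N)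
  have hfin := ad_anti τ h0 h1 hm
  calc 1/2 * ad τ p (2 * N) = ad τ p (2 * N) * (1/2) := by ring
    _ ≤ _ := mul_le_mul_of_nonneg_left hpr ha
    _ ≤ _ := i2
    _ ≤ _ := i3
    _ ≤ _ := hfin

/-- Lower bound at and above the critical point. -/
theorem sup_lowerD (τ : Bool) : ∃ c : ℝ, 0 < c ∧ ∀ p : ℝ, 1/2 ≤ p → p ≤ 1 → ∀ n : ℕ,
    c * (p - 1/2) ^ (4/3 * ex τ) ≤ ad τ p n ∧
      (1 ≤ n → c * (n:ℝ) ^ (-ex τ) ≤ ad τ p n) := by
  obtain ⟨E, hE, hfar⟩ := farN
  obtain ⟨cc, Cc, hcc, hCc, harm⟩ := ad_crit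
  obtain ⟨α, hα⟩ : ∃ α : ℝ, α = ex τ := ⟨_, rfl⟩
  have hα0 : 0 < α := by rw [hα]; exact ex_pos τ
  have hα1 : α ≤ 1 := by rw [hα]; exact ex_le τ
  refine ⟨min cc (cc / 2 * (2 * E) ^ (-α)), lt_min hcc (by positivity), ?_⟩
  intro p hp hp1 n
  have h0 : 0 ≤ p := by linarith
  rw [← hα]
  constructor
  · obtain ⟨t, ht⟩ : ∃ t, t = p - 1/2 := ⟨_, rfl⟩
    have ht0 : 0 ≤ t := by rw [ht]; linarith
    rw [← ht]
    rcases ht0.lt_or_eq with htp | h
    · obtain ⟨N, hN2, hN3, hN4, hN5⟩ := hfar (1 - p) (by linarith) (by linarith)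
      rw [show (1:ℝ) - (1 - p) = p by ring] at hN5
      have e1 : (1:ℝ)/2 - (1 - p) = t := by rw [ht]; ring
      rw [e1] at hN3 hN4
      have hN0 : (0:ℝ) < N := by
        have : 0 < N := by omega
        exact_mod_cast this
      have k1 := arm_chainD τ h0 hp1 hN2 hN5 n
      have k2 := ad_mono_param τ (by norm_num) hp hp1 (2 * N)
      have k3 := (harm τ (2 * N) (by omega)).1
      rw [← hα] at k3
      push_cast at k3
      have k4 : (2 * E) ^ (-α) * t ^ (4/3 * α) ≤ (2 * (N:ℝ)) ^ (-α) := by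
        have e2 : t ^ (4/3 * α) = (t ^ (4/3 : ℝ)) ^ α := by
          rw [← Real.rpow_mul htp.le]
        have e3 : t ^ (4/3 : ℝ) ≤ E / N := by
          rw [le_div_iff₀ hN0]
          linarith
        have e4 : t ^ (4/3 * α) ≤ (E / N) ^ α := by
          rw [e2]
          exact Real.rpow_le_rpow (by positivity) e3 hα0.le
        calc (2 * E) ^ (-α) * t ^ (4/3 * α)
            ≤ (2 * E) ^ (-α) * (E / N) ^ α :=
              mul_le_mul_of_nonneg_left e4 (by positivity)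
          _ = (2 * (N:ℝ)) ^ (-α) := by
              rw [Real.rpow_neg (by positivity), Real.rpow_neg (by positivity),
                Real.mul_rpow (by norm_num) (by positivity),
                Real.mul_rpow (by norm_num) (by positivity),
                Real.div_rpow (by positivity) (by positivity)]
              field_simp
      calc min cc (cc / 2 * (2 * E) ^ (-α)) * t ^ (4/3 * α)
          ≤ cc / 2 * (2 * E) ^ (-α) * t ^ (4/3 * α) :=
            mul_le_mul_of_nonneg_right (min_le_right _ _) (by positivity)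
        _ = 1/2 * (cc * ((2 * E) ^ (-α) * t ^ (4/3 * α))) := by ring
        _ ≤ 1/2 * (cc * (2 * (N:ℝ)) ^ (-α)) := by
            apply mul_le_mul_of_nonneg_left _ (by norm_num)
            exact mul_le_mul_of_nonneg_left k4 hcc.le
        _ ≤ 1/2 * ad τ p (2 * N) := by linarith
        _ ≤ _ := k1
    · rw [← h, Real.zero_rpow (by positivity), mul_zero]
      exact ad_nonneg τ h0 hp1 n
  · intro hn
    have k2 := ad_mono_param τ (by norm_num) hp hp1 n
    have k3 := (harm τ n hn).1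
    rw [← hα] at k3
    calc min cc (cc / 2 * (2 * E) ^ (-α)) * (n:ℝ) ^ (-α)
        ≤ cc * (n:ℝ) ^ (-α) :=
          mul_le_mul_of_nonneg_right (min_le_left _ _) (by positivity)
      _ ≤ _ := k3.trans k2

end Pool.Agent.H983.BD
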