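import Pool.Agent.H983.BD.Inf
import Pool.Graph.R_seed8.W424.NC.TwoUp

/-!
Connections inside the half-plane and the quarter-plane: upper bounds for the two-point functions.
-/

set_option maxHeartbeats 1000000

namespace Pool.Agent.H983.BD

open H974 H31K Finset MeasureTheory

/-- The two-point function of the domain. -/
noncomputable def tauD (τ : Bool) (p : unitInterval) (x : Vtx) : ℝ :=
  (bondLaw p).real {ω | x ∈ clusterIn (dom τ) ω}

theorem tauD_le_one (τ : Bool) (p : unitInterval) (x : Vtx) : tauD τ p x ≤ 1 :=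
  measureReal_le_one

theorem tauD_nonneg (τ : Bool) (p : unitInterval) (x : Vtx) : 0 ≤ tauD τ p x :=
  measureReal_nonneg

theorem tauD_le (τ : Bool) (p : unitInterval) {x1 x2 : ℤ} {m : ℕ}
    (hx : 2 * (m:ℤ) < |x1| ∨ 2 * (m:ℤ) < |x2|) {B : Finset Edg}
    (hB : ∀ e ∈ RE (x1 - m) (x1 + m) (x2 - m) (x2 + m), e ∈ domE τ → e ∈ B)
    (hB' : B ⊆ RE (x1 - m) (x1 + m) (x2 - m) (x2 + m)) :
    tauD τ p (x1, x2) ≤
      ad τ p m * Pr (fun _ => (p:ℝ)) ((trl (-x1) (-x2)).mp B) (Arm m) := by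
  obtain ⟨S, hS⟩ : ∃ S : Finset Edg, S = DE τ m ∪ B := ⟨_, rfl⟩
  have s1 : DE τ m ⊆ S := by rw [hS]; exact Finset.subset_union_left
  have s2 : B ⊆ S := by rw [hS]; exact Finset.subset_union_right
  have hd : Disjoint (DE τ m) B :=
    Finset.disjoint_of_subset_left (DE_sub τ m)
      (Finset.disjoint_of_subset_right hB' (t10_disj hx))
  have h1 : tauD τ p (x1, x2) ≤ (bondLaw p).real {ω | (fun F => Arm m (F ∩ DE τ m) ∧
      Arm m ((trl (-x1) (-x2)).mp (F ∩ B))) (FF S ω)} := by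
    refine measureReal_mono (fun ω hω => ?_)
    have hreach : Reach (opn ω ∩ domE τ) (0, 0) (x1, x2) := (openIn_reach τ ω _ _).mp hω
    have h0 : (0:ℤ) ≤ m := by positivity
    have h1 : x1 < -(2 * (m:ℤ)) ∨ 2 * (m:ℤ) < x1 ∨ x2 < -(2 * (m:ℤ)) ∨ 2 * (m:ℤ) < x2 := by
      rcases hx with h | h
      · rcases lt_abs.mp h with h | h
        · exact Or.inr (Or.inl h)
        · exact Or.inl (by omega)
      · rcases lt_abs.mp h with h | h
        · exact Or.inr (Or.inr (Or.inr h))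
        · exact Or.inr (Or.inr (Or.inl (by omega)))
    constructor
    · obtain ⟨w, k1, k2, k3⟩ := first_exit (a := -m) (b := m) (c := -m) (d := m)
        (by unfold inR; simp) hreach (by simp only; omega)
      refine ⟨w, ⟨k1, k2⟩, k3.mono ?_⟩
      rintro e ⟨⟨he1, he2⟩, he3⟩
      have he4 : e ∈ DE τ m := by
        have : e ∈ (↑(DE τ m) : Set Edg) := by
          rw [DE_eq]
          exact ⟨he2, he3⟩
        exact this
      refine ⟨?_, he3⟩
      rw [Finset.mem_coe, Finset.mem_inter, mem_FF]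
      exact ⟨⟨s1 he4, he1⟩, he4⟩
    · obtain ⟨w, k1, k2, k3⟩ := first_exit (a := x1 - m) (b := x1 + m) (c := x2 - m)
        (d := x2 + m) (u := (x1, x2)) (by unfold inR; simp only; omega) hreach.symm
        (by simp only; omega)
      obtain ⟨w1, w2⟩ := w
      have k4 := (trl (-x1) (-x2)).reach k3
      rw [trl_ψ, trl_ψ] at k4
      have e1 : x1 + -x1 = 0 := by ring
      have e2 : x2 + -x2 = 0 := by ring
      rw [e1, e2] at k4
      unfold inR at k1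
      simp only at k1 k2
      refine ⟨(w1 + -x1, w2 + -x2), ⟨?_, ?_⟩, k4.mono ?_⟩
      · unfold inR
        simp only
        omega
      · simp only
        omega
      · have e3 : boxE m = (trl (-x1) (-x2)).mp (RE (x1 - m) (x1 + m) (x2 - m) (x2 + m)) := by
          rw [trl_RE]; unfold boxE; congr 1 <;> ring
        rw [e3, LSym.coe_mp, LSym.coe_mp]
        rintro _ ⟨e, ⟨⟨he1, he2⟩, he3⟩, rfl⟩
        have he4 : e ∈ B := hB e he3 he2
        refine ⟨⟨e, ?_, rfl⟩, ⟨e, he3, rfl⟩⟩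
        rw [Finset.mem_coe, Finset.mem_inter, mem_FF]
        exact ⟨⟨s2 he4, he1⟩, he4⟩
  rw [law_event p S (fun F => Arm m (F ∩ DE τ m) ∧
    Arm m ((trl (-x1) (-x2)).mp (F ∩ B)))] at h1
  have h3 := Pr_indep (p := fun _ => (p:ℝ)) s1 s2 hd (A := fun F => Arm m (F ∩ DE τ m))
    (B := fun F => Arm m ((trl (-x1) (-x2)).mp (F ∩ B)))
    (fun F _ => by rw [Finset.inter_assoc, Finset.inter_self])
    (fun F _ => by rw [Finset.inter_assoc, Finset.inter_self])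
  have h4 : Pr (fun _ => (p:ℝ)) S (fun F => Arm m (F ∩ DE τ m)) = ad τ p m := by
    rw [Pr_local s1 (fun F _ => by rw [Finset.inter_assoc, Finset.inter_self])]
    apply Pr_congr
    intro F hF
    rw [Finset.inter_eq_left.mpr hF]
  have h5 : Pr (fun _ => (p:ℝ)) S (fun F => Arm m ((trl (-x1) (-x2)).mp (F ∩ B))) =
      Pr (fun _ => (p:ℝ)) ((trl (-x1) (-x2)).mp B) (Arm m) := by
    rw [Pr_local s2 (fun F _ => by rw [Finset.inter_assoc, Finset.inter_self]), LSym.pr]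
    apply Pr_congr
    intro F hF
    rw [Finset.inter_eq_left.mpr hF]
  rw [h3, h4, h5] at h1
  exact h1

theorem tauD_le_bulk (τ : Bool) (p : unitInterval) {x : Vtx} {m : ℕ}
    (hx : 2 * (m:ℤ) < |x.1| ∨ 2 * (m:ℤ) < |x.2|) : tauD τ p x ≤ ad τ p m * arm p m := by
  obtain ⟨x1, x2⟩ := x
  have h := tauD_le τ p (x1 := x1) (x2 := x2) hx (fun e he _ => he) (Finset.Subset.refl _)
  have e3 : (trl (-x1) (-x2)).mp (RE (x1 - m) (x1 + m) (x2 - m) (x2 + m)) = boxE m := by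
    rw [trl_RE]; unfold boxE; congr 1 <;> ring
  rw [e3] at h
  exact h

theorem tauD_le_bdry (τ : Bool) (p : unitInterval) {k : ℤ} {m : ℕ}
    (hx : 2 * (m:ℤ) < |k|) : tauD τ p (k, 0) ≤ ad τ p m * ad false p m := by
  have h := tauD_le τ p (x1 := k) (x2 := 0) (m := m) (B := RE (k - m) (k + m) 0 m)
    (Or.inl hx) (by
      rintro ⟨x, y, b⟩ he hd
      have h2 : 0 ≤ y := hd.1.1
      cases b
      · rw [mem_RE_false] at he ⊢; omega
      · rw [mem_RE_true] at he ⊢; omega)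
    (RE_subset le_rfl le_rfl (by omega) (by omega))
  have e3 : (trl (-k) (-0)).mp (RE (k - m) (k + m) 0 m) = DE false m := by
    rw [trl_RE]
    unfold DE
    simp only [lf, Bool.false_eq_true, if_false]
    congr 1 <;> ring
  rw [e3] at h
  exact h

/-- From dyadic bounds to bounds in terms of the distance. -/
theorem shape {β c0 C0 : ℝ} (hβ : 0 ≤ β) (hc0 : 0 < c0) (hC0 : 0 < C0) :
    ∃ C : ℝ, 0 < C ∧ ∀ (H T : ℝ) (r : ℕ), 0 ≤ H → H ≤ 1 → T ≤ 1 →
      (∀ m : ℕ, 1 ≤ m → 2 * m < r → T ≤ C0 * (m:ℝ)^(-β) * Real.exp (-(c0 * (m * H)))) →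
      T ≤ C * ((r:ℝ) + 1)^(-β) * Real.exp (-(c0 / 8 * (r * H))) := by
  refine ⟨(3:ℝ)^β * Real.exp (c0 / 4) + C0 * 8^β, by positivity, ?_⟩
  intro H T r hH0 hH1 hT h
  have hr0 : (0:ℝ) ≤ r := Nat.cast_nonneg _
  have hr1 : (0:ℝ) < (r:ℝ) + 1 := by positivity
  have hX : 0 < ((r:ℝ) + 1)^(-β) * Real.exp (-(c0 / 8 * (r * H))) := by positivity
  by_cases h3 : r ≤ 2
  · have hr2 : (r:ℝ) ≤ 2 := by exact_mod_cast h3
    have h4 : (3:ℝ)^(-β) ≤ ((r:ℝ) + 1)^(-β) :=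
      Real.rpow_le_rpow_of_nonpos hr1 (by linarith) (by linarith)
    have h5 : Real.exp (-(c0 / 4)) ≤ Real.exp (-(c0 / 8 * (r * H))) := by
      apply Real.exp_le_exp.mpr
      have : (r:ℝ) * H ≤ 2 * 1 := mul_le_mul hr2 hH1 hH0 (by norm_num)
      nlinarith
    have h6 : (1:ℝ) = ((3:ℝ)^β * Real.exp (c0 / 4)) * ((3:ℝ)^(-β) * Real.exp (-(c0 / 4))) := by
      have e1 : (3:ℝ)^β * (3:ℝ)^(-β) = 1 := by
        rw [← Real.rpow_add (by norm_num), add_neg_cancel, Real.rpow_zero]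
      have e2 : Real.exp (c0 / 4) * Real.exp (-(c0 / 4)) = 1 := by
        rw [← Real.exp_add, add_neg_cancel, Real.exp_zero]
      calc (1:ℝ) = ((3:ℝ)^β * (3:ℝ)^(-β)) * (Real.exp (c0 / 4) * Real.exp (-(c0 / 4))) := by
            rw [e1, e2, one_mul]
        _ = _ := by ring
    calc T ≤ 1 := hT
      _ = ((3:ℝ)^β * Real.exp (c0 / 4)) * ((3:ℝ)^(-β) * Real.exp (-(c0 / 4))) := h6
      _ ≤ ((3:ℝ)^β * Real.exp (c0 / 4)) *
          (((r:ℝ) + 1)^(-β) * Real.exp (-(c0 / 8 * (r * H)))) := by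
          apply mul_le_mul_of_nonneg_left _ (by positivity)
          exact mul_le_mul h4 h5 (Real.exp_pos _).le (by positivity)
      _ ≤ ((3:ℝ)^β * Real.exp (c0 / 4) + C0 * 8^β) *
          (((r:ℝ) + 1)^(-β) * Real.exp (-(c0 / 8 * (r * H)))) := by
          apply mul_le_mul_of_nonneg_right _ hX.le
          have : 0 < C0 * 8^β := by positivity
          linarith
      _ = _ := by ring
  · obtain ⟨m, hm⟩ : ∃ m : ℕ, m = (r - 1) / 2 := ⟨_, rfl⟩
    have h8 : 1 ≤ m := by omega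
    have h9 : r + 1 ≤ 8 * m := by omega
    have h10 := h m h8 (by omega)
    have hm0 : (0:ℝ) < m := by exact_mod_cast (by omega : 0 < m)
    have h9' : (r:ℝ) + 1 ≤ 8 * m := by exact_mod_cast h9
    have h15 : (m:ℝ)^(-β) ≤ 8^β * ((r:ℝ) + 1)^(-β) := by
      have h16 : (m:ℝ)^(-β) ≤ (((r:ℝ)+1)/8)^(-β) := by
        apply Real.rpow_le_rpow_of_nonpos (by positivity) _ (by linarith)
        linarith
      refine h16.trans (le_of_eq ?_)
      rw [Real.div_rpow hr1.le (by norm_num), Real.rpow_neg (by norm_num : (0:ℝ) ≤ 8),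
        div_inv_eq_mul, mul_comm]
    have h17 : Real.exp (-(c0 * (m * H))) ≤ Real.exp (-(c0 / 8 * (r * H))) := by
      apply Real.exp_le_exp.mpr
      have h18 : (r:ℝ) * H ≤ 8 * m * H := mul_le_mul_of_nonneg_right (by linarith) hH0
      have h19 := mul_le_mul_of_nonneg_left h18 (by positivity : 0 ≤ c0 / 8)
      have e : c0 / 8 * (8 * m * H) = c0 * (m * H) := by ring
      linarith
    calc T ≤ C0 * (m:ℝ)^(-β) * Real.exp (-(c0 * (m * H))) := h10
      _ ≤ C0 * (8^β * ((r:ℝ) + 1)^(-β)) * Real.exp (-(c0 / 8 * (r * H))) := by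
          apply mul_le_mul _ h17 (Real.exp_pos _).le (by positivity)
          exact mul_le_mul_of_nonneg_left h15 hC0.le
      _ = (C0 * 8^β) * (((r:ℝ) + 1)^(-β) * Real.exp (-(c0 / 8 * (r * H)))) := by ring
      _ ≤ ((3:ℝ)^β * Real.exp (c0 / 4) + C0 * 8^β) *
          (((r:ℝ) + 1)^(-β) * Real.exp (-(c0 / 8 * (r * H)))) := by
          apply mul_le_mul_of_nonneg_right _ hX.le
          have : 0 < (3:ℝ)^β * Real.exp (c0 / 4) := by positivity
          linarith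
      _ = _ := by ring

theorem H_le_one {p : ℝ} (h0 : 0 ≤ p) (h1 : p ≤ 1/2) :
    0 ≤ (1/2 - p)^(4/3 : ℝ) ∧ (1/2 - p)^(4/3 : ℝ) ≤ 1 :=
  ⟨Real.rpow_nonneg (by linarith) _, Real.rpow_le_one (by linarith) (by linarith) (by norm_num)⟩

theorem nrm_gt {x : Vtx} {m : ℕ} (h : 2 * m < Pool.Agent.W424.NC.nrm x) :
    2 * (m:ℤ) < |x.1| ∨ 2 * (m:ℤ) < |x.2| := by
  have h' : 2 * (m:ℤ) < (Pool.Agent.W424.NC.nrm x : ℤ) := by exact_mod_cast h
  rcases Pool.Agent.W424.NC.nrm_cases x with h2 | h2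
  · left; omega
  · right; omega

/-- Upper bound for the two-point function of the domain. -/
theorem tauD_upper (τ : Bool) : ∃ c C : ℝ, 0 < c ∧ 0 < C ∧ ∀ p : unitInterval, (p:ℝ) ≤ 1/2 →
    ∀ x : Vtx, tauD τ p x ≤ C * ((Pool.Agent.W424.NC.nrm x : ℝ) + 1)^(-(ex τ + 5/48)) *
      Real.exp (-(c * (Pool.Agent.W424.NC.nrm x * (1/2 - (p:ℝ))^(4/3 : ℝ)))) := by
  obtain ⟨c0, C0, hc0, hC0, h1⟩ := sub_upperD τ
  obtain ⟨cc, Cc, hcc, hCc, harm⟩ := Pool.Agent.W424.NC.arm_crit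
  have hα := ex_pos τ
  obtain ⟨C, hC, h2⟩ := shape (β := ex τ + 5/48) (c0 := c0) (C0 := C0 * Cc) (by positivity) hc0
    (by positivity)
  refine ⟨c0 / 8, C, by positivity, hC, ?_⟩
  intro p hp x
  have h0 : (0:ℝ) ≤ p := p.2.1
  obtain ⟨hH0, hH1⟩ := H_le_one h0 hp
  apply h2 _ _ _ hH0 hH1 (tauD_le_one τ p x)
  intro m hm1 hm2
  have hm0 : (0:ℝ) < m := by exact_mod_cast (by omega : 0 < m)
  have k1 := tauD_le_bulk τ p (nrm_gt hm2)
  have k2 := h1 p h0 hp m hm1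
  have k4 : arm p m ≤ Cc * (m:ℝ)^(-(5/48) : ℝ) :=
    (arm_mono_param h0 hp (by norm_num) m).trans (harm m hm1).2
  refine k1.trans ((mul_le_mul k2 k4 (arm_nonneg h0 (by linarith) m) (by positivity)).trans
    (le_of_eq ?_))
  rw [neg_add, Real.rpow_add hm0]
  ring

/-- Upper bound for the connection to the horizontal side. -/
theorem tauB_upper (τ : Bool) : ∃ c C : ℝ, 0 < c ∧ 0 < C ∧ ∀ p : unitInterval, (p:ℝ) ≤ 1/2 →
    ∀ k : ℤ, tauD τ p (k, 0) ≤ C * ((k.natAbs : ℝ) + 1)^(-(ex τ + 1/3)) *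
      Real.exp (-(c * (k.natAbs * (1/2 - (p:ℝ))^(4/3 : ℝ)))) := by
  obtain ⟨c0, C0, hc0, hC0, h1⟩ := sub_upperD τ
  obtain ⟨cc, Cc, hcc, hCc, harm⟩ := ad_crit
  have hα := ex_pos τ
  obtain ⟨C, hC, h2⟩ := shape (β := ex τ + 1/3) (c0 := c0) (C0 := C0 * Cc) (by positivity) hc0
    (by positivity)
  refine ⟨c0 / 8, C, by positivity, hC, ?_⟩
  intro p hp k
  have h0 : (0:ℝ) ≤ p := p.2.1
  obtain ⟨hH0, hH1⟩ := H_le_one h0 hp
  apply h2 _ _ _ hH0 hH1 (tauD_le_one τ p _)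
  intro m hm1 hm2
  have hm0 : (0:ℝ) < m := by exact_mod_cast (by omega : 0 < m)
  have k1 := tauD_le_bdry τ p (k := k) (m := m) (by rw [Int.abs_eq_natAbs]; omega)
  have k2 := h1 p h0 hp m hm1
  have k4 : ad false p m ≤ Cc * (m:ℝ)^(-(1/3) : ℝ) := by
    have := (ad_mono_param false h0 hp (by norm_num) m).trans (harm false m hm1).2
    simpa only [ex, if_false, Bool.false_eq_true] using this
  refine k1.trans ((mul_le_mul k2 k4 (ad_nonneg false h0 (by linarith) m) (by positivity)).trans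
    (le_of_eq ?_))
  rw [neg_add, Real.rpow_add hm0]
  ring

end Pool.Agent.H983.BD
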